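import Pool.Agent.NullShell.Stmts

/-! # The core inequality -/

open MeasureTheory Filter Topology
open scoped ContDiff

namespace Pool.Agent.NullShell

/-! ## Linear algebra -/

/-- For a symmetric `M` with `M x = 0`, `|x| = 1`, `z ⊥ x` and `w = x × z`:
`M(w, w) + M(z, z) = (tr M) |z|²`. -/
theorem core_algebra (M : Fin 3 → Fin 3 → ℝ) (x z : Fin 3 → ℝ)
    (hx : x 0 ^ 2 + x 1 ^ 2 + x 2 ^ 2 = 1) (hs : ∀ i j, M i j = M j i)
    (hM : ∀ i, M i 0 * x 0 + M i 1 * x 1 + M i 2 * x 2 = 0)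
    (hz : z 0 * x 0 + z 1 * x 1 + z 2 * x 2 = 0) (w : Fin 3 → ℝ)
    (hw0 : w 0 = x 1 * z 2 - x 2 * z 1) (hw1 : w 1 = x 2 * z 0 - x 0 * z 2)
    (hw2 : w 2 = x 0 * z 1 - x 1 * z 0) :
    (∑ i, ∑ j, M i j * w i * w j) + (∑ i, ∑ j, M i j * z i * z j)
      = (∑ i, M i i) * ∑ i, z i ^ 2 := by
  simp only [Fin.sum_univ_three, hw0, hw1, hw2]
  have h10 := hs 1 0
  have h20 := hs 2 0
  have h21 := hs 2 1
  have hM0 := hM 0
  have hM1 := hM 1
  have hM2 := hM 2
  rw [h10] at hM1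
  rw [h20, h21] at hM2
  rw [h10, h20, h21]
  linear_combination ((M 0 0 + M 1 1 + M 2 2) * (z 0 ^ 2 + z 1 ^ 2 + z 2 ^ 2)
      - (M 0 0 * z 0 ^ 2 + M 1 1 * z 1 ^ 2 + M 2 2 * z 2 ^ 2 + 2 * M 0 1 * z 0 * z 1
        + 2 * M 0 2 * z 0 * z 2 + 2 * M 1 2 * z 1 * z 2)) * hx
    - (z 0 ^ 2 + z 1 ^ 2 + z 2 ^ 2) * (x 0 * hM0 + x 1 * hM1 + x 2 * hM2)
    + (-(M 0 0 + M 1 1 + M 2 2) * (z 0 * x 0 + z 1 * x 1 + z 2 * x 2)) * hz
    + 2 * (z 0 * x 0 + z 1 * x 1 + z 2 * x 2) * (z 0 * hM0 + z 1 * hM1 + z 2 * hM2)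

/-- The pointwise inequality `2 M(a, z) - (1/R) M(a, a) ≤ R (tr M) |z|²`. -/
theorem core_pointwise (M : Fin 3 → Fin 3 → ℝ) (x z a : Fin 3 → ℝ) {R : ℝ} (hR : 0 < R)
    (hx : x 0 ^ 2 + x 1 ^ 2 + x 2 ^ 2 = 1) (hs : ∀ i j, M i j = M j i)
    (hM : ∀ i, M i 0 * x 0 + M i 1 * x 1 + M i 2 * x 2 = 0)
    (hpos : ∀ v : Fin 3 → ℝ, ∑ i, v i * x i = 0 → 0 ≤ ∑ i, ∑ j, M i j * v i * v j)
    (hz : z 0 * x 0 + z 1 * x 1 + z 2 * x 2 = 0)
    (ha : a 0 * x 0 + a 1 * x 1 + a 2 * x 2 = 0) :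
    2 * (∑ i, ∑ j, M i j * a i * z j) - (1 / R) * (∑ i, ∑ j, M i j * a i * a j)
      ≤ R * ((∑ i, M i i) * ∑ i, z i ^ 2) := by
  have h1 := hpos (fun i => a i - R * z i) (by
    simp only [Fin.sum_univ_three]; linear_combination ha - R * hz)
  have h2 := hpos (fun i => ![x 1 * z 2 - x 2 * z 1, x 2 * z 0 - x 0 * z 2,
    x 0 * z 1 - x 1 * z 0] i) (by
      simp only [Fin.sum_univ_three, Matrix.cons_val_zero, Matrix.cons_val_one, Matrix.cons_val]
      ring)
  have h3 := core_algebra M x z hx hs hM hz (fun i => ![x 1 * z 2 - x 2 * z 1,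
    x 2 * z 0 - x 0 * z 2, x 0 * z 1 - x 1 * z 0] i) rfl rfl rfl
  have h4 : (∑ i, ∑ j, M i j * z i * z j) ≤ (∑ i, M i i) * ∑ i, z i ^ 2 := by linarith
  have h5 : (∑ i, ∑ j, M i j * (a i - R * z i) * (a j - R * z j))
      = (∑ i, ∑ j, M i j * a i * a j) - 2 * R * (∑ i, ∑ j, M i j * a i * z j)
        + R ^ 2 * (∑ i, ∑ j, M i j * z i * z j) := by
    simp only [Fin.sum_univ_three]
    rw [hs 1 0, hs 2 0, hs 2 1]
    ring
  rw [h5] at h1
  have h6 : 2 * (∑ i, ∑ j, M i j * a i * z j) - (1 / R) * (∑ i, ∑ j, M i j * a i * a j)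
      ≤ R * (∑ i, ∑ j, M i j * z i * z j) := by
    have h7 : 0 ≤ (1 / R) * ((∑ i, ∑ j, M i j * a i * a j)
        - 2 * R * (∑ i, ∑ j, M i j * a i * z j) + R ^ 2 * (∑ i, ∑ j, M i j * z i * z j)) :=
      mul_nonneg (by positivity) h1
    have h8 : (1 / R) * ((∑ i, ∑ j, M i j * a i * a j)
        - 2 * R * (∑ i, ∑ j, M i j * a i * z j) + R ^ 2 * (∑ i, ∑ j, M i j * z i * z j))
        = (1 / R) * (∑ i, ∑ j, M i j * a i * a j) - 2 * (∑ i, ∑ j, M i j * a i * z j)
          + R * (∑ i, ∑ j, M i j * z i * z j) := by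
      field_simp
    linarith
  exact h6.trans (mul_le_mul_of_nonneg_left h4 hR.le)

/-- The trace of a matrix that is nonnegative on the plane is nonnegative. -/
theorem core_trace_nonneg (M : Fin 3 → Fin 3 → ℝ) (x : Fin 3 → ℝ)
    (hx : x 0 ^ 2 + x 1 ^ 2 + x 2 ^ 2 = 1)
    (hM : ∀ i, M i 0 * x 0 + M i 1 * x 1 + M i 2 * x 2 = 0)
    (hpos : ∀ v : Fin 3 → ℝ, ∑ i, v i * x i = 0 → 0 ≤ ∑ i, ∑ j, M i j * v i * v j) :
    0 ≤ ∑ i, M i i := by
  have h0 := hpos (fun i => ![0, - x 2, x 1] i) (by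
    simp only [Fin.sum_univ_three, Matrix.cons_val_zero, Matrix.cons_val_one, Matrix.cons_val]
    ring)
  have h1 := hpos (fun i => ![x 2, 0, - x 0] i) (by
    simp only [Fin.sum_univ_three, Matrix.cons_val_zero, Matrix.cons_val_one, Matrix.cons_val]
    ring)
  have h2 := hpos (fun i => ![- x 1, x 0, 0] i) (by
    simp only [Fin.sum_univ_three, Matrix.cons_val_zero, Matrix.cons_val_one, Matrix.cons_val]
    ring)
  simp only [Fin.sum_univ_three, Matrix.cons_val_zero, Matrix.cons_val_one,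
    Matrix.cons_val] at h0 h1 h2 ⊢
  have hM0 := hM 0
  have hM1 := hM 1
  have hM2 := hM 2
  have h3 : M 0 0 + M 1 1 + M 2 2
      = (M 0 0 * 0 * 0 + M 0 1 * 0 * -x 2 + M 0 2 * 0 * x 1
          + (M 1 0 * -x 2 * 0 + M 1 1 * -x 2 * -x 2 + M 1 2 * -x 2 * x 1)
          + (M 2 0 * x 1 * 0 + M 2 1 * x 1 * -x 2 + M 2 2 * x 1 * x 1))
        + (M 0 0 * x 2 * x 2 + M 0 1 * x 2 * 0 + M 0 2 * x 2 * -x 0
          + (M 1 0 * 0 * x 2 + M 1 1 * 0 * 0 + M 1 2 * 0 * -x 0)
          + (M 2 0 * -x 0 * x 2 + M 2 1 * -x 0 * 0 + M 2 2 * -x 0 * -x 0))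
        + (M 0 0 * -x 1 * -x 1 + M 0 1 * -x 1 * x 0 + M 0 2 * -x 1 * 0
          + (M 1 0 * x 0 * -x 1 + M 1 1 * x 0 * x 0 + M 1 2 * x 0 * 0)
          + (M 2 0 * 0 * -x 1 + M 2 1 * 0 * x 0 + M 2 2 * 0 * 0)) := by
    linear_combination (-(M 0 0 + M 1 1 + M 2 2)) * hx + x 0 * hM0 + x 1 * hM1 + x 2 * hM2
  linarith

/-! ## The matrix `U` -/

theorem Umat_symm {s F : E → ℝ} (hs : Sm s) {x : E} (hx : x ∈ SS) (i j : Fin 3) :
    Umat s F i j x = Umat s F j i x := by
  unfold Umat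
  rw [hess_symm hs hx i j]
  rcases eq_or_ne i j with h | h
  · subst h; rfl
  · rw [if_neg h, if_neg h.symm]; ring

theorem Umat_mul_coord {s F : E → ℝ} (hs : Sm s) {x : E} (hx : x ∈ SS) (i : Fin 3) :
    Umat s F i 0 x * x 0 + Umat s F i 1 x * x 1 + Umat s F i 2 x * x 2 = 0 := by
  have h1 := hess_mul_coord hs hx i
  have h2 := sq_sum_eq_one hx
  unfold Umat
  simp only [Fin.sum_univ_three] at h1
  fin_cases i
  · simp only [Fin.zero_eta, if_true, zero_ne_one, if_false, Fin.reduceEq] at h1 ⊢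
    linear_combination h1 - F x * x 0 * h2
  · simp only [Fin.mk_one, if_true, one_ne_zero, if_false, Fin.reduceEq] at h1 ⊢
    linear_combination h1 - F x * x 1 * h2
  · simp only [Fin.reduceFinMk, if_true, if_false, Fin.reduceEq] at h1 ⊢
    linear_combination h1 - F x * x 2 * h2

theorem Umat_trace {s F : E → ℝ} (hs : Sm s) {x : E} (hx : x ∈ SS) :
    ∑ i, Umat s F i i x = lap s x + 2 * F x := by
  have h1 := hess_trace hs hx
  have h2 := sq_sum_eq_one hx
  unfold Umat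
  simp only [Fin.sum_univ_three, if_true] at h1 ⊢
  linear_combination h1 - F x * h2

theorem Umat_contract {s F : E → ℝ} (v : Fin 3 → ℝ) {x : E}
    (hv : v 0 * x 0 + v 1 * x 1 + v 2 * x 2 = 0) :
    ∑ i, ∑ j, Umat s F i j x * v i * v j
      = (∑ i, ∑ j, hess s i j x * v i * v j) + F x * ∑ i, v i ^ 2 := by
  unfold Umat
  simp only [Fin.sum_univ_three, if_true, zero_ne_one, one_ne_zero, if_false, Fin.reduceEq]
  linear_combination (- F x * (v 0 * x 0 + v 1 * x 1 + v 2 * x 2)) * hv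

theorem Sm.umat {s F : E → ℝ} (hs : Sm s) (hF : Sm F) (i j : Fin 3) : Sm (Umat s F i j) :=
  (hs.hess i j).add (hF.mul ((sm_const _).sub ((sm_coord i).mul (sm_coord j))))

theorem Sm.detU {s F : E → ℝ} (hs : Sm s) (hF : Sm F) : Sm (detU s F) := by
  refine Sm.const_mul _ (Sm.sub ((hs.lap.add (hF.const_mul 2)).pow 2) ?_)
  exact Sm.sum fun i _ => Sm.sum fun j _ => (hs.umat hF i j).pow 2

/-! ## The test function -/

theorem core_error {η : E → ℝ} (hη : Sm η) (h0 : ∀ x ∈ SS, 0 < η x) {R : ℝ} (hR : 0 < R)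
    {x : E} (hx : x ∈ SS) :
    lap (fun y => -R * Real.log (η y)) x
      - gdot (fun y => -R * Real.log (η y)) (fun y => -R * Real.log (η y)) x / R
      = -R * (lap η x / η x) := by
  have hne : ∀ y ∈ SS, η y ≠ 0 := fun y hy => (h0 y hy).ne'
  have hlog : Sm fun y => Real.log (η y) := hη.log hne
  have h1 : lap (fun y => Real.log (η y)) x
      = (η x)⁻¹ * lap η x + (-(η x ^ 2)⁻¹) * gdot η η x := by
    refine lap_comp (φ := Real.log) (φ1 := fun y => y⁻¹) hη hx ?_ ?_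
    · filter_upwards [(isOpen_ne.mem_nhds (hne x hx))] with y hy
      exact Real.hasDerivAt_log hy
    · have := hasDerivAt_inv (hne x hx)
      convert this using 1
      
  have h2 : gdot (fun y => -R * Real.log (η y)) (fun y => -R * Real.log (η y)) x
      = R ^ 2 * (gdot η η x / η x ^ 2) := by
    unfold gdot
    simp only [Lop_const_mul (-R) hlog hx, Lop_log hη hx (hne x hx), Fin.sum_univ_three]
    have := hne x hx
    field_simp
  rw [lap_const_mul _ hlog hx, h1, h2]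
  have := hne x hx
  field_simp
  ring

/-- The core inequality from the master inequality. -/
theorem Core (hM : Master_Stmt) : Core_Stmt := by
  intro s F η z R hs hF hη hz hR h0 hpos hzx hUz
  have hne : ∀ y ∈ SS, η y ≠ 0 := fun y hy => (h0 y hy).ne'
  set a : E → ℝ := fun y => -R * Real.log (η y) with hadef
  have ha : Sm a := (hη.log hne).const_mul _
  set τ : E → ℝ := fun y => s y - F y with hτdef
  have hτ : Sm τ := hs.sub hF
  have hts : Sm fun x => lap s x + 2 * F x := hs.lap.add (hF.const_mul 2)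
  have hpos' : ∀ x ∈ SS, ∀ v : Fin 3 → ℝ, ∑ i, v i * x i = 0 →
      0 ≤ ∑ i, ∑ j, Umat s F i j x * v i * v j := by
    intro x hx v hv
    by_cases hv0 : v = 0
    · subst hv0; simp
    · exact (hpos x hx v hv hv0).le
  have htn : ∀ x ∈ SS, 0 ≤ lap s x + 2 * F x := by
    intro x hx
    have h1 := core_trace_nonneg (fun i j => Umat s F i j x) (fun i => x i) (sq_sum_eq_one hx)
      (fun i => Umat_mul_coord hs hx i) (hpos' x hx)
    rwa [Umat_trace hs hx] at h1
  have hmaster := hM s F a R hs hF ha hR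
  have hleft : 0 ≤ sint (fun x => (1 / 2) * (lap s x + 2 * F x) * (gdot a a x / R)) := by
    refine sint_nonneg fun x hx => ?_
    have := htn x hx
    have := gdot_self_nonneg a x
    positivity
  have herr : sint (fun x => (lap a x - gdot a a x / R - (lap s x + 2 * F x) / 2 + R) ^ 2)
      = sint (fun x => (R * (η x - lap η x) / η x - (lap s x + 2 * F x) / 2) ^ 2) := by
    refine sint_congr fun x hx => ?_
    have h1 := core_error hη h0 hR hx
    have h2 := hne x hx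
    have h3 : lap a x - gdot a a x / R - (lap s x + 2 * F x) / 2 + R
        = R * (η x - lap η x) / η x - (lap s x + 2 * F x) / 2 := by
      rw [hadef, h1]
      field_simp
      ring
    rw [h3]
  have hz2 : Sm fun x => ∑ i, z i x ^ 2 := Sm.sum fun i _ => (hz i).pow 2
  have hG : Sm fun x => (lap s x + 2 * F x) * ∑ i, z i x ^ 2 := hts.mul hz2
  have hhc : Sm fun x => ∑ i, ∑ j, hess s i j x * Lop i a x * Lop j a x :=
    Sm.sum fun i _ => Sm.sum fun j _ => ((hs.hess i j).mul (ha.lop i)).mul (ha.lop j)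
  have hFR : Sm fun x => (F x - R) ^ 2 := (hF.sub (sm_const R)).pow 2
  have hQ : Sm fun x => 2 * gdot a τ x
      - (1 / R) * ((∑ i, ∑ j, hess s i j x * Lop i a x * Lop j a x) + F x * gdot a a x)
      + (1 / 2) * gdot F F x - (F x - R) ^ 2 - (1 / 2) * gdot τ τ x :=
    (((((ha.gdot hτ).const_mul 2).sub ((hhc.add (hF.mul (ha.gdot ha))).const_mul _)).add
      ((hF.gdot hF).const_mul _)).sub hFR).sub ((hτ.gdot hτ).const_mul _)
  have hB : Sm fun x => R * ((lap s x + 2 * F x) * ∑ i, z i x ^ 2)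
      + (1 / 2) * gdot F F x - (F x - R) ^ 2 - (1 / 2) * gdot τ τ x :=
    (((hG.const_mul R).add ((hF.gdot hF).const_mul _)).sub hFR).sub ((hτ.gdot hτ).const_mul _)
  have hle : sint (fun x => 2 * gdot a τ x
      - (1 / R) * ((∑ i, ∑ j, hess s i j x * Lop i a x * Lop j a x) + F x * gdot a a x)
      + (1 / 2) * gdot F F x - (F x - R) ^ 2 - (1 / 2) * gdot τ τ x)
      ≤ sint (fun x => R * ((lap s x + 2 * F x) * ∑ i, z i x ^ 2)
      + (1 / 2) * gdot F F x - (F x - R) ^ 2 - (1 / 2) * gdot τ τ x) := by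
    refine sint_mono hQ hB fun x hx => ?_
    have ha0 : Lop 0 a x * x 0 + Lop 1 a x * x 1 + Lop 2 a x * x 2 = 0 := by
      linear_combination sum_coord_mul_Lop a x
    have hz0 : z 0 x * x 0 + z 1 x * x 1 + z 2 x * x 2 = 0 := by
      have := hzx x hx
      simpa only [Fin.sum_univ_three] using this
    have h1 := core_pointwise (fun i j => Umat s F i j x) (fun i => x i) (fun i => z i x)
      (fun i => Lop i a x) hR (sq_sum_eq_one hx) (fun i j => Umat_symm hs hx i j)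
      (fun i => Umat_mul_coord hs hx i) (hpos' x hx) hz0 ha0
    rw [Umat_trace hs hx, Umat_contract (fun i => Lop i a x) ha0] at h1
    have h2 : (∑ i, ∑ j, Umat s F i j x * Lop i a x * z j x) = gdot a τ x := by
      unfold gdot
      refine Finset.sum_congr rfl fun i _ => ?_
      rw [← hUz x hx i, Finset.mul_sum]
      refine Finset.sum_congr rfl fun j _ => ?_
      ring
    have h3 : (∑ i, Lop i a x ^ 2) = gdot a a x := by
      unfold gdot
      exact Finset.sum_congr rfl fun i _ => by ring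
    rw [h2, h3] at h1
    linarith
  have hsplit : sint (fun x => R * ((lap s x + 2 * F x) * ∑ i, z i x ^ 2)
      + (1 / 2) * gdot F F x - (F x - R) ^ 2 - (1 / 2) * gdot τ τ x)
      = R * sint (fun x => (lap s x + 2 * F x) * ∑ i, z i x ^ 2)
        + (1 / 2) * sint (gdot F F) - sint (fun x => F x ^ 2) + 2 * R * sint F
        - 4 * Real.pi * R ^ 2 - (1 / 2) * sint (gdot τ τ) := by
    have e1 : sint (fun x => (F x - R) ^ 2)
        = sint (fun x => F x ^ 2) - 2 * R * sint F + 4 * Real.pi * R ^ 2 := by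
      have : sint (fun x => (F x - R) ^ 2) = sint (fun x => (F x ^ 2 - (2 * R) * F x) + R ^ 2) :=
        sint_congr fun x _ => by ring
      rw [this, sint_add ((hF.pow 2).sub (hF.const_mul _)) (sm_const _),
        sint_sub (hF.pow 2) (hF.const_mul _), sint_const_mul, sint_const]
    rw [sint_sub (((hG.const_mul R).add ((hF.gdot hF).const_mul _)).sub hFR)
      ((hτ.gdot hτ).const_mul _), sint_sub ((hG.const_mul R).add ((hF.gdot hF).const_mul _)) hFR,
      sint_add (hG.const_mul R) ((hF.gdot hF).const_mul _), sint_const_mul, sint_const_mul,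
      sint_const_mul, e1]
    ring
  have hD : sint (fun x => F x ^ 2 - (1 / 2) * gdot F F x + (1 / 2) * gdot τ τ x)
      = sint (fun x => F x ^ 2) - (1 / 2) * sint (gdot F F) + (1 / 2) * sint (gdot τ τ) := by
    rw [sint_add ((hF.pow 2).sub ((hF.gdot hF).const_mul _)) ((hτ.gdot hτ).const_mul _),
      sint_sub (hF.pow 2) ((hF.gdot hF).const_mul _), sint_const_mul, sint_const_mul]
  rw [hD]
  set G := sint (fun x => (lap s x + 2 * F x) * ∑ i, z i x ^ 2)
  set D := sint (fun x => F x ^ 2) - (1 / 2) * sint (gdot F F) + (1 / 2) * sint (gdot τ τ) with hDd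
  set er := sint (fun x => (R * (η x - lap η x) / η x - (lap s x + 2 * F x) / 2) ^ 2)
  rw [herr] at hmaster
  have hkey : D ≤ 2 * R * (sint F + (1 / 2) * G) - 4 * Real.pi * R ^ 2 + er := by
    rw [hDd]
    linarith [hleft.trans hmaster, hle, hsplit]
  have hpi := Real.pi_pos
  nlinarith [mul_le_mul_of_nonneg_left hkey (by positivity : (0 : ℝ) ≤ 4 * Real.pi),
    sq_nonneg (sint F + (1 / 2) * G - 4 * Real.pi * R)]

end Pool.Agent.NullShell
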