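import Pool.Agent.NullShell.BasicA1

/-! # Integrals over the unit sphere -/

open MeasureTheory Filter Topology
open scoped ContDiff

namespace Pool.Agent.NullShell

variable {f g : E → ℝ}

theorem Sm.continuousOn (hf : Sm f) : ContinuousOn f SS :=
  fun x hx => (hf x hx).continuousAt.continuousWithinAt

theorem Sm.continuous_restrict (hf : Sm f) : Continuous (fun x : SS => f x) :=
  continuousOn_iff_continuous_domRestrict.1 hf.continuousOn

theorem integrable_of_continuous {F : SS → ℝ} (hF : Continuous F) : Integrable F sph :=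
  hF.integrable_of_hasCompactSupport (HasCompactSupport.of_compactSpace F)

theorem Sm.integrable (hf : Sm f) : Integrable (fun x : SS => f x) sph :=
  integrable_of_continuous hf.continuous_restrict

theorem sint_congr (h : ∀ x ∈ SS, f x = g x) : sint f = sint g := by
  unfold sint
  exact integral_congr_ae (Eventually.of_forall fun x => h x x.2)

theorem sint_add (hf : Sm f) (hg : Sm g) : sint (fun x => f x + g x) = sint f + sint g :=
  integral_add hf.integrable hg.integrable

theorem sint_sub (hf : Sm f) (hg : Sm g) : sint (fun x => f x - g x) = sint f - sint g :=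
  integral_sub hf.integrable hg.integrable

theorem sint_neg (f : E → ℝ) : sint (fun x => - f x) = - sint f := integral_neg _

theorem sint_const_mul (c : ℝ) (f : E → ℝ) : sint (fun x => c * f x) = c * sint f :=
  integral_const_mul c _

theorem sint_finset_sum {ι : Type*} {s : Finset ι} {F : ι → E → ℝ} (hF : ∀ a ∈ s, Sm (F a)) :
    sint (fun x => ∑ a ∈ s, F a x) = ∑ a ∈ s, sint (F a) :=
  integral_finsetSum s fun a ha => (hF a ha).integrable

theorem sint_mono (hf : Sm f) (hg : Sm g) (h : ∀ x ∈ SS, f x ≤ g x) : sint f ≤ sint g :=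
  integral_mono hf.integrable hg.integrable fun x => h x x.2

theorem sint_nonneg (h : ∀ x ∈ SS, 0 ≤ f x) : 0 ≤ sint f :=
  integral_nonneg fun x => h x x.2

theorem sint_const (c : ℝ) : sint (fun _ => c) = 4 * Real.pi * c := by
  unfold sint
  rw [integral_const, smul_eq_mul]
  congr 1
  rw [Measure.toSphere_real_apply_univ]
  simp only [finrank_euclideanSpace, Fintype.card_fin]
  have := EuclideanSpace.volume_ball_fin_three (0 : E) 1
  rw [Measure.real, this, ENNReal.toReal_mul, ENNReal.toReal_pow]
  rw [ENNReal.toReal_ofReal (by norm_num), ENNReal.toReal_ofReal (by positivity)]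
  push_cast
  ring

theorem sint_pos_of_pos (hf : Sm f) (h : ∀ x ∈ SS, 0 < f x) : 0 < sint f := by
  unfold sint
  have hne : Nonempty SS := (NormedSpace.sphere_nonempty.2 zero_le_one).to_subtype
  obtain ⟨x0⟩ := hne
  exact hf.continuous_restrict.integral_pos_of_hasCompactSupport_nonneg_nonzero
    (HasCompactSupport.of_compactSpace _) (fun x => (h x x.2).le) (x := x0) (h x0 x0.2).ne'

/-- A nonnegative function with vanishing integral vanishes. -/
theorem eq_zero_of_sint_eq_zero (hf : Sm f) (h : ∀ x ∈ SS, 0 ≤ f x) (h0 : sint f = 0) :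
    ∀ x ∈ SS, f x = 0 := by
  intro x hx
  by_contra hne
  have := hf.continuous_restrict.integral_pos_of_hasCompactSupport_nonneg_nonzero (μ := sph)
    (HasCompactSupport.of_compactSpace _) (fun y => h y y.2) (x := ⟨x, hx⟩) hne
  unfold sint at h0
  linarith

/-- Cauchy-Schwarz with a weight. -/
theorem sint_cauchy {w : E → ℝ} (hw : Sm w) (hw0 : ∀ x ∈ SS, 0 ≤ w x) (hf : Sm f) (hg : Sm g) :
    sint (fun x => w x * f x * g x) ^ 2
      ≤ sint (fun x => w x * f x ^ 2) * sint (fun x => w x * g x ^ 2) := by
  have h1 : ∀ t : ℝ, 0 ≤ sint (fun x => w x * g x ^ 2) * (t * t)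
      + (2 * sint (fun x => w x * f x * g x)) * t + sint (fun x => w x * f x ^ 2) := by
    intro t
    have e : sint (fun x => w x * g x ^ 2) * (t * t)
        + (2 * sint (fun x => w x * f x * g x)) * t + sint (fun x => w x * f x ^ 2)
        = sint (fun x => w x * (f x + t * g x) ^ 2) := by
      have e1 : sint (fun x => w x * (f x + t * g x) ^ 2)
          = sint (fun x => (t * t) * (w x * g x ^ 2) + ((2 * t) * (w x * f x * g x)
            + w x * f x ^ 2)) := by
        refine sint_congr fun x _ => ?_
        ring
      rw [e1, sint_add ((hw.mul (hg.pow 2)).const_mul _)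
        ((((hw.mul hf).mul hg).const_mul _).add (hw.mul (hf.pow 2))),
        sint_add (((hw.mul hf).mul hg).const_mul _) (hw.mul (hf.pow 2)),
        sint_const_mul, sint_const_mul]
      ring
    rw [e]
    exact sint_nonneg fun x hx => mul_nonneg (hw0 x hx) (sq_nonneg _)
  have h2 := discrim_le_zero h1
  unfold discrim at h2
  nlinarith [h2]

end Pool.Agent.NullShell
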