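import Pool.Agent.NullShell.Stmts

/-! # The Bochner formula and the Hessian contraction, integrated -/

open MeasureTheory Filter Topology
open scoped ContDiff

namespace Pool.Agent.NullShell

theorem Bochner : Bochner_Stmt := by
  intro f g hf hg
  have hL : ∀ (h : E → ℝ), Sm h → ∀ i j : Fin 3, Sm (Lop i (Lop j h)) :=
    fun h hh i j => (hh.lop j).lop i
  -- expand the Hessian product
  have h1 : sint (hdot f g)
      = (∑ i, ∑ j, sint (fun x => Lop i (Lop j f) x * Lop i (Lop j g) x)) - sint (gdot f g) := by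
    have h2 : (∑ i, ∑ j, sint (fun x => Lop i (Lop j f) x * Lop i (Lop j g) x))
        = sint (fun x => ∑ i, ∑ j, Lop i (Lop j f) x * Lop i (Lop j g) x) := by
      rw [sint_finset_sum fun i _ => Sm.sum fun j _ => (hL f hf i j).mul (hL g hg i j)]
      refine Finset.sum_congr rfl fun i _ => ?_
      rw [sint_finset_sum fun j _ => (hL f hf i j).mul (hL g hg i j)]
    rw [h2, ← sint_sub (Sm.sum fun i _ => Sm.sum fun j _ => (hL f hf i j).mul (hL g hg i j))
      (hf.gdot hg)]
    exact sint_congr fun x hx => hdot_eq hf hg hx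
  -- integrate by parts twice
  have h3 : ∀ j, ∑ i, sint (fun x => Lop i (Lop j f) x * Lop i (Lop j g) x)
      = sint (fun x => Lop j (Lop j f) x * lap g x) := by
    intro j
    have h4 : ∀ i, sint (fun x => Lop i (Lop j f) x * Lop i (Lop j g) x)
        = - sint (fun x => Lop j f x * Lop i (Lop i (Lop j g)) x) := fun i =>
      sint_Lop_mul (hf.lop j) (hL g hg i j) i
    rw [Finset.sum_congr rfl fun i _ => h4 i, Finset.sum_neg_distrib,
      ← sint_finset_sum fun i _ => (hf.lop j).mul ((hL g hg i j).lop i)]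
    rw [sint_Lop_mul (hf.lop j) hg.lap j]
    congr 1
    refine sint_congr fun x hx => ?_
    rw [← Finset.mul_sum, Lop_lap hg hx]
    rfl
  rw [h1, Finset.sum_comm, Finset.sum_congr rfl fun j _ => h3 j,
    ← sint_finset_sum fun j _ => (hL f hf j j).mul hg.lap]
  congr 1
  refine sint_congr fun x _ => ?_
  rw [← Finset.sum_mul]
  rfl

/-- `∑ i, L_i a L_i L_j a = ½ L_j |∇a|²`. -/
theorem Bochner_contract {a : E → ℝ} (ha : Sm a) {x : E} (hx : x ∈ SS) (j : Fin 3) :
    ∑ i, Lop i a x * Lop i (Lop j a) x = (1 / 2) * Lop j (gdot a a) x := by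
  have h1 : Lop j (gdot a a) x = ∑ i, 2 * (Lop i a x * Lop j (Lop i a) x) := by
    have : Lop j (gdot a a) x = ∑ i, Lop j (fun y => Lop i a y * Lop i a y) x :=
      Lop_sum (fun i _ => (ha.lop i).mul (ha.lop i)) hx
    rw [this]
    refine Finset.sum_congr rfl fun i _ => ?_
    rw [Lop_mul (ha.lop i) (ha.lop i) hx]; ring
  have c01 := Lop_comm01 ha hx
  have c12 := Lop_comm12 ha hx
  have c20 := Lop_comm20 ha hx
  rw [h1]
  simp only [Fin.sum_univ_three]
  fin_cases j
  · simp only [Fin.zero_eta]
    linear_combination (- Lop 1 a x) * c01 + (Lop 2 a x) * c20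
  · simp only [Fin.mk_one]
    linear_combination (Lop 0 a x) * c01 - (Lop 2 a x) * c12
  · simp only [Fin.reduceFinMk]
    linear_combination (- Lop 0 a x) * c20 + (Lop 1 a x) * c12

theorem HessContract : HessContract_Stmt := by
  intro s a hs ha
  have hL : ∀ (h : E → ℝ), Sm h → ∀ i j : Fin 3, Sm (Lop i (Lop j h)) :=
    fun h hh i j => (hh.lop j).lop i
  have hG : Sm (gdot a a) := ha.gdot ha
  have h1 : sint (fun x => ∑ i, ∑ j, hess s i j x * Lop i a x * Lop j a x)
      = ∑ i, ∑ j, sint (fun x => Lop i (Lop j s) x * (Lop i a x * Lop j a x)) := by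
    have h2 : (∑ i, ∑ j, sint (fun x => Lop i (Lop j s) x * (Lop i a x * Lop j a x)))
        = sint (fun x => ∑ i, ∑ j, Lop i (Lop j s) x * (Lop i a x * Lop j a x)) := by
      rw [sint_finset_sum fun i _ => Sm.sum fun j _ =>
        (hL s hs i j).mul ((ha.lop i).mul (ha.lop j))]
      refine Finset.sum_congr rfl fun i _ => ?_
      rw [sint_finset_sum fun j _ => (hL s hs i j).mul ((ha.lop i).mul (ha.lop j))]
    rw [h2]
    refine sint_congr fun x _ => ?_
    rw [hess_contract]
    exact Finset.sum_congr rfl fun i _ => Finset.sum_congr rfl fun j _ => by ring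
  have h3 : ∀ i j : Fin 3, sint (fun x => Lop i (Lop j s) x * (Lop i a x * Lop j a x))
      = - sint (fun x => Lop j s x * (Lop i a x * Lop i (Lop j a) x + Lop j a x * Lop i (Lop i a) x)) := by
    intro i j
    rw [sint_Lop_mul (hs.lop j) ((ha.lop i).mul (ha.lop j)) i]
    congr 1
    refine sint_congr fun x hx => ?_
    rw [Lop_mul (ha.lop i) (ha.lop j) hx]
  have hterm : ∀ i j : Fin 3, Sm (fun x => Lop j s x *
      (Lop i a x * Lop i (Lop j a) x + Lop j a x * Lop i (Lop i a) x)) := fun i j =>
    (hs.lop j).mul (((ha.lop i).mul (hL a ha i j)).add ((ha.lop j).mul (hL a ha i i)))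
  have h4 : ∑ i, ∑ j, sint (fun x => Lop i (Lop j s) x * (Lop i a x * Lop j a x))
      = - sint (fun x => lap a x * gdot s a x + (1 / 2) * gdot (gdot a a) s x) := by
    rw [Finset.sum_congr rfl fun i _ => Finset.sum_congr rfl fun j _ => h3 i j]
    simp only [Finset.sum_neg_distrib]
    congr 1
    rw [Finset.sum_congr rfl fun i _ => (sint_finset_sum fun j _ => hterm i j).symm,
      ← sint_finset_sum fun i _ => Sm.sum fun j _ => hterm i j]
    refine sint_congr fun x hx => ?_
    rw [Finset.sum_comm]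
    have h5 : ∀ j : Fin 3, ∑ i, Lop j s x *
        (Lop i a x * Lop i (Lop j a) x + Lop j a x * Lop i (Lop i a) x)
        = Lop j s x * ((1 / 2) * Lop j (gdot a a) x) + Lop j s x * (Lop j a x * lap a x) := by
      intro j
      rw [← Finset.mul_sum, Finset.sum_add_distrib, Bochner_contract ha hx j, ← Finset.mul_sum,
        mul_add]
      rfl
    rw [Finset.sum_congr rfl fun j _ => h5 j, Finset.sum_add_distrib]
    have e1 : ∑ j, Lop j s x * ((1 / 2) * Lop j (gdot a a) x)
        = (1 / 2) * gdot (gdot a a) s x := by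
      unfold gdot
      rw [Finset.mul_sum]
      exact Finset.sum_congr rfl fun j _ => by ring
    have e2 : ∑ j, Lop j s x * (Lop j a x * lap a x) = lap a x * gdot s a x := by
      unfold gdot
      rw [Finset.mul_sum]
      exact Finset.sum_congr rfl fun j _ => by ring
    rw [e1, e2]; ring
  have h6 : sint (fun x => lap s x * gdot a a x) = - sint (gdot (gdot a a) s) := by
    rw [← sint_green hG hs]
    exact sint_congr fun x _ => by ring
  rw [h1, h4, h6, sint_add (ha.lap.mul (hs.gdot ha)) ((hG.gdot hs).const_mul _),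
    sint_const_mul]
  ring

end Pool.Agent.NullShell
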