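import Pool.Agent.NullShell.Stmts

/-! # The sum of squares identity -/

open MeasureTheory Filter Topology
open scoped ContDiff

namespace Pool.Agent.NullShell

theorem master_alg (H K : Fin 3 → Fin 3 → ℝ) (v : Fin 3 → ℝ) (c : ℝ) :
    ∑ i, ∑ j, (2 * H i j - K i j + c * (v i * v j)) ^ 2
      = 4 * (∑ i, ∑ j, H i j * H i j) + (∑ i, ∑ j, K i j * K i j) + c ^ 2 * (∑ i, v i * v i) ^ 2
        - 4 * (∑ i, ∑ j, H i j * K i j) + 4 * c * (∑ i, ∑ j, H i j * v i * v j)
        - 2 * c * (∑ i, ∑ j, K i j * v i * v j) := by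
  simp only [Fin.sum_univ_three]
  ring

theorem master_alg2 (C : Fin 3 → Fin 3 → ℝ) (x : Fin 3 → ℝ)
    (hx : x 0 ^ 2 + x 1 ^ 2 + x 2 ^ 2 = 1)
    (hC : ∑ i, (∑ j, C i j * x j) * x i = 0) :
    (1 / 2) * (∑ i, C i i) ^ 2 ≤ ∑ i, ∑ j, C i j ^ 2 := by
  have h0 : 0 ≤ ∑ i, ∑ j, (C i j - (∑ k, C k k) / 2 * ((if i = j then 1 else 0) - x i * x j)) ^ 2 :=
    Finset.sum_nonneg fun i _ => Finset.sum_nonneg fun j _ => sq_nonneg _
  have h1 : ∑ i, ∑ j, (C i j - (∑ k, C k k) / 2 * ((if i = j then 1 else 0) - x i * x j)) ^ 2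
      = ∑ i, ∑ j, C i j ^ 2 - (1 / 2) * (∑ i, C i i) ^ 2 := by
    simp only [Fin.sum_univ_three] at hC ⊢
    simp only [if_true, Fin.reduceEq, if_false, Fin.isValue]
    have hne01 : (0 : Fin 3) ≠ 1 := by decide
    have hne02 : (0 : Fin 3) ≠ 2 := by decide
    have hne12 : (1 : Fin 3) ≠ 2 := by decide
    linear_combination (C 0 0 + C 1 1 + C 2 2) * hC
      + ((C 0 0 + C 1 1 + C 2 2) ^ 2 / 4) * (x 0 ^ 2 + x 1 ^ 2 + x 2 ^ 2 - 1) * hx
  linarith

theorem master_gdot_sub_right {a s F : E → ℝ} (hs : Sm s) (hF : Sm F) {x : E} (hx : x ∈ SS) :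
    gdot a (fun y => s y - F y) x = gdot a s x - gdot a F x := by
  unfold gdot
  rw [← Finset.sum_sub_distrib]
  refine Finset.sum_congr rfl fun i _ => ?_
  rw [Lop_sub hs hF hx]
  ring

theorem Master (hB : Bochner_Stmt) (hH : HessContract_Stmt) : Master_Stmt := by
  intro s F a R hs hF ha hR
  have hR0 : R ≠ 0 := hR.ne'
  set c : ℝ := 1 / R with hc
  have hcR : c * R = 1 := by rw [hc]; field_simp
  -- smoothness
  have hG := ha.gdot ha
  have hla := ha.lap
  have hls := hs.lap
  have hhaa := ha.hdot ha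
  have hhss := hs.hdot hs
  have hhas := ha.hdot hs
  have hGs := hs.gdot hs
  have hgas := ha.gdot hs
  have hgFa := hF.gdot ha
  have hgFs := hF.gdot hs
  have hτ : Sm (fun y => s y - F y) := hs.sub hF
  have hHA : Sm (fun x => ∑ i, ∑ j, hess a i j x * Lop i a x * Lop j a x) :=
    Sm.sum fun i _ => Sm.sum fun j _ => ((ha.hess i j).mul (ha.lop i)).mul (ha.lop j)
  have hHS : Sm (fun x => ∑ i, ∑ j, hess s i j x * Lop i a x * Lop j a x) :=
    Sm.sum fun i _ => Sm.sum fun j _ => ((hs.hess i j).mul (ha.lop i)).mul (ha.lop j)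
  -- the functions with vanishing integral
  set z1 : E → ℝ := fun x => lap a x * lap a x - gdot a a x - hdot a a x with hz1
  set z2 : E → ℝ := fun x => lap s x * lap s x - gdot s s x - hdot s s x with hz2
  set z3 : E → ℝ := fun x => lap a x * lap s x - gdot a s x - hdot a s x with hz3
  set z4 : E → ℝ := fun x => lap a x * gdot a a x
    + 2 * (∑ i, ∑ j, hess a i j x * Lop i a x * Lop j a x) with hz4
  set z5 : E → ℝ := fun x => (F x * lap a x - R * lap a x) + gdot F a x with hz5
  set z6 : E → ℝ := fun x => (F x * lap s x - R * lap s x) + gdot F s x with hz6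
  have sz1 : Sm z1 := ((hla.mul hla).sub hG).sub hhaa
  have sz2 : Sm z2 := ((hls.mul hls).sub hGs).sub hhss
  have sz3 : Sm z3 := ((hla.mul hls).sub hgas).sub hhas
  have sz4 : Sm z4 := (hla.mul hG).add (hHA.const_mul 2)
  have sz5 : Sm z5 := ((hF.mul hla).sub (hla.const_mul R)).add hgFa
  have sz6 : Sm z6 := ((hF.mul hls).sub (hls.const_mul R)).add hgFs
  have iz1 : sint z1 = 0 := by
    have h1 : sint z1 = sint (fun x => lap a x * lap a x - gdot a a x) - sint (hdot a a) :=
      sint_sub ((hla.mul hla).sub hG) hhaa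
    rw [h1, sint_sub (hla.mul hla) hG, hB a a ha ha]
    ring
  have iz2 : sint z2 = 0 := by
    have h1 : sint z2 = sint (fun x => lap s x * lap s x - gdot s s x) - sint (hdot s s) :=
      sint_sub ((hls.mul hls).sub hGs) hhss
    rw [h1, sint_sub (hls.mul hls) hGs, hB s s hs hs]
    ring
  have iz3 : sint z3 = 0 := by
    have h1 : sint z3 = sint (fun x => lap a x * lap s x - gdot a s x) - sint (hdot a s) :=
      sint_sub ((hla.mul hls).sub hgas) hhas
    rw [h1, sint_sub (hla.mul hls) hgas, hB a s ha hs]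
    ring
  have iz4 : sint z4 = 0 := by
    have h1 : sint z4 = sint (fun x => lap a x * gdot a a x)
        + sint (fun x => 2 * (∑ i, ∑ j, hess a i j x * Lop i a x * Lop j a x)) :=
      sint_add (hla.mul hG) (hHA.const_mul 2)
    rw [h1, sint_const_mul, hH a a ha ha]
    ring
  have iz56 : ∀ g : E → ℝ, Sm g →
      sint (fun x => (F x * lap g x - R * lap g x) + gdot F g x) = 0 := by
    intro g hg
    rw [sint_add ((hF.mul hg.lap).sub (hg.lap.const_mul R)) (hF.gdot hg),
      sint_sub (hF.mul hg.lap) (hg.lap.const_mul R), sint_const_mul, sint_lap hg,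
      sint_green hF hg]
    ring
  have iz5 : sint z5 = 0 := iz56 a ha
  have iz6 : sint z6 = 0 := iz56 s hs
  set Z : E → ℝ := fun x => ((((2 * z1 x + (1 / 2) * z2 x) + (-2) * z3 x) + (-c) * z4 x)
    + (-2) * z5 x) + 1 * z6 x with hZ
  have sZ : Sm Z := (((((sz1.const_mul 2).add (sz2.const_mul (1 / 2))).add
    (sz3.const_mul (-2))).add (sz4.const_mul (-c))).add (sz5.const_mul (-2))).add
    (sz6.const_mul 1)
  have iZ : sint Z = 0 := by
    rw [hZ, sint_add (((((sz1.const_mul 2).add (sz2.const_mul (1 / 2))).add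
      (sz3.const_mul (-2))).add (sz4.const_mul (-c))).add (sz5.const_mul (-2)))
      (sz6.const_mul 1),
      sint_add ((((sz1.const_mul 2).add (sz2.const_mul (1 / 2))).add
        (sz3.const_mul (-2))).add (sz4.const_mul (-c))) (sz5.const_mul (-2)),
      sint_add (((sz1.const_mul 2).add (sz2.const_mul (1 / 2))).add
        (sz3.const_mul (-2))) (sz4.const_mul (-c)),
      sint_add ((sz1.const_mul 2).add (sz2.const_mul (1 / 2))) (sz3.const_mul (-2)),
      sint_add (sz1.const_mul 2) (sz2.const_mul (1 / 2)),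
      sint_const_mul, sint_const_mul, sint_const_mul, sint_const_mul, sint_const_mul,
      sint_const_mul, iz1, iz2, iz3, iz4, iz5, iz6]
    ring
  -- the two sides
  set L : E → ℝ := fun x => (1 / 2) * (lap s x + 2 * F x) * (gdot a a x / R) with hL
  set e2 : E → ℝ := fun x => (lap a x - gdot a a x / R - (lap s x + 2 * F x) / 2 + R) ^ 2 with he2
  set Q : E → ℝ := fun x => 2 * gdot a (fun y => s y - F y) x
          - (1 / R) * ((∑ i, ∑ j, hess s i j x * Lop i a x * Lop j a x) + F x * gdot a a x)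
          + (1 / 2) * gdot F F x - (F x - R) ^ 2
          - (1 / 2) * gdot (fun y => s y - F y) (fun y => s y - F y) x with hQ
  have sGR : Sm (fun x => gdot a a x / R) := hG.div (sm_const R) fun _ _ => hR0
  have st : Sm (fun x => lap s x + 2 * F x) := hls.add (hF.const_mul 2)
  have sL : Sm L := (st.const_mul (1 / 2)).mul sGR
  have se2 : Sm e2 := (((hla.sub sGR).sub (st.div (sm_const 2) fun _ _ => two_ne_zero)).add
    (sm_const R)).pow 2
  have sQ : Sm Q := (((((ha.gdot hτ).const_mul 2).sub ((hHS.add (hF.mul hG)).const_mul (1 / R))).add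
    ((hF.gdot hF).const_mul (1 / 2))).sub ((hF.sub (sm_const R)).pow 2)).sub
    ((hτ.gdot hτ).const_mul (1 / 2))
  have sLZ : Sm (fun x => e2 x + Q x + (-1) * Z x) := (se2.add sQ).add (sZ.const_mul (-1))
  have key : ∀ x ∈ SS, L x ≤ e2 x + Q x + (-1) * Z x := by
    intro x hx
    have h1 := master_alg (fun i j => hess a i j x) (fun i j => hess s i j x)
      (fun i => Lop i a x) c
    have h2 := master_alg2 (fun i j => 2 * hess a i j x - hess s i j x
      + c * (Lop i a x * Lop j a x)) (fun i => x i) (mem_SS_iff.1 hx) (by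
        have e1 : ∀ i : Fin 3, ∑ j, (2 * hess a i j x - hess s i j x
            + c * (Lop i a x * Lop j a x)) * x j = 0 := by
          intro i
          have e2 : ∑ j, (2 * hess a i j x - hess s i j x
            + c * (Lop i a x * Lop j a x)) * x j = 2 * (∑ j, hess a i j x * x j)
              - (∑ j, hess s i j x * x j) + c * Lop i a x * (x 0 * Lop 0 a x + x 1 * Lop 1 a x
                + x 2 * Lop 2 a x) := by
            simp only [Fin.sum_univ_three]
            ring
          rw [e2, hess_mul_coord ha hx, hess_mul_coord hs hx, sum_coord_mul_Lop]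
          ring
        simp only [e1, zero_mul, Finset.sum_const_zero])
    have h3 : ∑ i, (2 * hess a i i x - hess s i i x + c * (Lop i a x * Lop i a x))
        = 2 * lap a x - lap s x + c * gdot a a x := by
      rw [← hess_trace ha hx, ← hess_trace hs hx]
      simp only [gdot, Fin.sum_univ_three]
      ring
    rw [h1, h3] at h2
    have e3 : ∑ i, ∑ j, hess a i j x * hess a i j x = hdot a a x := rfl
    have e4 : ∑ i, ∑ j, hess s i j x * hess s i j x = hdot s s x := rfl
    have e5 : ∑ i, ∑ j, hess a i j x * hess s i j x = hdot a s x := rfl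
    have e6 : ∑ i, Lop i a x * Lop i a x = gdot a a x := rfl
    rw [e3, e4, e5, e6] at h2
    have e7 : gdot a (fun y => s y - F y) x = gdot a s x - gdot F a x := by
      rw [master_gdot_sub_right hs hF hx, gdot_comm F a]
    have e8 : gdot (fun y => s y - F y) (fun y => s y - F y) x
        = gdot s s x - 2 * gdot F s x + gdot F F x := by
      rw [master_gdot_sub_right hs hF hx, gdot_comm (fun y => s y - F y) s,
        gdot_comm (fun y => s y - F y) F, master_gdot_sub_right hs hF hx,
        master_gdot_sub_right hs hF hx, gdot_comm s F]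
      ring
    have e9 : gdot a a x / R = c * gdot a a x := by rw [hc]; ring
    simp only [hL, he2, hQ, hZ, hz1, hz2, hz3, hz4, hz5, hz6]
    rw [e7, e8, e9, ← hc]
    generalize hess_sum_a : (∑ i, ∑ j, hess a i j x * Lop i a x * Lop j a x) = HA at h2 ⊢
    generalize hess_sum_s : (∑ i, ∑ j, hess s i j x * Lop i a x * Lop j a x) = HS at h2 ⊢
    generalize lap a x = la at h2 ⊢
    generalize lap s x = ls at h2 ⊢
    generalize gdot a a x = G at h2 ⊢
    generalize gdot a s x = gas at h2 ⊢
    generalize gdot s s x = Gs at h2 ⊢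
    generalize gdot F s x = gFs at h2 ⊢
    generalize gdot F a x = gFa at h2 ⊢
    generalize gdot F F x = GF at h2 ⊢
    generalize hdot a a x = haa at h2 ⊢
    generalize hdot s s x = hss at h2 ⊢
    generalize hdot a s x = has at h2 ⊢
    generalize F x = f at h2 ⊢
    have hA : 0 ≤ (c * G) ^ 2 := sq_nonneg _
    have hfin : (la - c * G - (ls + 2 * f) / 2 + R) ^ 2
        + (2 * (gas - gFa) - c * (HS + f * G) + 1 / 2 * GF - (f - R) ^ 2
          - 1 / 2 * (Gs - 2 * gFs + GF))
        + (-1) * (2 * (la * la - G - haa) + 1 / 2 * (ls * ls - Gs - hss)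
          + -2 * (la * ls - gas - has) + -c * (la * G + 2 * HA)
          + -2 * (f * la - R * la + gFa) + 1 * (f * ls - R * ls + gFs))
        - 1 / 2 * (ls + 2 * f) * (c * G)
        = 1 / 2 * ((4 * haa + hss + c ^ 2 * G ^ 2 - 4 * has + 4 * c * HA - 2 * c * HS)
            - 1 / 2 * (2 * la - ls + c * G) ^ 2) + 3 / 4 * (c * G) ^ 2 := by
      linear_combination (-2 * G) * hcR
    linarith
  have h1 := sint_mono sL sLZ key
  rw [sint_add (se2.add sQ) (sZ.const_mul (-1)), sint_const_mul, iZ, sint_add se2 sQ] at h1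
  linarith

end Pool.Agent.NullShell
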