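import Pool.Agent.NullShell.BasicB2

/-! # Statements of the modules -/

open MeasureTheory Filter Topology
open scoped ContDiff

namespace Pool.Agent.NullShell

/-- `U = ∇²s + F g` in the rotation frame. -/
noncomputable def Umat (s F : E → ℝ) (i j : Fin 3) (x : E) : ℝ :=
  hess s i j x + F x * ((if i = j then 1 else 0) - x i * x j)

/-- `det U = ((tr U)² - |U|²) / 2` with `tr U = Δ s + 2 F`. -/
noncomputable def detU (s F : E → ℝ) (x : E) : ℝ :=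
  (1 / 2) * ((lap s x + 2 * F x) ^ 2 - ∑ i, ∑ j, Umat s F i j x ^ 2)

/-! ## B: Bochner -/

/-- Bochner formula, integrated. -/
def Bochner_Stmt : Prop := ∀ f g : E → ℝ, Sm f → Sm g →
  sint (hdot f g) = sint (fun x => lap f x * lap g x) - sint (gdot f g)

/-- `∫ ∇²s(∇a, ∇a) = - ∫ Δa ⟨∇s, ∇a⟩ + ½ ∫ Δs |∇a|²`. -/
def HessContract_Stmt : Prop := ∀ s a : E → ℝ, Sm s → Sm a →
  sint (fun x => ∑ i, ∑ j, hess s i j x * Lop i a x * Lop j a x)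
    = - sint (fun x => lap a x * gdot s a x) + (1 / 2) * sint (fun x => lap s x * gdot a a x)

/-! ## C: the master inequality -/

/-- The master inequality: completing squares after integrating by parts. -/
def Master_Stmt : Prop := ∀ (s F a : E → ℝ) (R : ℝ), Sm s → Sm F → Sm a → 0 < R →
  sint (fun x => (1 / 2) * (lap s x + 2 * F x) * (gdot a a x / R))
    ≤ sint (fun x => (lap a x - gdot a a x / R - (lap s x + 2 * F x) / 2 + R) ^ 2)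
      + sint (fun x => 2 * gdot a (fun y => s y - F y) x
          - (1 / R) * ((∑ i, ∑ j, hess s i j x * Lop i a x * Lop j a x) + F x * gdot a a x)
          + (1 / 2) * gdot F F x - (F x - R) ^ 2
          - (1 / 2) * gdot (fun y => s y - F y) (fun y => s y - F y) x)

/-- The core inequality with an error term, for any positive test function `η` and `R > 0`. -/
def Core_Stmt : Prop := ∀ (s F η : E → ℝ) (z : Fin 3 → E → ℝ) (R : ℝ),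
  Sm s → Sm F → Sm η → (∀ i, Sm (z i)) → 0 < R → (∀ x ∈ SS, 0 < η x) →
  (∀ x ∈ SS, ∀ v : Fin 3 → ℝ, ∑ i, v i * x i = 0 → v ≠ 0 →
    0 < ∑ i, ∑ j, Umat s F i j x * v i * v j) →
  (∀ x ∈ SS, ∑ i, z i x * x i = 0) →
  (∀ x ∈ SS, ∀ i, ∑ j, Umat s F i j x * z j x = Lop i (fun y => s y - F y) x) →
  4 * Real.pi * sint (fun x => F x ^ 2 - (1 / 2) * gdot F F x
      + (1 / 2) * gdot (fun y => s y - F y) (fun y => s y - F y) x)
    ≤ (sint F + (1 / 2) * sint (fun x => (lap s x + 2 * F x) * ∑ i, z i x ^ 2)) ^ 2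
      + 4 * Real.pi *
        sint (fun x => (R * (η x - lap η x) / η x - (lap s x + 2 * F x) / 2) ^ 2)

/-! ## D: polynomials and the operator `1 - Δ` -/

/-- `u - Δu = h` is solvable in polynomials. -/
def Solve_Stmt : Prop := ∀ h : E → ℝ, IsPoly h →
  ∃ u : E → ℝ, IsPoly u ∧ ∀ x ∈ SS, u x - lap u x = h x

/-- The maximum principle. -/
def MaxPrinciple_Stmt : Prop := ∀ u : E → ℝ, Sm u → (∀ x ∈ SS, 0 ≤ u x - lap u x) →
  ∀ x ∈ SS, 0 ≤ u x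

/-- Density of polynomials. -/
def Dense_Stmt : Prop := ∀ f : E → ℝ, ContinuousOn f SS → ∀ δ : ℝ, 0 < δ →
  ∃ p : E → ℝ, IsPoly p ∧ ∀ x ∈ SS, |p x - f x| ≤ δ

/-- The function `(1 - ⟨x, p⟩) / 2`. -/
noncomputable def rhoP (p x : E) : ℝ := (1 - inner ℝ x p) / 2

/-- `L_ε = - log ((ρ + ε) / (1 + ε))`. -/
noncomputable def Lker (p : E) (ε : ℝ) (x : E) : ℝ := - Real.log ((rhoP p x + ε) / (1 + ε))

/-- `P_ε = ε (1 + ε) / (ρ + ε)²`. -/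
noncomputable def Pker (p : E) (ε : ℝ) (x : E) : ℝ := ε * (1 + ε) / (rhoP p x + ε) ^ 2

/-- Basic facts on the kernels: smoothness, `Δ L_ε = 1 - P_ε`, the gradient and the Laplacian of
`ρ`, and `∫ P_ε = 4 π`. -/
def Kernel_Stmt : Prop := ∀ p ∈ SS, Sm (rhoP p) ∧ (∀ x ∈ SS, 0 ≤ rhoP p x ∧ rhoP p x ≤ 1) ∧
  (∀ x ∈ SS, lap (rhoP p) x = 1 - 2 * rhoP p x) ∧
  (∀ x ∈ SS, gdot (rhoP p) (rhoP p) x = rhoP p x * (1 - rhoP p x)) ∧
  ∀ ε : ℝ, 0 < ε → Sm (Lker p ε) ∧ Sm (Pker p ε) ∧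
    (∀ x ∈ SS, lap (Lker p ε) x = 1 - Pker p ε x) ∧ (∀ x ∈ SS, 0 ≤ Lker p ε x) ∧
    sint (Pker p ε) = 4 * Real.pi

/-- `P_ε` is an approximate identity. -/
def ApproxId_Stmt : Prop := ∀ p ∈ SS, ∀ u : E → ℝ, Sm u →
  Tendsto (fun ε => sint (fun x => u x * Pker p ε x)) (𝓝[>] (0 : ℝ)) (𝓝 (4 * Real.pi * u p))

/-- Harnack inequality. -/
def Harnack_Stmt : Prop := ∃ c : ℝ, 0 < c ∧ ∀ u : E → ℝ, Sm u → (∀ x ∈ SS, 0 ≤ u x) →
  (∀ x ∈ SS, 0 ≤ u x - lap u x) → ∀ p ∈ SS, c * sint u ≤ u p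

/-- Supremum bound. -/
def SupBound_Stmt : Prop := ∃ C : ℝ, 0 < C ∧ ∀ u : E → ℝ, Sm u → (∀ x ∈ SS, 0 ≤ u x) →
  ∀ p ∈ SS, u p ≤ C * Real.sqrt (sint (fun x => (u x - lap u x) ^ 2))

/-- Approximate principal eigenfunctions. -/
def Approx_Stmt : Prop := ∀ t : E → ℝ, Sm t → (∀ x ∈ SS, 0 < t x) → ∀ δ : ℝ, 0 < δ →
  ∃ (η : E → ℝ) (R : ℝ), Sm η ∧ (∀ x ∈ SS, 0 < η x) ∧ 0 < R ∧
    sint (fun x => (R * (η x - lap η x) / η x - t x / 2) ^ 2) ≤ δ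

/-- The main inequality for the two functions on the sphere. -/
def Ineq_Stmt : Prop := ∀ (s F : E → ℝ) (z : Fin 3 → E → ℝ),
  Sm s → Sm F → (∀ i, Sm (z i)) →
  (∀ x ∈ SS, ∀ v : Fin 3 → ℝ, ∑ i, v i * x i = 0 → v ≠ 0 →
    0 < ∑ i, ∑ j, Umat s F i j x * v i * v j) →
  (∀ x ∈ SS, ∑ i, z i x * x i = 0) →
  (∀ x ∈ SS, ∀ i, ∑ j, Umat s F i j x * z j x = Lop i (fun y => s y - F y) x) →
  4 * Real.pi * sint (detU s F)
    ≤ (sint F + (1 / 2) * sint (fun x => (lap s x + 2 * F x) * ∑ i, z i x ^ 2)) ^ 2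

/-! ## G: geometry -/

/-- The Minkowski support function `s = τ + ⟨Y, x⟩` of the surface `X = (τ, Y)`. -/
noncomputable def sFun (X : E → Mink) (x : E) : ℝ := (X x).1 + inner ℝ (X x).2 x

/-- `F = ⟨Y, x⟩`. -/
noncomputable def FFun (X : E → Mink) (x : E) : ℝ := inner ℝ (X x).2 x

/-- `z_i = ⟨ℓ⃗, e_i × x⟩ / 2`. -/
noncomputable def zFun (ℓ : E → Mink) (i : Fin 3) (x : E) : ℝ := inner ℝ (ℓ x).2 (rot i x) / 2

/-- The matrix `U` is the spatial part of the differential of the surface. -/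
def GeomU_Stmt : Prop := ∀ X : E → Mink, IsSurface X →
  Sm (sFun X) ∧ Sm (FFun X) ∧
  (∀ x ∈ SS, ∀ i j, Umat (sFun X) (FFun X) i j x
    = inner ℝ (fderiv ℝ (fun y => (X y).2) x (rot i x)) (rot j x)) ∧
  (∀ x ∈ SS, ∀ v : Fin 3 → ℝ, ∑ i, v i * x i = 0 → v ≠ 0 →
    0 < ∑ i, ∑ j, Umat (sFun X) (FFun X) i j x * v i * v j)

/-- The outgoing null normal in terms of `z`. -/
def GeomZ_Stmt : Prop := ∀ X ℓ : E → Mink, IsSurface X → IsOuterNormal X ℓ →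
  (∀ i, Sm (zFun ℓ i)) ∧ (∀ x ∈ SS, ∑ i, zFun ℓ i x * x i = 0) ∧
  (∀ x ∈ SS, (ℓ x).1 = 1 + ∑ i, zFun ℓ i x ^ 2) ∧
  (∀ x ∈ SS, inner ℝ (ℓ x).2 x = 1 - ∑ i, zFun ℓ i x ^ 2) ∧
  (∀ x ∈ SS, ∀ i, ∑ j, Umat (sFun X) (FFun X) i j x * zFun ℓ j x
    = Lop i (fun y => sFun X y - FFun X y) x)

/-- The area element is `det U`. -/
def GeomArea_Stmt : Prop := ∀ (X : E → Mink) (e₁ e₂ : E → E), IsSurface X → IsTangentFrame e₁ e₂ →
  ∀ x ∈ SS, 0 < detU (sFun X) (FFun X) x ∧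
    areaElement X e₁ e₂ x = detU (sFun X) (FFun X) x ∧
    firstForm X x (e₁ x) (e₁ x) * firstForm X x (e₂ x) (e₂ x)
      - firstForm X x (e₁ x) (e₂ x) ^ 2 = detU (sFun X) (FFun X) x ^ 2

/-- The expansion times the area element is
`(1 + |z|²) tr U + 2 div ((tr U) z - U z)`. -/
def GeomExp_Stmt : Prop := ∀ (X ℓ : E → Mink) (e₁ e₂ : E → E), IsSurface X →
  IsOuterNormal X ℓ → IsTangentFrame e₁ e₂ → ∀ x ∈ SS,
  expansion X ℓ e₁ e₂ x * areaElement X e₁ e₂ x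
    = (1 + ∑ i, zFun ℓ i x ^ 2) * (lap (sFun X) x + 2 * FFun X x)
      + 2 * ((∑ i, Lop i (fun y => (lap (sFun X) y + 2 * FFun X y) * zFun ℓ i y) x)
        - lap (fun y => sFun X y - FFun X y) x)

/-- The final theorem. -/
def Final_Stmt : Prop := ∀ (X ℓ : E → Mink) (e₁ e₂ : E → E), IsSurface X →
  IsOuterNormal X ℓ → IsTangentFrame e₁ e₂ → ∀ ε : E → ℝ,
  Integrable (fun x : SS => ε x * areaElement X e₁ e₂ x) sph →
  (∀ x ∈ SS, expansion X ℓ e₁ e₂ x - 16 * Real.pi * ε x ≤ 0) →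
  Real.sqrt (area X e₁ e₂ / (16 * Real.pi)) ≤ shellEnergy X e₁ e₂ ε

end Pool.Agent.NullShell
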