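import Pool.Agent.NullShell.Stmts
import Pool.Agent.Lib_helper58.Ground.Ground

/-! # Approximate principal eigenfunctions -/

open MeasureTheory Filter Topology MvPolynomial
open scoped ContDiff

namespace Pool.Agent.NullShell

open Pool.Agent.Lib_helper58.Ground (P3 ev ev_add ev_sub ev_mul ev_X contDiff_ev pd_ev)

/-- The rotation fields on polynomials. -/
noncomputable def Approx_rotP (i : Fin 3) (p : P3) : P3 :=
  match i with
  | 0 => X 1 * pderiv 2 p - X 2 * pderiv 1 p
  | 1 => X 2 * pderiv 0 p - X 0 * pderiv 2 p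
  | 2 => X 0 * pderiv 1 p - X 1 * pderiv 0 p

theorem Approx_Lop_ev (i : Fin 3) (p : P3) (x : E) : Lop i (ev p) x = ev (Approx_rotP i p) x := by
  have hpd : ∀ j : Fin 3, fderiv ℝ (ev p) x (EuclideanSpace.single j 1) = ev (pderiv j p) x :=
    fun j => pd_ev p j x
  have hrot : rot i x = rot i x 0 • EuclideanSpace.single 0 (1 : ℝ)
      + rot i x 1 • EuclideanSpace.single 1 (1 : ℝ) + rot i x 2 • EuclideanSpace.single 2 (1 : ℝ) := by
    ext j
    fin_cases j <;> simp
  unfold Lop
  rw [hrot, map_add, map_add, map_smul, map_smul, map_smul, hpd, hpd, hpd]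
  fin_cases i <;> simp [rot, Approx_rotP] <;> ring

theorem Approx_sum_rotP (p : P3) : ∑ i, Approx_rotP i (Approx_rotP i p)
    = Lib_helper58.Ground.r2 * Lib_helper58.Ground.lap p
      - Lib_helper58.Ground.euler (Lib_helper58.Ground.euler p) - Lib_helper58.Ground.euler p := by
  simp only [Fin.sum_univ_three, Approx_rotP, Lib_helper58.Ground.r2,
    Lib_helper58.Ground.lap_apply, Lib_helper58.Ground.euler_apply, map_add, map_sub,
    Derivation.leibniz, pderiv_X, smul_eq_mul]
  simp
  ring

theorem Approx_lap_ev (p : P3) {x : E} (hx : x ∈ SS) :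
    ev p x - lap (ev p) x = ev (Lib_helper58.Ground.T p) x := by
  have h1 : ∀ i : Fin 3, Lop i (ev p) = ev (Approx_rotP i p) := fun i =>
    funext fun y => Approx_Lop_ev i p y
  have h2 : lap (ev p) x = ev (∑ i, Approx_rotP i (Approx_rotP i p)) x := by
    unfold lap
    rw [Lib_helper58.Ground.ev_sum]
    exact Finset.sum_congr rfl fun i _ => by rw [h1 i, Approx_Lop_ev]
  have hn : ‖x‖ = 1 := by simpa using hx
  rw [h2, Approx_sum_rotP, Lib_helper58.Ground.T_apply]
  simp only [ev_add, ev_sub, ev_mul, Lib_helper58.Ground.ev_r2, hn]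
  ring

/-- Approximate principal eigenfunctions exist. -/
theorem Approx : Approx_Stmt := by
  intro t ht htpos δ hδ
  have hc : Continuous fun x : SS => t x / 2 := by
    have h1 : ContinuousOn t SS := fun x hx => (ht x hx).continuousAt.continuousWithinAt
    exact (continuousOn_iff_continuous_domRestrict.1 h1).div_const 2
  set ε := Real.sqrt (δ / (4 * Real.pi)) with hε
  have hpi := Real.pi_pos
  have hε0 : 0 < ε := Real.sqrt_pos.2 (by positivity)
  have hε2 : ε ^ 2 = δ / (4 * Real.pi) := Real.sq_sqrt (by positivity)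
  obtain ⟨R, hR, q, hq⟩ := Lib_helper58.Ground.exists_ground (w := fun x : SS => t x / 2) hc
    (fun x => by have := htpos x x.2; positivity) hε0
  refine ⟨ev q, R, fun x _ => (contDiff_ev q).contDiffAt, fun x hx => (hq ⟨x, hx⟩).1, hR, ?_⟩
  have hb : ∀ x : SS, (R * (ev q x - lap (ev q) x) / ev q x - t x / 2) ^ 2 ≤ ε ^ 2 := by
    intro x
    obtain ⟨h1, h2⟩ := hq x
    rw [Approx_lap_ev q x.2]
    have h3 : R * ev (Lib_helper58.Ground.T q) x / ev q x - t x / 2
        = (R * ev (Lib_helper58.Ground.T q) x - t x / 2 * ev q x) / ev q x := by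
      field_simp
    rw [h3, ← sq_abs, abs_div, abs_of_pos h1]
    refine pow_le_pow_left₀ (by positivity) ?_ 2
    rw [div_le_iff₀ h1]
    exact h2
  unfold sint
  have h4 : ∫ x : SS, (R * (ev q x - lap (ev q) x) / ev q x - t x / 2) ^ 2 ∂sph
      ≤ ∫ _ : SS, ε ^ 2 ∂sph := by
    refine integral_mono_of_nonneg (Eventually.of_forall fun x => by positivity)
      (integrable_const _) (Eventually.of_forall hb)
  refine h4.trans (le_of_eq ?_)
  rw [integral_const, smul_eq_mul, hε2]
  have h5 : sph.real Set.univ = 4 * Real.pi := PenroseSph.sph_univ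
  rw [h5]
  field_simp

end Pool.Agent.NullShell
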