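import Pool.Agent.NullShell.Calc

/-! # Pointwise calculus with the rotation fields -/

open MeasureTheory Filter Topology
open scoped ContDiff

namespace Pool.Agent.NullShell

variable {f g : E → ℝ} {x : E} {i j : Fin 3}

/-! ## The sphere and the rotation fields -/

theorem mem_SS_iff : x ∈ SS ↔ x 0 ^ 2 + x 1 ^ 2 + x 2 ^ 2 = 1 := by
  rw [mem_sphere_zero_iff_norm, EuclideanSpace.norm_eq, Real.sqrt_eq_one, Fin.sum_univ_three]
  simp only [Real.norm_eq_abs, sq_abs]

theorem sq_sum_eq_one (hx : x ∈ SS) : x 0 ^ 2 + x 1 ^ 2 + x 2 ^ 2 = 1 := mem_SS_iff.1 hx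

@[simp] theorem rot_zero_apply (x : E) (j : Fin 3) :
    rot 0 x j = (![0, -x 2, x 1] : Fin 3 → ℝ) j := rfl
@[simp] theorem rot_one_apply (x : E) (j : Fin 3) :
    rot 1 x j = (![x 2, 0, -x 0] : Fin 3 → ℝ) j := rfl
@[simp] theorem rot_two_apply (x : E) (j : Fin 3) :
    rot 2 x j = (![-x 1, x 0, 0] : Fin 3 → ℝ) j := rfl

theorem inner_eq_sum3 (v w : E) : inner ℝ v w = v 0 * w 0 + v 1 * w 1 + v 2 * w 2 := by
  rw [PiLp.inner_apply, Fin.sum_univ_three]
  simp only [RCLike.inner_apply, conj_trivial]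
  ring

theorem inner_rot_self (i : Fin 3) (x : E) : inner ℝ (rot i x) x = 0 := by
  rw [inner_eq_sum3]
  fin_cases i <;> simp <;> ring

theorem contDiff_coord (j : Fin 3) : ContDiff ℝ ∞ (fun x : E => x j) :=
  (EuclideanSpace.proj (𝕜 := ℝ) (ι := Fin 3) j).contDiff

theorem contDiff_rot (i : Fin 3) : ContDiff ℝ ∞ (rot i) := by
  have h : ∀ j : Fin 3, ContDiff ℝ ∞ (fun x : E => rot i x j) := by
    intro j
    fin_cases i <;> fin_cases j <;> simp <;>
      first
        | exact contDiff_const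
        | exact contDiff_coord _
        | exact (contDiff_coord _).neg
  exact contDiff_euclidean.2 h

/-! ## The rotation curves -/

/-- The rotation about the `i`-th axis by the angle `θ`, applied to `x`. -/
noncomputable def rotCurve (i : Fin 3) (x : E) (θ : ℝ) : E :=
  Real.cos θ • x + Real.sin θ • rot i x
    + ((1 - Real.cos θ) * x i) • EuclideanSpace.single i (1 : ℝ)

@[simp] theorem rotCurve_zero (i : Fin 3) (x : E) : rotCurve i x 0 = x := by
  simp [rotCurve]

theorem rotCurve_mem (hx : x ∈ SS) (i : Fin 3) (θ : ℝ) : rotCurve i x θ ∈ SS := by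
  have h := sq_sum_eq_one hx
  have hcs := Real.sin_sq_add_cos_sq θ
  rw [mem_SS_iff]
  unfold rotCurve
  generalize Real.cos θ = c at *
  generalize Real.sin θ = s at *
  fin_cases i <;> simp
  · linear_combination h + (x 1 ^ 2 + x 2 ^ 2) * hcs
  · linear_combination h + (x 0 ^ 2 + x 2 ^ 2) * hcs
  · linear_combination h + (x 0 ^ 2 + x 1 ^ 2) * hcs

theorem hasDerivAt_rotCurve (i : Fin 3) (x : E) (θ : ℝ) :
    HasDerivAt (rotCurve i x) (rot i (rotCurve i x θ)) θ := by
  have h1 : HasDerivAt (rotCurve i x) ((-Real.sin θ) • x + Real.cos θ • rot i x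
      + ((-(-Real.sin θ)) * x i) • EuclideanSpace.single i (1 : ℝ)) θ :=
    (((Real.hasDerivAt_cos θ).smul_const x).add ((Real.hasDerivAt_sin θ).smul_const (rot i x))).add
      ((((Real.hasDerivAt_cos θ).const_sub 1).mul_const (x i)).smul_const _)
  convert h1 using 1
  ext j
  unfold rotCurve
  fin_cases i <;> fin_cases j <;> simp <;> ring

theorem continuous_rotCurve (i : Fin 3) (x : E) : Continuous (rotCurve i x) :=
  continuous_iff_continuousAt.2 fun θ => (hasDerivAt_rotCurve i x θ).continuousAt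

/-- Differentiation along the rotation curve. -/
theorem hasDerivAt_comp_rotCurve (hf : ∀ y ∈ SS, DifferentiableAt ℝ f y) (hx : x ∈ SS)
    (i : Fin 3) (θ : ℝ) :
    HasDerivAt (fun θ => f (rotCurve i x θ)) (Lop i f (rotCurve i x θ)) θ :=
  ((hf _ (rotCurve_mem hx i θ)).hasFDerivAt).comp_hasDerivAt θ (hasDerivAt_rotCurve i x θ)

/-! ## Smoothness -/

theorem Sm.diff (hf : Sm f) (hx : x ∈ SS) : DifferentiableAt ℝ f x :=
  (hf x hx).differentiableAt (by simp)

theorem sm_of_contDiff (hf : ContDiff ℝ ∞ f) : Sm f := fun _ _ => hf.contDiffAt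
theorem sm_const (c : ℝ) : Sm (fun _ => c) := fun _ _ => contDiffAt_const
theorem sm_coord (j : Fin 3) : Sm (fun x => x j) := sm_of_contDiff (contDiff_coord j)
theorem Sm.add (hf : Sm f) (hg : Sm g) : Sm (fun x => f x + g x) :=
  fun x hx => (hf x hx).add (hg x hx)
theorem Sm.sub (hf : Sm f) (hg : Sm g) : Sm (fun x => f x - g x) :=
  fun x hx => (hf x hx).sub (hg x hx)
theorem Sm.neg (hf : Sm f) : Sm (fun x => - f x) := fun x hx => (hf x hx).neg
theorem Sm.mul (hf : Sm f) (hg : Sm g) : Sm (fun x => f x * g x) :=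
  fun x hx => (hf x hx).mul (hg x hx)
theorem Sm.const_mul (c : ℝ) (hf : Sm f) : Sm (fun x => c * f x) := (sm_const c).mul hf
theorem Sm.pow (hf : Sm f) (n : ℕ) : Sm (fun x => f x ^ n) := fun x hx => (hf x hx).pow n
theorem Sm.div (hf : Sm f) (hg : Sm g) (h0 : ∀ x ∈ SS, g x ≠ 0) : Sm (fun x => f x / g x) :=
  fun x hx => (hf x hx).div (hg x hx) (h0 x hx)
theorem Sm.log (hf : Sm f) (h0 : ∀ x ∈ SS, f x ≠ 0) : Sm (fun x => Real.log (f x)) :=
  fun x hx => (hf x hx).log (h0 x hx)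
theorem Sm.sum {ι : Type*} {s : Finset ι} {F : ι → E → ℝ} (hF : ∀ a ∈ s, Sm (F a)) :
    Sm (fun x => ∑ a ∈ s, F a x) :=
  fun x hx => ContDiffAt.sum fun a ha => hF a ha x hx
theorem Sm.lop (hf : Sm f) (i : Fin 3) : Sm (Lop i f) := by
  intro x hx
  have h1 : ContDiffAt ℝ ∞ (fderiv ℝ f) x := (hf x hx).fderiv_right (by simp)
  exact h1.clm_apply (contDiff_rot i).contDiffAt
theorem Sm.lap (hf : Sm f) : Sm (lap f) := Sm.sum fun i _ => (hf.lop i).lop i
theorem Sm.gdot (hf : Sm f) (hg : Sm g) : Sm (gdot f g) :=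
  Sm.sum fun i _ => (hf.lop i).mul (hg.lop i)
theorem Sm.xcr (hf : Sm f) (i : Fin 3) : Sm (xcr f i) := by
  fin_cases i
  · exact ((sm_coord 1).mul (hf.lop 2)).sub ((sm_coord 2).mul (hf.lop 1))
  · exact ((sm_coord 2).mul (hf.lop 0)).sub ((sm_coord 0).mul (hf.lop 2))
  · exact ((sm_coord 0).mul (hf.lop 1)).sub ((sm_coord 1).mul (hf.lop 0))
theorem Sm.hess (hf : Sm f) (i j : Fin 3) : Sm (hess f i j) :=
  ((hf.lop j).lop i).add ((sm_coord j).mul (hf.xcr i))
theorem Sm.hdot (hf : Sm f) (hg : Sm g) : Sm (hdot f g) :=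
  Sm.sum fun i _ => Sm.sum fun j _ => (hf.hess i j).mul (hg.hess i j)
theorem IsPoly.contDiff (hf : IsPoly f) : ContDiff ℝ ∞ f := by
  unfold IsPoly at hf
  induction hf using Algebra.adjoin_induction with
  | mem f hf => obtain ⟨j, rfl⟩ := hf; exact contDiff_coord j
  | algebraMap r => exact contDiff_const
  | add f g _ _ hf hg => exact hf.add hg
  | mul f g _ _ hf hg => exact hf.mul hg
theorem IsPoly.sm (hf : IsPoly f) : Sm f := sm_of_contDiff hf.contDiff

/-! ## Rules for `Lop` -/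

theorem Lop_const (c : ℝ) : Lop i (fun _ => c) x = 0 := by simp [Lop]
theorem Lop_coord (i j : Fin 3) (x : E) : Lop i (fun y => y j) x = rot i x j := by
  unfold Lop
  have h : (fun y : E => y j) = (EuclideanSpace.proj (𝕜 := ℝ) (ι := Fin 3) j : E → ℝ) := rfl
  rw [h, ContinuousLinearMap.fderiv]
  rfl
theorem Lop_add (hf : Sm f) (hg : Sm g) (hx : x ∈ SS) :
    Lop i (fun y => f y + g y) x = Lop i f x + Lop i g x := by
  unfold Lop
  rw [fderiv_fun_add (hf.diff hx) (hg.diff hx)]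
  rfl
theorem Lop_sub (hf : Sm f) (hg : Sm g) (hx : x ∈ SS) :
    Lop i (fun y => f y - g y) x = Lop i f x - Lop i g x := by
  unfold Lop
  rw [fderiv_fun_sub (hf.diff hx) (hg.diff hx)]
  rfl
theorem Lop_neg (f : E → ℝ) (x : E) : Lop i (fun y => - f y) x = - Lop i f x := by
  unfold Lop
  rw [fderiv_fun_neg]
  rfl
theorem Lop_mul (hf : Sm f) (hg : Sm g) (hx : x ∈ SS) :
    Lop i (fun y => f y * g y) x = f x * Lop i g x + g x * Lop i f x := by
  unfold Lop
  rw [fderiv_fun_mul (hf.diff hx) (hg.diff hx)]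
  rfl
theorem Lop_const_mul (c : ℝ) (hf : Sm f) (hx : x ∈ SS) :
    Lop i (fun y => c * f y) x = c * Lop i f x := by
  unfold Lop
  rw [fderiv_const_mul (hf.diff hx)]
  rfl
theorem Lop_sum {ι : Type*} {s : Finset ι} {F : ι → E → ℝ} (hF : ∀ a ∈ s, Sm (F a))
    (hx : x ∈ SS) : Lop i (fun y => ∑ a ∈ s, F a y) x = ∑ a ∈ s, Lop i (F a) x := by
  unfold Lop
  rw [fderiv_fun_sum fun a ha => (hF a ha).diff hx]
  simp
/-- The chain rule for a function `φ : ℝ → ℝ`. -/
theorem Lop_comp {φ : ℝ → ℝ} {φ' : ℝ} (hf : Sm f) (hx : x ∈ SS) (hφ : HasDerivAt φ φ' (f x)) :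
    Lop i (fun y => φ (f y)) x = φ' * Lop i f x := by
  unfold Lop
  have h := hφ.comp_hasFDerivAt x (hf.diff hx).hasFDerivAt
  have h' : fderiv ℝ (fun y => φ (f y)) x = φ' • fderiv ℝ f x := h.fderiv
  rw [h']
  rfl
theorem Lop_div (hf : Sm f) (hg : Sm g) (hx : x ∈ SS) (h0 : g x ≠ 0) :
    Lop i (fun y => f y / g y) x = (Lop i f x * g x - f x * Lop i g x) / g x ^ 2 := by
  have hγ := hasDerivAt_comp_rotCurve (fun y hy => hf.diff hy) hx i 0
  have hγ' := hasDerivAt_comp_rotCurve (fun y hy => hg.diff hy) hx i 0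
  have h1 := hγ.div hγ' (by simpa using h0)
  have h2 : HasDerivAt (fun θ => (fun y => f y / g y) (rotCurve i x θ))
      (Lop i (fun y => f y / g y) (rotCurve i x 0)) 0 := by
    have hd : DifferentiableAt ℝ (fun y => f y / g y) (rotCurve i x 0) := by
      rw [rotCurve_zero]
      exact ((hf x hx).div (hg x hx) h0).differentiableAt (by simp)
    exact hd.hasFDerivAt.comp_hasDerivAt 0 (hasDerivAt_rotCurve i x 0)
  have h3 := h2.unique h1
  simpa using h3
theorem Lop_log (hf : Sm f) (hx : x ∈ SS) (h0 : f x ≠ 0) :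
    Lop i (fun y => Real.log (f y)) x = Lop i f x / f x := by
  rw [Lop_comp hf hx (Real.hasDerivAt_log h0)]
  rw [div_eq_inv_mul]

/-- `Lop` is tangential: it only depends on the values on the sphere. -/
theorem Lop_congr' (hf : ∀ y ∈ SS, DifferentiableAt ℝ f y) (hg : ∀ y ∈ SS, DifferentiableAt ℝ g y)
    (h : ∀ y ∈ SS, f y = g y) (hx : x ∈ SS) : Lop i f x = Lop i g x := by
  have h1 := hasDerivAt_comp_rotCurve hf hx i 0
  have h2 := hasDerivAt_comp_rotCurve hg hx i 0
  have h3 : (fun θ => f (rotCurve i x θ)) = fun θ => g (rotCurve i x θ) := by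
    funext θ
    exact h _ (rotCurve_mem hx i θ)
  rw [h3] at h1
  have h4 := h1.unique h2
  simpa using h4

/-- `Lop` is tangential: it only depends on the values on the sphere. -/
theorem Lop_congr (hf : Sm f) (hg : Sm g) (h : ∀ y ∈ SS, f y = g y) (hx : x ∈ SS) :
    Lop i f x = Lop i g x :=
  Lop_congr' (fun _ hy => hf.diff hy) (fun _ hy => hg.diff hy) h hx

theorem Lop_eventually_congr (h : f =ᶠ[𝓝 x] g) : Lop i f x = Lop i g x := by
  unfold Lop
  rw [h.fderiv_eq]

end Pool.Agent.NullShell
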