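import Pool.Agent.NullShell.BasicA1

/-! # Commutators, the Laplacian and the Hessian -/

open MeasureTheory Filter Topology
open scoped ContDiff

namespace Pool.Agent.NullShell

variable {f g : E → ℝ} {x : E} {i j : Fin 3}

/-- `∑ x_i L_i f = 0`. -/
theorem sum_coord_mul_Lop (f : E → ℝ) (x : E) :
    x 0 * Lop 0 f x + x 1 * Lop 1 f x + x 2 * Lop 2 f x = 0 := by
  unfold Lop
  have h : x 0 • rot 0 x + x 1 • rot 1 x + x 2 • rot 2 x = 0 := by
    ext j
    fin_cases j <;> simp <;> ring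
  have h2 := congrArg (fderiv ℝ f x) h
  simpa using h2

/-- The rotation field as a continuous linear map. -/
noncomputable def rotL (i : Fin 3) : E →L[ℝ] E :=
  LinearMap.toContinuousLinearMap
    { toFun := rot i
      map_add' := by
        intro a b
        ext j
        fin_cases i <;> fin_cases j <;> simp <;> ring
      map_smul' := by
        intro c b
        ext j
        fin_cases i <;> fin_cases j <;> simp }

theorem rotL_apply (i : Fin 3) (x : E) : rotL i x = rot i x := rfl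

theorem Lop_Lop_eq (hf : Sm f) (hx : x ∈ SS) (i j : Fin 3) :
    Lop i (Lop j f) x
      = fderiv ℝ (fderiv ℝ f) x (rot i x) (rot j x) + fderiv ℝ f x (rot j (rot i x)) := by
  have h1 : ContDiffAt ℝ ∞ (fderiv ℝ f) x := (hf x hx).fderiv_right (by simp)
  have h2 : DifferentiableAt ℝ (fderiv ℝ f) x := h1.differentiableAt (by simp)
  have h3 : HasFDerivAt (rot j) (rotL j) x := (rotL j).hasFDerivAt
  have h4 := h2.hasFDerivAt.clm_apply h3
  have h5 : fderiv ℝ (Lop j f) x = _ := h4.fderiv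
  unfold Lop at h5 ⊢
  rw [h5]
  simp [rotL_apply]
  ring

theorem fderiv2_symm (hf : Sm f) (hx : x ∈ SS) (v w : E) :
    fderiv ℝ (fderiv ℝ f) x v w = fderiv ℝ (fderiv ℝ f) x w v := by
  have h := (hf x hx).isSymmSndFDerivAt (by
    simp only [minSmoothness_of_isRCLikeNormedField]
    exact WithTop.coe_le_coe.2 (le_top : (2 : ℕ∞) ≤ ⊤))
  exact h.eq v w

/-- Commutators. -/
theorem Lop_comm01 (hf : Sm f) (hx : x ∈ SS) :
    Lop 0 (Lop 1 f) x - Lop 1 (Lop 0 f) x = - Lop 2 f x := by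
  rw [Lop_Lop_eq hf hx, Lop_Lop_eq hf hx, fderiv2_symm hf hx (rot 0 x) (rot 1 x)]
  have h : rot 1 (rot 0 x) - rot 0 (rot 1 x) = - rot 2 x := by
    ext j
    fin_cases j <;> simp
  have h2 := congrArg (fderiv ℝ f x) h
  rw [map_sub, map_neg] at h2
  unfold Lop
  linarith
theorem Lop_comm12 (hf : Sm f) (hx : x ∈ SS) :
    Lop 1 (Lop 2 f) x - Lop 2 (Lop 1 f) x = - Lop 0 f x := by
  rw [Lop_Lop_eq hf hx, Lop_Lop_eq hf hx, fderiv2_symm hf hx (rot 1 x) (rot 2 x)]
  have h : rot 2 (rot 1 x) - rot 1 (rot 2 x) = - rot 0 x := by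
    ext j
    fin_cases j <;> simp
  have h2 := congrArg (fderiv ℝ f x) h
  rw [map_sub, map_neg] at h2
  unfold Lop
  linarith
theorem Lop_comm20 (hf : Sm f) (hx : x ∈ SS) :
    Lop 2 (Lop 0 f) x - Lop 0 (Lop 2 f) x = - Lop 1 f x := by
  rw [Lop_Lop_eq hf hx, Lop_Lop_eq hf hx, fderiv2_symm hf hx (rot 2 x) (rot 0 x)]
  have h : rot 0 (rot 2 x) - rot 2 (rot 0 x) = - rot 1 x := by
    ext j
    fin_cases j <;> simp
  have h2 := congrArg (fderiv ℝ f x) h
  rw [map_sub, map_neg] at h2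
  unfold Lop
  linarith

/-- The Casimir operator commutes with rotations. -/
theorem Lop_lap (hf : Sm f) (hx : x ∈ SS) : Lop i (lap f) x = lap (Lop i f) x := by
  have hL : ∀ j, Sm (Lop j f) := fun j => hf.lop j
  have hLL : ∀ j k, Sm (Lop k (Lop j f)) := fun j k => (hL j).lop k
  -- derivative of the commutator identities
  have d01 : ∀ k, Lop k (Lop 0 (Lop 1 f)) x - Lop k (Lop 1 (Lop 0 f)) x
      = - Lop k (Lop 2 f) x := by
    intro k
    rw [← Lop_sub (hLL 1 0) (hLL 0 1) hx, ← Lop_neg]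
    exact Lop_congr ((hLL 1 0).sub (hLL 0 1)) (hL 2).neg (fun y hy => Lop_comm01 hf hy) hx
  have d12 : ∀ k, Lop k (Lop 1 (Lop 2 f)) x - Lop k (Lop 2 (Lop 1 f)) x
      = - Lop k (Lop 0 f) x := by
    intro k
    rw [← Lop_sub (hLL 2 1) (hLL 1 2) hx, ← Lop_neg]
    exact Lop_congr ((hLL 2 1).sub (hLL 1 2)) (hL 0).neg (fun y hy => Lop_comm12 hf hy) hx
  have d20 : ∀ k, Lop k (Lop 2 (Lop 0 f)) x - Lop k (Lop 0 (Lop 2 f)) x
      = - Lop k (Lop 1 f) x := by
    intro k
    rw [← Lop_sub (hLL 0 2) (hLL 2 0) hx, ← Lop_neg]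
    exact Lop_congr ((hLL 0 2).sub (hLL 2 0)) (hL 1).neg (fun y hy => Lop_comm20 hf hy) hx
  have c01 : ∀ k, _ := fun k => Lop_comm01 (hL k) hx
  have c12 : ∀ k, _ := fun k => Lop_comm12 (hL k) hx
  have c20 : ∀ k, _ := fun k => Lop_comm20 (hL k) hx
  have e : Lop i (lap f) x = Lop i (Lop 0 (Lop 0 f)) x + Lop i (Lop 1 (Lop 1 f)) x
      + Lop i (Lop 2 (Lop 2 f)) x := by
    have h := Lop_sum (i := i) (x := x) (s := Finset.univ) (F := fun k => Lop k (Lop k f))
      (fun k _ => hLL k k) hx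
    rw [Fin.sum_univ_three] at h
    exact h
  rw [e]
  unfold lap
  rw [Fin.sum_univ_three]
  have k0 := c01 0; have k1 := c01 1; have k2 := c01 2
  have l0 := c12 0; have l1 := c12 1; have l2 := c12 2
  have m0 := c20 0; have m1 := c20 1; have m2 := c20 2
  have n0 := d01 0; have n1 := d01 1; have n2 := d01 2
  have o0 := d12 0; have o1 := d12 1; have o2 := d12 2
  have p0 := d20 0; have p1 := d20 1; have p2 := d20 2
  fin_cases i <;> simp only [Fin.zero_eta, Fin.mk_one, Fin.reduceFinMk, Fin.isValue] <;> linarith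

/-! ## Rules for `lap` and `gdot` -/

theorem lap_congr (hf : Sm f) (hg : Sm g) (h : ∀ y ∈ SS, f y = g y) (hx : x ∈ SS) :
    lap f x = lap g x := by
  unfold lap
  exact Finset.sum_congr rfl fun i _ =>
    Lop_congr (hf.lop i) (hg.lop i) (fun y hy => Lop_congr hf hg h hy) hx
theorem lap_add (hf : Sm f) (hg : Sm g) (hx : x ∈ SS) :
    lap (fun y => f y + g y) x = lap f x + lap g x := by
  unfold lap
  rw [← Finset.sum_add_distrib]
  refine Finset.sum_congr rfl fun i _ => ?_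
  rw [← Lop_add (hf.lop i) (hg.lop i) hx]
  exact Lop_congr ((hf.add hg).lop i) ((hf.lop i).add (hg.lop i)) (fun y hy => Lop_add hf hg hy) hx
theorem lap_sub (hf : Sm f) (hg : Sm g) (hx : x ∈ SS) :
    lap (fun y => f y - g y) x = lap f x - lap g x := by
  unfold lap
  rw [← Finset.sum_sub_distrib]
  refine Finset.sum_congr rfl fun i _ => ?_
  rw [← Lop_sub (hf.lop i) (hg.lop i) hx]
  exact Lop_congr ((hf.sub hg).lop i) ((hf.lop i).sub (hg.lop i)) (fun y hy => Lop_sub hf hg hy) hx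
theorem lap_const_mul (c : ℝ) (hf : Sm f) (hx : x ∈ SS) :
    lap (fun y => c * f y) x = c * lap f x := by
  unfold lap
  rw [Finset.mul_sum]
  refine Finset.sum_congr rfl fun i _ => ?_
  rw [← Lop_const_mul c (hf.lop i) hx]
  exact Lop_congr ((hf.const_mul c).lop i) ((hf.lop i).const_mul c)
    (fun y hy => Lop_const_mul c hf hy) hx
theorem lap_const (c : ℝ) (x : E) : lap (fun _ => c) x = 0 := by
  unfold lap
  refine Finset.sum_eq_zero fun i _ => ?_
  have h : Lop i (fun _ : E => c) = fun _ => (0 : ℝ) := by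
    funext y
    exact Lop_const c
  rw [h]
  exact Lop_const 0
theorem lap_mul (hf : Sm f) (hg : Sm g) (hx : x ∈ SS) :
    lap (fun y => f y * g y) x = f x * lap g x + 2 * gdot f g x + g x * lap f x := by
  unfold lap gdot
  rw [Finset.mul_sum, Finset.mul_sum, Finset.mul_sum, ← Finset.sum_add_distrib,
    ← Finset.sum_add_distrib]
  refine Finset.sum_congr rfl fun i _ => ?_
  have h1 : Lop i (Lop i (fun y => f y * g y)) x
      = Lop i (fun y => f y * Lop i g y + g y * Lop i f y) x :=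
    Lop_congr ((hf.mul hg).lop i) ((hf.mul (hg.lop i)).add (hg.mul (hf.lop i)))
      (fun y hy => Lop_mul hf hg hy) hx
  rw [h1, Lop_add (hf.mul (hg.lop i)) (hg.mul (hf.lop i)) hx, Lop_mul hf (hg.lop i) hx,
    Lop_mul hg (hf.lop i) hx]
  ring
theorem lap_coord (j : Fin 3) (hx : x ∈ SS) : lap (fun y => y j) x = -2 * x j := by
  unfold lap
  rw [Fin.sum_univ_three]
  have h : ∀ i : Fin 3, Lop i (fun y : E => y j) = fun y => rot i y j := by
    intro i
    funext y
    exact Lop_coord i j y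
  rw [h 0, h 1, h 2]
  have hn : ∀ (k i : Fin 3), Lop i (fun y : E => - y k) x = - rot i x k := by
    intro k i
    rw [Lop_neg, Lop_coord]
  fin_cases j <;> simp [hn, Lop_coord, Lop_const] <;> ring
/-- `Δ (φ ∘ f) = φ'(f) Δ f + φ''(f) |∇ f|²`. -/
theorem lap_comp {φ φ1 : ℝ → ℝ} {φ2 : ℝ} (hf : Sm f) (hx : x ∈ SS)
    (hφ : ∀ᶠ y in 𝓝 (f x), HasDerivAt φ (φ1 y) y) (hφ1 : HasDerivAt φ1 φ2 (f x)) :
    lap (fun y => φ (f y)) x = φ1 (f x) * lap f x + φ2 * gdot f f x := by
  unfold lap gdot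
  rw [Finset.mul_sum, Finset.mul_sum, ← Finset.sum_add_distrib]
  refine Finset.sum_congr rfl fun i _ => ?_
  have hcd : ∀ᶠ y in 𝓝 x, DifferentiableAt ℝ f y := by
    have h1 : ContDiffAt ℝ 1 f x := (hf x hx).of_le (by
      exact WithTop.coe_le_coe.2 (le_top : (1 : ℕ∞) ≤ ⊤))
    exact (h1.eventually (by simp)).mono fun y hy => hy.differentiableAt (by simp)
  have hev : Lop i (fun y => φ (f y)) =ᶠ[𝓝 x] fun y => φ1 (f y) * Lop i f y := by
    filter_upwards [hcd, (hf x hx).continuousAt.eventually hφ] with y hy hy2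
    unfold Lop
    have h := hy2.comp_hasFDerivAt y hy.hasFDerivAt
    have h' : fderiv ℝ (fun y => φ (f y)) y = φ1 (f y) • fderiv ℝ f y := h.fderiv
    rw [h']
    rfl
  rw [Lop_eventually_congr hev]
  have h1 : HasFDerivAt (fun y => φ1 (f y)) (φ2 • fderiv ℝ f x) x :=
    hφ1.comp_hasFDerivAt x (hf.diff hx).hasFDerivAt
  have h2 := h1.mul ((hf.lop i).diff hx).hasFDerivAt
  have h3 : fderiv ℝ (fun y => φ1 (f y) * Lop i f y) x = _ := h2.fderiv
  have h4 : Lop i (fun y => φ1 (f y) * Lop i f y) x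
      = fderiv ℝ (fun y => φ1 (f y) * Lop i f y) x (rot i x) := rfl
  rw [h4, h3]
  have h5 : Lop i (Lop i f) x = fderiv ℝ (Lop i f) x (rot i x) := rfl
  have h6 : Lop i f x = fderiv ℝ f x (rot i x) := rfl
  simp only [add_apply, smul_apply, smul_eq_mul]
  rw [← h5, ← h6]
  ring
theorem gdot_comm (f g : E → ℝ) (x : E) : gdot f g x = gdot g f x := by
  unfold gdot
  exact Finset.sum_congr rfl fun i _ => mul_comm _ _
theorem gdot_self_nonneg (f : E → ℝ) (x : E) : 0 ≤ gdot f f x := by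
  unfold gdot
  exact Finset.sum_nonneg fun i _ => mul_self_nonneg _

/-! ## The Hessian -/

theorem hess_symm (hf : Sm f) (hx : x ∈ SS) (i j : Fin 3) : hess f i j x = hess f j i x := by
  have h01 := Lop_comm01 hf hx
  have h12 := Lop_comm12 hf hx
  have h20 := Lop_comm20 hf hx
  have hs := sum_coord_mul_Lop f x
  have hn := sq_sum_eq_one hx
  have e01 : hess f 0 1 x = hess f 1 0 x := by
    unfold hess xcr
    linear_combination h01 + Lop 2 f x * hn - x 2 * hs
  have e12 : hess f 1 2 x = hess f 2 1 x := by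
    unfold hess xcr
    linear_combination h12 + Lop 0 f x * hn - x 0 * hs
  have e20 : hess f 2 0 x = hess f 0 2 x := by
    unfold hess xcr
    linear_combination h20 + Lop 1 f x * hn - x 1 * hs
  fin_cases i <;> fin_cases j <;>
    first
      | rfl
      | exact e01
      | exact e01.symm
      | exact e12
      | exact e12.symm
      | exact e20
      | exact e20.symm

/-- `∑_j x_j L_i L_j f = -(x × L f)_i`. -/
theorem sum_coord_mul_Lop_Lop (hf : Sm f) (hx : x ∈ SS) (i : Fin 3) :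
    x 0 * Lop i (Lop 0 f) x + x 1 * Lop i (Lop 1 f) x + x 2 * Lop i (Lop 2 f) x
      = - xcr f i x := by
  have h0 : (fun y : E => (y 0 * Lop 0 f y + y 1 * Lop 1 f y) + y 2 * Lop 2 f y)
      = fun _ => (0 : ℝ) := by
    funext y
    exact sum_coord_mul_Lop f y
  have h1 : Lop i (fun y : E => (y 0 * Lop 0 f y + y 1 * Lop 1 f y) + y 2 * Lop 2 f y) x = 0 := by
    rw [h0]
    exact Lop_const 0
  have m0 : Sm (fun y : E => y 0 * Lop 0 f y) := (sm_coord 0).mul (hf.lop 0)
  have m1 : Sm (fun y : E => y 1 * Lop 1 f y) := (sm_coord 1).mul (hf.lop 1)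
  have m2 : Sm (fun y : E => y 2 * Lop 2 f y) := (sm_coord 2).mul (hf.lop 2)
  rw [Lop_add (m0.add m1) m2 hx, Lop_add m0 m1 hx, Lop_mul (sm_coord 0) (hf.lop 0) hx,
    Lop_mul (sm_coord 1) (hf.lop 1) hx, Lop_mul (sm_coord 2) (hf.lop 2) hx, Lop_coord,
    Lop_coord, Lop_coord] at h1
  fin_cases i
  · simp at h1 ⊢
    unfold xcr
    linear_combination h1
  · simp at h1 ⊢
    unfold xcr
    linear_combination h1
  · simp at h1 ⊢
    unfold xcr
    linear_combination h1

theorem hess_mul_coord (hf : Sm f) (hx : x ∈ SS) (i : Fin 3) :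
    ∑ j, hess f i j x * x j = 0 := by
  have h := sum_coord_mul_Lop_Lop hf hx i
  have hn := sq_sum_eq_one hx
  rw [Fin.sum_univ_three]
  unfold hess
  linear_combination h + xcr f i x * hn

theorem hess_trace (hf : Sm f) (hx : x ∈ SS) : ∑ i, hess f i i x = lap f x := by
  unfold lap
  rw [Fin.sum_univ_three, Fin.sum_univ_three]
  unfold hess xcr
  ring

/-- `|∇²f|² = ∑ (L_i L_j f)² - |∇f|²`, polarised. -/
theorem hdot_eq (hf : Sm f) (hg : Sm g) (hx : x ∈ SS) :
    hdot f g x = (∑ i, ∑ j, Lop i (Lop j f) x * Lop i (Lop j g) x) - gdot f g x := by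
  have hfi := fun i => sum_coord_mul_Lop_Lop hf hx i
  have hgi := fun i => sum_coord_mul_Lop_Lop hg hx i
  have hn := sq_sum_eq_one hx
  have hsf := sum_coord_mul_Lop f x
  have hsg := sum_coord_mul_Lop g x
  have hrow : ∀ i, ∑ j, hess f i j x * hess g i j x
      = (∑ j, Lop i (Lop j f) x * Lop i (Lop j g) x) - xcr f i x * xcr g i x := by
    intro i
    rw [Fin.sum_univ_three, Fin.sum_univ_three]
    have a := hfi i
    have b := hgi i
    unfold hess
    linear_combination xcr g i x * a + xcr f i x * b + xcr f i x * xcr g i x * hn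
  have hx' : xcr f 0 x * xcr g 0 x + xcr f 1 x * xcr g 1 x + xcr f 2 x * xcr g 2 x
      = gdot f g x := by
    unfold gdot
    rw [Fin.sum_univ_three]
    unfold xcr
    linear_combination (Lop 0 f x * Lop 0 g x + Lop 1 f x * Lop 1 g x + Lop 2 f x * Lop 2 g x) * hn
      - (x 0 * Lop 0 g x + x 1 * Lop 1 g x + x 2 * Lop 2 g x) * hsf
  unfold hdot
  rw [Finset.sum_congr rfl fun i _ => hrow i, Finset.sum_sub_distrib, ← hx']
  congr 1
  exact Fin.sum_univ_three _

/-- `∇²f (∇g, ∇h) = ∑ L_i g L_j h L_i L_j f`. -/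
theorem hess_contract (f g h : E → ℝ) (x : E) :
    ∑ i, ∑ j, hess f i j x * Lop i g x * Lop j h x
      = ∑ i, ∑ j, Lop i (Lop j f) x * Lop i g x * Lop j h x := by
  refine Finset.sum_congr rfl fun i _ => ?_
  have hs := sum_coord_mul_Lop h x
  rw [Fin.sum_univ_three, Fin.sum_univ_three]
  unfold hess
  linear_combination xcr f i x * Lop i g x * hs

end Pool.Agent.NullShell
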