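import Pool.Agent.NullShell.BasicA2
import Pool.Agent.NullShell.BasicB1
import Pool.Agent.PenroseSph.SphereDiv

/-! # Integration by parts on the unit sphere -/

open MeasureTheory Filter Topology
open scoped ContDiff

namespace Pool.Agent.NullShell

variable {f g : E → ℝ}

/-- The radial extension of a function on the sphere. -/
noncomputable def basicB2_ext (f : E → ℝ) (x : E) : ℝ := f (‖x‖⁻¹ • x)

theorem basicB2_mem {x : E} (hx : x ≠ 0) : ‖x‖⁻¹ • x ∈ SS := by
  have h : ‖x‖ ≠ 0 := norm_ne_zero_iff.2 hx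
  simp [norm_smul, h]

theorem basicB2_ext_contDiffAt (hf : Sm f) {x : E} (hx : x ≠ 0) :
    ContDiffAt ℝ ∞ (basicB2_ext f) x := by
  have h1 : ContDiffAt ℝ ∞ (fun y : E => ‖y‖⁻¹ • y) x :=
    ((contDiffAt_norm ℝ hx).inv (norm_ne_zero_iff.2 hx)).smul contDiffAt_id
  exact ContDiffAt.comp x (hf _ (basicB2_mem hx)) h1

theorem basicB2_ext_sm (hf : Sm f) : Sm (basicB2_ext f) := fun x hx => by
  refine basicB2_ext_contDiffAt hf ?_
  rintro rfl
  simp at hx

theorem basicB2_ext_eq {x : E} (hx : x ∈ SS) : basicB2_ext f x = f x := by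
  have h : ‖x‖ = 1 := by simpa using hx
  simp [basicB2_ext, h]

theorem basicB2_rot_contDiff (i j : Fin 3) : ContDiff ℝ ∞ (fun x : E => rot i x j) := by
  have hc : ∀ k : Fin 3, ContDiff ℝ ∞ (fun x : E => x k) := fun k => by fun_prop
  fin_cases i <;> fin_cases j <;>
    simp only [Fin.zero_eta, Fin.mk_one, Fin.reduceFinMk, rot_zero_apply, rot_one_apply,
      rot_two_apply] <;>
    simp <;> fun_prop

theorem basicB2_pd_coord (j k : Fin 3) (x : E) :
    (fderiv ℝ (fun x : E => x k) x) (EuclideanSpace.single j (1 : ℝ)) = if k = j then 1 else 0 := by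
  have : HasFDerivAt (fun x : E => x k) (EuclideanSpace.proj k : E →L[ℝ] ℝ) x :=
    (EuclideanSpace.proj k : E →L[ℝ] ℝ).hasFDerivAt
  rw [this.fderiv]
  simp

theorem basicB2_pd_rot (i j : Fin 3) (x : E) :
    Pool.Agent.PenroseSph.pd j (fun x => rot i x j) x = 0 := by
  fin_cases i <;> fin_cases j <;>
    simp only [Fin.zero_eta, Fin.mk_one, Fin.reduceFinMk, rot_zero_apply, rot_one_apply,
      rot_two_apply] <;> simp [basicB2_pd_coord, Pool.Agent.PenroseSph.pd]

theorem basicB2_rot_sum (i : Fin 3) (x : E) :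
    rot i x = ∑ j : Fin 3, rot i x j • (EuclideanSpace.single j (1 : ℝ) : E) := by
  ext k
  simp [Fin.sum_univ_three]
  fin_cases k <;> simp

/-- Derivatives along rotation fields have vanishing integral. -/
theorem sint_Lop (hf : Sm f) (i : Fin 3) : sint (Lop i f) = 0 := by
  have key := Pool.Agent.PenroseSph.integral_sphere_div_eq_zero (ρ₁ := 0) le_rfl
    (b := fun j x => basicB2_ext f x * rot i x j)
    (fun j => by
      intro x hx
      have hx0 : x ≠ 0 := norm_pos_iff.1 hx
      exact (((basicB2_ext_contDiffAt hf hx0).mul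
        (basicB2_rot_contDiff i j).contDiffAt).of_le (by exact_mod_cast le_top)).contDiffWithinAt)
    (fun x hx => by
      have h := inner_rot_self i x
      rw [PiLp.inner_apply] at h
      simp only [RCLike.inner_apply, conj_trivial] at h
      calc ∑ j, (x j / ‖x‖) * (basicB2_ext f x * rot i x j)
          = (basicB2_ext f x / ‖x‖) * ∑ j, x j * rot i x j := by
            rw [Finset.mul_sum]; exact Finset.sum_congr rfl fun j _ => by ring
        _ = 0 := by rw [h, mul_zero])
    (ρ := 1) one_pos
  unfold sint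
  rw [← key]
  refine integral_congr_ae (Eventually.of_forall fun x => ?_)
  have hx : (x : E) ∈ SS := x.2
  have hx0 : (x : E) ≠ 0 := by
    intro h
    rw [h] at hx
    simp at hx
  simp only [one_smul]
  rw [← Lop_congr (basicB2_ext_sm hf) hf (fun y hy => basicB2_ext_eq hy) hx]
  have hd : DifferentiableAt ℝ (basicB2_ext f) x :=
    (basicB2_ext_contDiffAt hf hx0).differentiableAt (by simp)
  have hr : ∀ j, DifferentiableAt ℝ (fun y : E => rot i y j) x := fun j =>
    (basicB2_rot_contDiff i j).contDiffAt.differentiableAt (by simp)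
  have h1 : ∀ j : Fin 3, Pool.Agent.PenroseSph.pd j (fun x => basicB2_ext f x * rot i x j) x
      = basicB2_ext f x * Pool.Agent.PenroseSph.pd j (fun x => rot i x j) x
        + rot i x j * Pool.Agent.PenroseSph.pd j (basicB2_ext f) x := by
    intro j
    unfold Pool.Agent.PenroseSph.pd
    rw [fderiv_fun_mul hd (hr j)]
    simp
  rw [Finset.sum_congr rfl fun j _ => h1 j, Finset.sum_add_distrib, ← Finset.mul_sum]
  have h2 : ∑ j : Fin 3, Pool.Agent.PenroseSph.pd j (fun x => rot i x j) x = 0 :=
    Finset.sum_eq_zero fun j _ => basicB2_pd_rot i j x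
  rw [h2, mul_zero, zero_add]
  unfold Lop
  conv_lhs => rw [basicB2_rot_sum i x]
  rw [map_sum]
  refine Finset.sum_congr rfl fun j _ => ?_
  rw [map_smul, smul_eq_mul]
  rfl

theorem sint_Lop_mul (hf : Sm f) (hg : Sm g) (i : Fin 3) :
    sint (fun x => Lop i f x * g x) = - sint (fun x => f x * Lop i g x) := by
  have h := sint_Lop (hf.mul hg) i
  have h1 : sint (Lop i (fun x => f x * g x))
      = sint (fun x => f x * Lop i g x) + sint (fun x => Lop i f x * g x) := by
    rw [← sint_add (hf.mul (hg.lop i)) ((hf.lop i).mul hg)]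
    refine sint_congr fun x hx => ?_
    rw [Lop_mul hf hg hx]; ring
  linarith

theorem sint_lap (hf : Sm f) : sint (lap f) = 0 := by
  have : sint (lap f) = ∑ i, sint (Lop i (Lop i f)) := by
    rw [← sint_finset_sum fun i _ => (hf.lop i).lop i]
    rfl
  rw [this]
  exact Finset.sum_eq_zero fun i _ => sint_Lop (hf.lop i) i

/-- Green's identity. -/
theorem sint_green (hf : Sm f) (hg : Sm g) :
    sint (fun x => f x * lap g x) = - sint (gdot f g) := by
  have h1 : sint (fun x => f x * lap g x) = ∑ i, sint (fun x => f x * Lop i (Lop i g) x) := by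
    rw [← sint_finset_sum fun i _ => hf.mul ((hg.lop i).lop i)]
    refine sint_congr fun x _ => ?_
    rw [lap, Finset.mul_sum]
  have h2 : sint (gdot f g) = ∑ i, sint (fun x => Lop i f x * Lop i g x) := by
    rw [← sint_finset_sum fun i _ => (hf.lop i).mul (hg.lop i)]
    rfl
  rw [h1, h2, ← Finset.sum_neg_distrib]
  refine Finset.sum_congr rfl fun i _ => ?_
  rw [sint_Lop_mul hf (hg.lop i) i, neg_neg]

theorem sint_lap_symm (hf : Sm f) (hg : Sm g) :
    sint (fun x => f x * lap g x) = sint (fun x => g x * lap f x) := by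
  rw [sint_green hf hg, sint_green hg hf]
  congr 1
  exact sint_congr fun x _ => gdot_comm f g x

end Pool.Agent.NullShell
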