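import Pool.Agent.NullShell.BoostDefs

/-! # Algebra of the boost and of the aberration map -/

open MeasureTheory
open scoped ContDiff

namespace Pool.Agent.NullShell

lemma gam_sq (u : E) : gam u ^ 2 = 1 + ‖u‖ ^ 2 := by
  unfold gam
  rw [Real.sq_sqrt (by positivity)]

lemma gam_pos (u : E) : 0 < gam u := by
  unfold gam
  positivity

lemma gam_neg (u : E) : gam (-u) = gam u := by
  unfold gam
  rw [norm_neg]

lemma norm_lt_gam (u : E) : ‖u‖ < gam u := by
  unfold gam
  apply Real.lt_sqrt_of_sq_lt
  linarith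

lemma boost_fst (u : E) (p : Mink) : (boost u p).1 = gam u * p.1 + inner ℝ u p.2 := by
  simp [boost]

lemma boost_snd (u : E) (p : Mink) :
    (boost u p).2 = p.2 + (p.1 + inner ℝ u p.2 / (1 + gam u)) • u := by
  simp [boost, div_eq_inv_mul]

lemma inner_self_u (u : E) : inner ℝ u u = gam u ^ 2 - 1 := by
  rw [gam_sq, real_inner_self_eq_norm_sq]
  ring

lemma boost_mink (u : E) (p q : Mink) : mink (boost u p) (boost u q) = mink p q := by
  have h1 : (1 + gam u) ≠ 0 := by
    have := gam_pos u
    positivity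
  unfold mink
  rw [boost_fst, boost_fst, boost_snd, boost_snd]
  simp only [inner_add_left, inner_add_right, real_inner_smul_left, real_inner_smul_right,
    inner_self_u]
  rw [real_inner_comm u p.2]
  field_simp
  ring

lemma boost_neg_boost (u : E) (p : Mink) : boost (-u) (boost u p) = p := by
  have h1 : (1 + gam u) ≠ 0 := by
    have := gam_pos u
    positivity
  ext1
  · rw [boost_fst, boost_fst, boost_snd, gam_neg]
    simp only [inner_add_right, real_inner_smul_right, inner_neg_left, inner_self_u]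
    field_simp
    ring
  · rw [boost_snd, boost_fst, boost_snd, gam_neg]
    simp only [inner_add_right, real_inner_smul_right, inner_neg_left, inner_self_u]
    rw [smul_neg, add_assoc, ← sub_eq_add_neg, ← sub_smul]
    have : p.1 + inner ℝ u p.2 / (1 + gam u) - (gam u * p.1 + inner ℝ u p.2 +
        (-inner ℝ u p.2 + -((p.1 + inner ℝ u p.2 / (1 + gam u)) * (gam u ^ 2 - 1))) / (1 + gam u))
        = 0 := by
      field_simp
      ring
    rw [this, zero_smul, add_zero]

lemma kap_pos (u x : E) : 0 < kap u x := by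
  have h1 := real_inner_le_norm u x
  have h2 := norm_lt_gam u
  have h3 := norm_nonneg u
  have h4 := norm_nonneg x
  unfold kap
  nlinarith [mul_pos (sub_pos.mpr h2) (show (0:ℝ) < 1 + ‖x‖ ^ 2 by positivity),
    mul_nonneg h3 (sq_nonneg (1 - ‖x‖))]

lemma kap_of_mem {u x : E} (hx : x ∈ SS) : kap u x = gam u - inner ℝ u x := by
  have : ‖x‖ = 1 := by simpa using hx
  unfold kap
  rw [this]
  ring

lemma contDiff_kap (u : E) : ContDiff ℝ ∞ (kap u) := by
  unfold kap
  have h1 : ContDiff ℝ ∞ (fun x : E => ‖x‖ ^ 2) := contDiff_norm_sq ℝ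
  exact (contDiff_const.mul ((contDiff_const.add h1).div_const 2)).sub
    (contDiff_const.inner ℝ contDiff_id)

lemma contDiff_aberNum (u : E) :
    ContDiff ℝ ∞ (fun x : E => x - (1 - inner ℝ u x / (1 + gam u)) • u) := by
  exact contDiff_id.sub ((contDiff_const.sub
    ((contDiff_const.inner ℝ contDiff_id).div_const _)).smul contDiff_const)

lemma contDiff_aber (u : E) : ContDiff ℝ ∞ (aber u) := by
  unfold aber
  exact ((contDiff_kap u).inv (fun x => (kap_pos u x).ne')).smul (contDiff_aberNum u)

lemma kap_smul_aber (u x : E) :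
    kap u x • aber u x = x - (1 - inner ℝ u x / (1 + gam u)) • u := by
  unfold aber
  rw [smul_inv_smul₀ (kap_pos u x).ne']

lemma boost_ingoing {u x : E} (hx : x ∈ SS) :
    boost u (ingoing x) = kap u x • ingoing (aber u x) := by
  ext1
  · rw [boost_fst]
    simp [ingoing, kap_of_mem hx, sub_eq_add_neg]
  · rw [boost_snd]
    have : (kap u x • ingoing (aber u x)).2 = -(kap u x • aber u x) := by
      simp [ingoing]
    rw [this, kap_smul_aber]
    simp only [ingoing, inner_neg_right]
    rw [neg_sub, neg_div, ← sub_eq_add_neg (1 : ℝ)]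
    abel

lemma mink_ingoing_self {x : E} : mink (ingoing x) (ingoing x) = ‖x‖ ^ 2 - 1 := by
  simp [mink, ingoing]

lemma aber_mem {u x : E} (hx : x ∈ SS) : aber u x ∈ SS := by
  have h1 := boost_mink u (ingoing x) (ingoing x)
  rw [boost_ingoing hx, mink_ingoing_self] at h1
  have hx' : ‖x‖ = 1 := by simpa using hx
  have h2 : mink (kap u x • ingoing (aber u x)) (kap u x • ingoing (aber u x))
      = kap u x ^ 2 * (‖aber u x‖ ^ 2 - 1) := by
    rw [← mink_ingoing_self]
    simp only [mink, Prod.smul_fst, Prod.smul_snd, real_inner_smul_left, real_inner_smul_right,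
      smul_eq_mul]
    ring
  rw [h2, hx'] at h1
  have h3 := kap_pos u x
  have h4 : ‖aber u x‖ ^ 2 - 1 = 0 := by
    have : kap u x ^ 2 ≠ 0 := by positivity
    have h5 : kap u x ^ 2 * (‖aber u x‖ ^ 2 - 1) = 0 := by rw [h1]; ring
    exact (mul_eq_zero.mp h5).resolve_left this
  have h5 : ‖aber u x‖ = 1 := by
    have := norm_nonneg (aber u x)
    nlinarith
  simpa using h5

lemma kap_mul_kap {u x : E} (hx : x ∈ SS) : kap u x * kap (-u) (aber u x) = 1 := by
  have h1 := boost_neg_boost u (ingoing x)
  rw [boost_ingoing hx, map_smul, boost_ingoing (aber_mem hx)] at h1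
  have h2 := congrArg Prod.fst h1
  simpa [ingoing] using h2

lemma aber_aber {u x : E} (hx : x ∈ SS) : aber (-u) (aber u x) = x := by
  have h1 := boost_neg_boost u (ingoing x)
  rw [boost_ingoing hx, map_smul, boost_ingoing (aber_mem hx), smul_smul, kap_mul_kap hx,
    one_smul] at h1
  have h2 := congrArg Prod.snd h1
  simpa [ingoing] using h2

lemma kap_inv {u x : E} (hx : x ∈ SS) : kap (-u) (aber u x) = (kap u x)⁻¹ := by
  have := kap_mul_kap (u := u) hx
  exact eq_inv_of_mul_eq_one_right this

/-- Derivatives in tangential directions only depend on the values on the sphere. -/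
lemma fderiv_tangent_congr {G : Type*} [NormedAddCommGroup G] [NormedSpace ℝ G] {f g : E → G}
    {x v : E} (hx : x ∈ SS) (hv : inner ℝ v x = 0) (hf : DifferentiableAt ℝ f x)
    (hg : DifferentiableAt ℝ g x) (hfg : ∀ y ∈ SS, f y = g y) :
    fderiv ℝ f x v = fderiv ℝ g x v := by
  have hx' : ‖x‖ = 1 := by simpa using hx
  -- unit vectors
  have key : ∀ w : E, ‖w‖ = 1 → inner ℝ w x = 0 → fderiv ℝ f x w = fderiv ℝ g x w := by
    intro w hw hwx
    have hc : HasDerivAt (fun t : ℝ => Real.cos t • x + Real.sin t • w)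
        ((-Real.sin 0) • x + Real.cos 0 • w) 0 :=
      ((Real.hasDerivAt_cos 0).smul_const x).add ((Real.hasDerivAt_sin 0).smul_const w)
    have hc' : HasDerivAt (fun t : ℝ => Real.cos t • x + Real.sin t • w) w 0 := by
      simpa using hc
    have h0 : Real.cos 0 • x + Real.sin 0 • w = x := by simp
    have hmem : ∀ t : ℝ, Real.cos t • x + Real.sin t • w ∈ SS := by
      intro t
      have h1 : ‖Real.cos t • x + Real.sin t • w‖ ^ 2 = 1 := by
        rw [← real_inner_self_eq_norm_sq]
        simp only [inner_add_left, inner_add_right, real_inner_smul_left, real_inner_smul_right]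
        rw [real_inner_comm w x, hwx, real_inner_self_eq_norm_sq, real_inner_self_eq_norm_sq, hw,
          hx']
        have := Real.sin_sq_add_cos_sq t
        nlinarith
      have h2 : ‖Real.cos t • x + Real.sin t • w‖ = 1 := by
        have := norm_nonneg (Real.cos t • x + Real.sin t • w)
        nlinarith
      simpa using h2
    have h1 : HasDerivAt (fun t : ℝ => f (Real.cos t • x + Real.sin t • w)) (fderiv ℝ f x w) 0 := by
      have : HasFDerivAt f (fderiv ℝ f x) (Real.cos 0 • x + Real.sin 0 • w) := by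
        rw [h0]; exact hf.hasFDerivAt
      exact this.comp_hasDerivAt (0 : ℝ) hc'
    have h2 : HasDerivAt (fun t : ℝ => g (Real.cos t • x + Real.sin t • w)) (fderiv ℝ g x w) 0 := by
      have : HasFDerivAt g (fderiv ℝ g x) (Real.cos 0 • x + Real.sin 0 • w) := by
        rw [h0]; exact hg.hasFDerivAt
      exact this.comp_hasDerivAt (0 : ℝ) hc'
    have h3 : (fun t : ℝ => f (Real.cos t • x + Real.sin t • w))
        = (fun t : ℝ => g (Real.cos t • x + Real.sin t • w)) := by
      funext t
      exact hfg _ (hmem t)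
    rw [h3] at h1
    exact h1.unique h2
  by_cases hv0 : v = 0
  · simp [hv0]
  · have hvn : ‖v‖ ≠ 0 := by simpa using hv0
    have h1 : v = ‖v‖ • (‖v‖⁻¹ • v) := by rw [smul_inv_smul₀ hvn]
    have h2 := key (‖v‖⁻¹ • v) (by rw [norm_smul, norm_inv, norm_norm, inv_mul_cancel₀ hvn])
      (by rw [real_inner_smul_left, hv, mul_zero])
    have h3 : fderiv ℝ f x (‖v‖ • (‖v‖⁻¹ • v)) = fderiv ℝ g x (‖v‖ • (‖v‖⁻¹ • v)) := by
      rw [map_smul (fderiv ℝ f x) ‖v‖ (‖v‖⁻¹ • v), map_smul (fderiv ℝ g x) ‖v‖ (‖v‖⁻¹ • v), h2]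
    rwa [← h1] at h3

lemma kap_fderiv (u x v : E) :
    fderiv ℝ (kap u) x v = gam u * inner ℝ x v - inner ℝ u v := by
  have h1 : HasFDerivAt (fun y : E => ‖y‖ ^ 2) (2 • innerSL ℝ x) x :=
    (hasStrictFDerivAt_norm_sq x).hasFDerivAt
  have h2 : HasFDerivAt (fun y : E => inner ℝ u y) (innerSL ℝ u) x := (innerSL ℝ u).hasFDerivAt
  have h3 : HasFDerivAt (kap u) (gam u • ((2 : ℝ)⁻¹ • (2 • innerSL ℝ x)) - innerSL ℝ u) x := by
    have h4 : HasFDerivAt (fun y : E => (1 + ‖y‖ ^ 2) / 2) ((2 : ℝ)⁻¹ • (2 • innerSL ℝ x)) x := by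
      have := (h1.const_add 1).const_mul ((2 : ℝ)⁻¹)
      refine this.congr_of_eventuallyEq (Filter.Eventually.of_forall fun y => ?_)
      simp only
      ring
    exact (h4.const_mul (gam u)).sub h2
  rw [h3.fderiv]
  simp

lemma kap_smul_fderiv_aber (u x v : E) :
    kap u x • fderiv ℝ (aber u) x v
      = v + (inner ℝ u v / (1 + gam u)) • u
        - (gam u * inner ℝ x v - inner ℝ u v) • aber u x := by
  have hk : DifferentiableAt ℝ (kap u) x := (contDiff_kap u).differentiable (by simp) x
  have ha : DifferentiableAt ℝ (aber u) x := (contDiff_aber u).differentiable (by simp) x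
  have h1 : (fun y => kap u y • aber u y) = fun y => y - (1 - inner ℝ u y / (1 + gam u)) • u := by
    funext y
    exact kap_smul_aber u y
  have h2 : fderiv ℝ (fun y => kap u y • aber u y) x v
      = kap u x • fderiv ℝ (aber u) x v + (fderiv ℝ (kap u) x v) • aber u x := by
    have := (hk.hasFDerivAt.smul ha.hasFDerivAt).fderiv
    have h3 : fderiv ℝ (fun y => kap u y • aber u y) x = _ := this
    rw [h3]
    simp
  have h3 : fderiv ℝ (fun y : E => y - (1 - inner ℝ u y / (1 + gam u)) • u) x v
      = v + (inner ℝ u v / (1 + gam u)) • u := by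
    have h4 : HasFDerivAt (fun y : E => inner ℝ u y) (innerSL ℝ u) x := (innerSL ℝ u).hasFDerivAt
    have h5 : HasFDerivAt (fun y : E => y - (1 - inner ℝ u y / (1 + gam u)) • u)
        (ContinuousLinearMap.id ℝ E + ((1 + gam u)⁻¹ • innerSL ℝ u).smulRight u) x := by
      have h6 := (hasFDerivAt_id x).add ((h4.const_mul (1 + gam u)⁻¹).smul_const u)
      have h7 := h6.sub_const u
      refine h7.congr_of_eventuallyEq (Filter.Eventually.of_forall fun y => ?_)
      simp only [id, Pi.add_apply]
      rw [sub_smul, one_smul, div_eq_inv_mul]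
      abel
    rw [h5.fderiv]
    simp [div_eq_inv_mul]
  rw [h1, h3, kap_fderiv] at h2
  rw [h2]
  abel

lemma kap_smul_fderiv_aber' {u x v : E} (hv : inner ℝ v x = 0) :
    kap u x • fderiv ℝ (aber u) x v
      = v + (inner ℝ u v / (1 + gam u)) • u + inner ℝ u v • aber u x := by
  rw [kap_smul_fderiv_aber, real_inner_comm v x, hv, mul_zero, zero_sub, neg_smul,
    sub_neg_eq_add]

lemma aber_tangent' {u x v : E} (hx : x ∈ SS) (hv : inner ℝ v x = 0) :
    inner ℝ (v + (inner ℝ u v / (1 + gam u)) • u) (aber u x) = - inner ℝ u v := by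
  have h1 : (1 + gam u) ≠ 0 := by
    have := gam_pos u
    positivity
  have hk := (kap_pos u x).ne'
  have h2 : kap u x * inner ℝ (v + (inner ℝ u v / (1 + gam u)) • u) (aber u x)
      = kap u x * (- inner ℝ u v) := by
    rw [← real_inner_smul_right, kap_smul_aber, kap_of_mem hx]
    simp only [inner_add_left, inner_sub_right, real_inner_smul_left, real_inner_smul_right,
      inner_self_u, hv]
    rw [real_inner_comm u v]
    field_simp
    ring
  exact mul_left_cancel₀ hk h2

lemma aber_tangent {u x v : E} (hx : x ∈ SS) (hv : inner ℝ v x = 0) :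
    inner ℝ (fderiv ℝ (aber u) x v) (aber u x) = 0 := by
  have hk := (kap_pos u x).ne'
  have ha : ‖aber u x‖ = 1 := by simpa using aber_mem (u := u) hx
  have h2 : kap u x * inner ℝ (fderiv ℝ (aber u) x v) (aber u x) = 0 := by
    rw [← real_inner_smul_left, kap_smul_fderiv_aber' hv, inner_add_left, aber_tangent' hx hv,
      real_inner_smul_left, real_inner_self_eq_norm_sq, ha]
    ring
  exact (mul_eq_zero.mp h2).resolve_left hk

lemma aber_conformal {u x v w : E} (hx : x ∈ SS) (hv : inner ℝ v x = 0) (hw : inner ℝ w x = 0) :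
    inner ℝ (fderiv ℝ (aber u) x v) (fderiv ℝ (aber u) x w) = ((kap u x)⁻¹) ^ 2 * inner ℝ v w := by
  have hk := (kap_pos u x).ne'
  have hg : (1 + gam u) ≠ 0 := by
    have := gam_pos u
    positivity
  have ha : ‖aber u x‖ = 1 := by simpa using aber_mem (u := u) hx
  have h1 : kap u x * (kap u x * inner ℝ (fderiv ℝ (aber u) x v) (fderiv ℝ (aber u) x w))
      = inner ℝ v w := by
    rw [← real_inner_smul_left, ← real_inner_smul_right, kap_smul_fderiv_aber' hv]
    rw [inner_add_left]
    have e1 : inner ℝ (inner ℝ u v • aber u x) (kap u x • fderiv ℝ (aber u) x w) = 0 := by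
      rw [real_inner_smul_left, real_inner_smul_right, real_inner_comm (fderiv ℝ (aber u) x w),
        aber_tangent hx hw]
      ring
    rw [e1, add_zero, kap_smul_fderiv_aber' hw, inner_add_right, real_inner_smul_right,
      aber_tangent' hx hv]
    simp only [inner_add_left, inner_add_right, real_inner_smul_left, real_inner_smul_right,
      inner_self_u]
    rw [real_inner_comm u v]
    field_simp
    ring
  rw [← h1]
  field_simp

lemma aber_fderiv_inv {u x v : E} (hx : x ∈ SS) (hv : inner ℝ v x = 0) :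
    fderiv ℝ (aber (-u)) (aber u x) (fderiv ℝ (aber u) x v) = v := by
  have ha : DifferentiableAt ℝ (aber u) x := (contDiff_aber u).differentiable (by simp) x
  have hb : DifferentiableAt ℝ (aber (-u)) (aber u x) :=
    (contDiff_aber (-u)).differentiable (by simp) _
  have h1 : fderiv ℝ (fun y => aber (-u) (aber u y)) x v
      = fderiv ℝ (aber (-u)) (aber u x) (fderiv ℝ (aber u) x v) := by
    have : fderiv ℝ (fun y => aber (-u) (aber u y)) x
        = (fderiv ℝ (aber (-u)) (aber u x)).comp (fderiv ℝ (aber u) x) :=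
      fderiv_comp x hb ha
    rw [this]
    rfl
  have h2 : fderiv ℝ (fun y => aber (-u) (aber u y)) x v = fderiv ℝ (fun y : E => y) x v :=
    fderiv_tangent_congr hx hv (hb.comp x ha) differentiableAt_id (fun y hy => aber_aber hy)
  rw [← h1, h2]
  simp

theorem boostBasic (u : E) : BoostBasic u where
  mink_boost := boost_mink u
  smooth_kap := contDiff_kap u
  smooth_aber := contDiff_aber u
  kap_pos := kap_pos u
  aber_mem := fun _ hx => aber_mem hx
  aber_inv := fun _ hx => aber_aber hx
  kap_inv := fun _ hx => kap_inv hx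
  boost_ingoing := fun _ hx => boost_ingoing hx
  conformal := fun _ hx _ _ hv hw => aber_conformal hx hv hw
  tangent := fun _ hx _ hv => aber_tangent hx hv
  fderiv_inv := fun _ hx _ hv => aber_fderiv_inv hx hv

theorem BoostBasicProof : BoostBasic_Stmt := boostBasic

end Pool.Agent.NullShell
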