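import Pool.Agent.NullShell.Defs

/-!
# Lorentz boosts acting on null shells (definitions and statements)

`boost u` is the Lorentz boost mapping the four-velocity `(gam u, -u)` to `(1, 0)`. On the sphere
of null directions it acts by the aberration map `aber u`:
`boost u (ingoing x) = kap u x • ingoing (aber u x)` for `x` in the unit sphere.
-/

open MeasureTheory
open scoped ContDiff

namespace Pool.Agent.NullShell

/-- The Lorentz factor `√(1 + |u|²)`. -/
noncomputable def gam (u : E) : ℝ := Real.sqrt (1 + ‖u‖ ^ 2)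

/-- The Lorentz boost `(t, y) ↦ (γ t + ⟨u, y⟩, y + (t + ⟨u, y⟩ / (1 + γ)) u)`. -/
noncomputable def boost (u : E) : Mink →L[ℝ] Mink :=
  ContinuousLinearMap.prod
    (gam u • ContinuousLinearMap.fst ℝ ℝ E + (innerSL ℝ u).comp (ContinuousLinearMap.snd ℝ ℝ E))
    (ContinuousLinearMap.snd ℝ ℝ E +
      (ContinuousLinearMap.fst ℝ ℝ E +
        (1 + gam u)⁻¹ • (innerSL ℝ u).comp (ContinuousLinearMap.snd ℝ ℝ E)).smulRight u)

/-- The Doppler factor: on the unit sphere it is `γ - ⟨u, x⟩`; it is positive everywhere. -/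
noncomputable def kap (u x : E) : ℝ := gam u * ((1 + ‖x‖ ^ 2) / 2) - inner ℝ u x

/-- The aberration map. -/
noncomputable def aber (u x : E) : E :=
  (kap u x)⁻¹ • (x - (1 - inner ℝ u x / (1 + gam u)) • u)

/-- The boosted surface. -/
noncomputable def bX (u : E) (X : E → Mink) : E → Mink := fun y => boost u (X (aber (-u) y))

/-- The outgoing null normal of the boosted surface. -/
noncomputable def bl (u : E) (ℓ : E → Mink) : E → Mink :=
  fun y => (kap (-u) y)⁻¹ • boost u (ℓ (aber (-u) y))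

/-- The tangent frame transported by the aberration map. -/
noncomputable def be (u : E) (e : E → E) : E → E :=
  fun y => kap u (aber (-u) y) • fderiv ℝ (aber u) (aber (-u) y) (e (aber (-u) y))

/-- Algebra of the boost and of the aberration map. -/
structure BoostBasic (u : E) : Prop where
  mink_boost : ∀ p q : Mink, mink (boost u p) (boost u q) = mink p q
  smooth_kap : ContDiff ℝ ∞ (kap u)
  smooth_aber : ContDiff ℝ ∞ (aber u)
  kap_pos : ∀ x : E, 0 < kap u x
  aber_mem : ∀ x ∈ SS, aber u x ∈ SS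
  aber_inv : ∀ x ∈ SS, aber (-u) (aber u x) = x
  kap_inv : ∀ x ∈ SS, kap (-u) (aber u x) = (kap u x)⁻¹
  boost_ingoing : ∀ x ∈ SS, boost u (ingoing x) = kap u x • ingoing (aber u x)
  conformal : ∀ x ∈ SS, ∀ v w : E, inner ℝ v x = 0 → inner ℝ w x = 0 →
    inner ℝ (fderiv ℝ (aber u) x v) (fderiv ℝ (aber u) x w) = ((kap u x)⁻¹) ^ 2 * inner ℝ v w
  tangent : ∀ x ∈ SS, ∀ v : E, inner ℝ v x = 0 → inner ℝ (fderiv ℝ (aber u) x v) (aber u x) = 0
  fderiv_inv : ∀ x ∈ SS, ∀ v : E, inner ℝ v x = 0 →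
    fderiv ℝ (aber (-u)) (aber u x) (fderiv ℝ (aber u) x v) = v

/-- (helper33, `BoostBasic.lean`) -/
def BoostBasic_Stmt : Prop := ∀ u : E, BoostBasic u

/-- The aberration map changes the measure of the sphere by the factor `κ⁻²`.
(helper33, `BoostMeasure.lean`) -/
def BoostMeasure_Stmt : Prop := ∀ (u : E) (f : E → ℝ),
  (Integrable (fun x : SS => f x) sph →
    Integrable (fun x : SS => f (aber u x) * ((kap u x)⁻¹) ^ 2) sph) ∧
  ∫ x : SS, f (aber u x) * ((kap u x)⁻¹) ^ 2 ∂sph = ∫ x : SS, f x ∂sph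

/-- Transformation of surfaces, normals, area element and expansion.
(helper22, `BoostSurface.lean`: `theorem BoostSurface (hB : BoostBasic_Stmt) : BoostSurface_Stmt`) -/
def BoostSurface_Stmt : Prop := ∀ (u : E) (X ℓ : E → Mink) (e₁ e₂ : E → E),
  IsSurface X → IsOuterNormal X ℓ → IsTangentFrame e₁ e₂ →
  IsSurface (bX u X) ∧ IsOuterNormal (bX u X) (bl u ℓ) ∧ IsTangentFrame (be u e₁) (be u e₂) ∧
  ∀ x ∈ SS,
    areaElement (bX u X) (be u e₁) (be u e₂) (aber u x) = kap u x ^ 2 * areaElement X e₁ e₂ x ∧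
    expansion (bX u X) (bl u ℓ) (be u e₁) (be u e₂) (aber u x)
      = kap u x * expansion X ℓ e₁ e₂ x

/-- The covariant form: the four-momentum of the shell is timelike and future directed, and the
area is bounded by `16 π` times the square of the rest mass.
(helper33, `Covariant.lean`, from `Final_Stmt`) -/
def Covariant_Stmt : Prop := ∀ (X ℓ : E → Mink) (e₁ e₂ : E → E), IsSurface X →
  IsOuterNormal X ℓ → IsTangentFrame e₁ e₂ → ∀ ε : E → ℝ,
  Integrable (fun x : SS => ε x * areaElement X e₁ e₂ x) sph →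
  (∀ x ∈ SS, expansion X ℓ e₁ e₂ x - 16 * Real.pi * ε x ≤ 0) →
  ‖shellMomentum X e₁ e₂ ε‖ < shellEnergy X e₁ e₂ ε ∧
  Real.sqrt (area X e₁ e₂ / (16 * Real.pi)) ≤ shellMass X e₁ e₂ ε

end Pool.Agent.NullShell
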