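import Pool.Agent.NullShell.BoostBasic

/-! # The aberration map as a change of variables on the unit sphere -/

open MeasureTheory Set
open scoped ENNReal

namespace Pool.Agent.NullShell

/-- The spatial part of the boost of `(|y|, -y)`, up to the sign: `T y = y - (|y| - ⟨u,y⟩/(1+γ)) u`. -/
noncomputable def cone (u y : E) : E := y - (‖y‖ - inner ℝ u y / (1 + gam u)) • u

lemma boost_cone (u y : E) :
    boost u (‖y‖, -y) = (gam u * ‖y‖ - inner ℝ u y, -cone u y) := by
  ext1
  · rw [boost_fst]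
    simp [sub_eq_add_neg]
  · rw [boost_snd]
    simp only [inner_neg_right, cone, neg_div, ← sub_eq_add_neg]
    abel

lemma norm_cone (u y : E) : ‖cone u y‖ = gam u * ‖y‖ - inner ℝ u y := by
  have h1 := boost_mink u (‖y‖, -y) (‖y‖, -y)
  rw [boost_cone] at h1
  simp only [mink, inner_neg_left, inner_neg_right, neg_neg, real_inner_self_eq_norm_sq] at h1
  have h2 : 0 ≤ gam u * ‖y‖ - inner ℝ u y := by
    have h3 := real_inner_le_norm u y
    have h4 := norm_lt_gam u
    have h5 := norm_nonneg y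
    nlinarith
  have h3 := norm_nonneg (cone u y)
  nlinarith [sq_nonneg (‖cone u y‖ - (gam u * ‖y‖ - inner ℝ u y))]

lemma cone_cone (u y : E) : cone (-u) (cone u y) = y := by
  have h1 := boost_neg_boost u (‖y‖, -y)
  rw [boost_cone, ← norm_cone, boost_cone] at h1
  have h2 := congrArg Prod.snd h1
  simpa using h2

lemma cone_cone' (u y : E) : cone u (cone (-u) y) = y := by
  have := cone_cone (-u) y
  rwa [neg_neg] at this

lemma cone_zero (u : E) : cone u 0 = 0 := by
  simp [cone]

lemma cone_ne_zero {u y : E} (hy : y ≠ 0) : cone u y ≠ 0 := by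
  intro h
  apply hy
  rw [← cone_cone u y, h, cone_zero]

lemma cone_injOn (u : E) : InjOn (cone u) ({0}ᶜ : Set E) := by
  intro y _ z _ h
  rw [← cone_cone u y, h, cone_cone]

lemma cone_image (u : E) : cone u '' ({0}ᶜ : Set E) = ({0}ᶜ : Set E) := by
  ext y
  constructor
  · rintro ⟨z, hz, rfl⟩
    exact cone_ne_zero hz
  · intro hy
    exact ⟨cone (-u) y, cone_ne_zero hy, cone_cone' u y⟩

lemma cone_smul_of_mem {u x : E} (hx : x ∈ SS) {r : ℝ} (hr : 0 ≤ r) :
    cone u (r • x) = (r * kap u x) • aber u x := by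
  have hx' : ‖x‖ = 1 := by simpa using hx
  rw [mul_smul, kap_smul_aber, cone, norm_smul, hx', Real.norm_of_nonneg hr,
    real_inner_smul_right, smul_sub, smul_smul]
  congr 2
  ring

/-- The derivative of the cone map. -/
noncomputable def coneDeriv (u y : E) : E →L[ℝ] E :=
  ContinuousLinearMap.id ℝ E +
    ((1 + gam u)⁻¹ • innerSL ℝ u - ‖y‖⁻¹ • innerSL ℝ y).smulRight u

lemma cone_hasFDerivAt {u y : E} (hy : y ≠ 0) : HasFDerivAt (cone u) (coneDeriv u y) y := by
  have h0 : HasFDerivAt (fun z : E => ‖z‖ ^ 2) (2 • innerSL ℝ y) y :=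
    (hasStrictFDerivAt_norm_sq y).hasFDerivAt
  have hn : ‖y‖ ≠ 0 := by simpa using hy
  have h1 : HasFDerivAt (fun z : E => ‖z‖) (‖y‖⁻¹ • innerSL ℝ y) y := by
    have h2 := h0.sqrt (by positivity)
    have h3 : (fun z : E => Real.sqrt (‖z‖ ^ 2)) = fun z : E => ‖z‖ := by
      funext z
      exact Real.sqrt_sq (norm_nonneg z)
    rw [h3, Real.sqrt_sq (norm_nonneg y)] at h2
    have h4 : (1 / (2 * ‖y‖)) • 2 • (innerSL ℝ) y = ‖y‖⁻¹ • (innerSL ℝ) y := by
      ext v
      simp
      field_simp
    rwa [h4] at h2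
  have h2 : HasFDerivAt (fun z : E => inner ℝ u z) (innerSL ℝ u) y := (innerSL ℝ u).hasFDerivAt
  have h6 := (hasFDerivAt_id y).add
    (((h2.const_mul (1 + gam u)⁻¹).sub h1).smul_const u)
  refine h6.congr_of_eventuallyEq (Filter.Eventually.of_forall fun z => ?_)
  simp only [id, Pi.add_apply, cone, Pi.sub_apply]
  rw [div_eq_inv_mul, sub_smul, sub_smul]
  abel

lemma coneDeriv_det {u y : E} (hy : y ≠ 0) :
    (coneDeriv u y).det = kap u (‖y‖⁻¹ • y) := by
  have hn : ‖y‖ ≠ 0 := by simpa using hy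
  have hmem : ‖y‖⁻¹ • y ∈ SS := by
    simp [norm_smul, hn]
  have h1 : (1 + gam u) ≠ 0 := by
    have := gam_pos u
    positivity
  have h2 : ((coneDeriv u y : E →L[ℝ] E) : E →ₗ[ℝ] E) = LinearMap.transvection
      (((1 + gam u)⁻¹ • innerSL ℝ u - ‖y‖⁻¹ • innerSL ℝ y : E →L[ℝ] ℝ) : E →ₗ[ℝ] ℝ) u := by
    ext1 v
    simp [coneDeriv, LinearMap.transvection.apply]
  unfold ContinuousLinearMap.det
  rw [h2, LinearMap.transvection.det, kap_of_mem hmem]
  simp only [ContinuousLinearMap.coe_coe, sub_apply, smul_apply, innerSL_apply_apply, smul_eq_mul, inner_self_u,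
    real_inner_smul_right]
  rw [real_inner_comm u y]
  field_simp
  ring

/-- Integration in spherical coordinates over a star shaped domain. -/
lemma polar_lintegral {g : E → ℝ≥0∞} (hg : Measurable g) {ρ : E → ℝ} (hρ : Measurable ρ)
    (hpos : ∀ x ∈ SS, 0 < ρ x) :
    ∫⁻ y in ({0}ᶜ : Set E), (if ‖y‖ < ρ (‖y‖⁻¹ • y) then g (‖y‖⁻¹ • y) else 0)
      = ∫⁻ x : SS, g x * ENNReal.ofReal (ρ x ^ 3 / 3) ∂sph := by
  have hdim : Module.finrank ℝ E - 1 = 2 := by simp
  have hmp := Measure.measurePreserving_homeomorphUnitSphereProd (volume : Measure E)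
  rw [hdim] at hmp
  rw [← lintegral_subtype_comap (measurableSet_singleton (0 : E)).compl]
  set F : SS × Ioi (0 : ℝ) → ℝ≥0∞ :=
    fun p => if p.2.1 < ρ (p.1 : E) then g (p.1 : E) else 0 with hF
  have h1 : ∀ y : ({0}ᶜ : Set E), (if ‖(y : E)‖ < ρ (‖(y : E)‖⁻¹ • (y : E)) then
      g (‖(y : E)‖⁻¹ • (y : E)) else 0) = F (homeomorphUnitSphereProd E y) := by
    intro y
    simp [hF, homeomorphUnitSphereProd_apply_fst_coe, homeomorphUnitSphereProd_apply_snd_coe]
  rw [lintegral_congr h1,
    hmp.lintegral_comp_emb (Homeomorph.measurableEmbedding _)]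
  have hFm : Measurable F := by
    apply Measurable.ite
    · exact measurableSet_lt (measurable_subtype_coe.comp measurable_snd)
        (hρ.comp (measurable_subtype_coe.comp measurable_fst))
    · exact hg.comp (measurable_subtype_coe.comp measurable_fst)
    · exact measurable_const
  rw [lintegral_prod _ hFm.aemeasurable]
  refine lintegral_congr fun x => ?_
  have hρx := hpos x x.2
  have h2 : ∀ r : Ioi (0 : ℝ), F (x, r) = (Iio (⟨ρ x, hρx⟩ : Ioi (0 : ℝ))).indicator
      (fun _ => g x) r := by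
    intro r
    simp only [hF, indicator, mem_Iio]
    congr 1
  rw [lintegral_congr h2, lintegral_indicator measurableSet_Iio, lintegral_const,
    Measure.restrict_apply_univ, Measure.volumeIoiPow_apply_Iio]
  norm_num

/-- The aberration map changes the measure of the sphere by the factor `κ⁻²`: version for the
lower integral. -/
lemma lintegral_aber (u : E) {g : E → ℝ≥0∞} (hg : Measurable g) :
    ∫⁻ x : SS, g (aber u x) * ENNReal.ofReal (((kap u x)⁻¹) ^ 2) ∂sph = ∫⁻ x : SS, g x ∂sph := by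
  have hmk : Measurable (kap u) := (contDiff_kap u).continuous.measurable
  have hma : Measurable (aber u) := (contDiff_aber u).continuous.measurable
  -- the right hand side
  have hR := polar_lintegral hg (ρ := fun _ => 1) measurable_const (fun _ _ => one_pos)
  -- the left hand side
  have hL := polar_lintegral
    (g := fun x => ENNReal.ofReal (kap u x) * g (aber u x))
    ((ENNReal.measurable_ofReal.comp hmk).mul (hg.comp hma))
    (ρ := fun x => (kap u x)⁻¹) hmk.inv (fun x _ => inv_pos.mpr (kap_pos u x))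
  have hchange := lintegral_image_eq_lintegral_abs_det_fderiv_mul (volume : Measure E)
    (measurableSet_singleton (0 : E)).compl
    (fun y hy => (cone_hasFDerivAt (u := u) hy).hasFDerivWithinAt) (cone_injOn u)
    (fun y => if ‖y‖ < 1 then g (‖y‖⁻¹ • y) else 0)
  rw [cone_image] at hchange
  have hEq : ∫⁻ y in ({0}ᶜ : Set E), ENNReal.ofReal |(coneDeriv u y).det| *
      (if ‖cone u y‖ < 1 then g (‖cone u y‖⁻¹ • cone u y) else 0)
      = ∫⁻ y in ({0}ᶜ : Set E), (if ‖y‖ < (kap u (‖y‖⁻¹ • y))⁻¹ then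
        ENNReal.ofReal (kap u (‖y‖⁻¹ • y)) * g (aber u (‖y‖⁻¹ • y)) else 0) := by
    refine setLIntegral_congr_fun (measurableSet_singleton (0 : E)).compl fun y hy => ?_
    have hn : ‖y‖ ≠ 0 := by simpa using hy
    have hn' : 0 < ‖y‖ := by positivity
    have hmem : ‖y‖⁻¹ • y ∈ SS := by
      simp [norm_smul, hn]
    have hk := kap_pos u (‖y‖⁻¹ • y)
    have h1 : cone u y = (‖y‖ * kap u (‖y‖⁻¹ • y)) • aber u (‖y‖⁻¹ • y) := by
      rw [← cone_smul_of_mem hmem hn'.le, smul_inv_smul₀ hn]
    have ha : ‖aber u (‖y‖⁻¹ • y)‖ = 1 := by simpa using aber_mem (u := u) hmem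
    have h2 : ‖cone u y‖ = ‖y‖ * kap u (‖y‖⁻¹ • y) := by
      rw [h1, norm_smul, ha, mul_one, Real.norm_of_nonneg (by positivity)]
    have h3 : ‖cone u y‖⁻¹ • cone u y = aber u (‖y‖⁻¹ • y) := by
      rw [h2, h1, inv_smul_smul₀ (by positivity)]
    have h4 : (‖cone u y‖ < 1) ↔ ‖y‖ < (kap u (‖y‖⁻¹ • y))⁻¹ := by
      rw [h2, lt_inv_comm₀ hn' hk, ← one_div, lt_div_iff₀ hn', mul_comm]
    simp only [coneDeriv_det hy, abs_of_pos hk, h3, h4]
    split_ifs <;> simp
  rw [hEq, hL, hR] at hchange
  have hc1 : ∫⁻ x : SS, g x * ENNReal.ofReal ((1:ℝ) ^ 3 / 3) ∂sph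
      = (∫⁻ x : SS, g x ∂sph) * ENNReal.ofReal (1 / 3) := by
    rw [lintegral_mul_const]
    · norm_num
    · exact hg.comp measurable_subtype_coe
  have hc2 : ∫⁻ x : SS, ENNReal.ofReal (kap u x) * g (aber u x) *
      ENNReal.ofReal (((kap u x)⁻¹) ^ 3 / 3) ∂sph
      = (∫⁻ x : SS, g (aber u x) * ENNReal.ofReal (((kap u x)⁻¹) ^ 2) ∂sph)
        * ENNReal.ofReal (1 / 3) := by
    rw [← lintegral_mul_const]
    · refine lintegral_congr fun x => ?_
      have hk := kap_pos u x
      rw [mul_comm (ENNReal.ofReal (kap u x)), mul_assoc, mul_assoc,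
        ← ENNReal.ofReal_mul hk.le, ← ENNReal.ofReal_mul (by positivity)]
      congr 2
      field_simp
    · exact ((hg.comp hma).comp measurable_subtype_coe).mul
        (ENNReal.measurable_ofReal.comp ((hmk.inv.pow_const 2).comp measurable_subtype_coe))
  rw [hc1, hc2] at hchange
  have h3 : ENNReal.ofReal (1 / 3) ≠ 0 := by simp
  have h4 : ENNReal.ofReal (1 / 3) ≠ ∞ := ENNReal.ofReal_ne_top
  exact ((ENNReal.mul_left_inj h3 h4).mp hchange).symm

/-- The aberration homeomorphism of the sphere. -/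
noncomputable def aberHomeo (u : E) : SS ≃ₜ SS where
  toFun x := ⟨aber u x, aber_mem x.2⟩
  invFun x := ⟨aber (-u) x, aber_mem x.2⟩
  left_inv x := by
    ext1
    exact aber_aber x.2
  right_inv x := by
    ext1
    have := aber_aber (u := -u) x.2
    rwa [neg_neg] at this
  continuous_toFun := by
    exact ((contDiff_aber u).continuous.comp continuous_subtype_val).subtype_mk _
  continuous_invFun := by
    exact ((contDiff_aber (-u)).continuous.comp continuous_subtype_val).subtype_mk _

lemma aberHomeo_apply (u : E) (x : SS) : ((aberHomeo u x : SS) : E) = aber u x := rfl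

lemma measurePreserving_aber (u : E) :
    MeasurePreserving (aberHomeo u)
      (sph.withDensity fun x => ENNReal.ofReal (((kap u x)⁻¹) ^ 2)) sph := by
  refine ⟨(aberHomeo u).measurable, ?_⟩
  ext A hA
  rw [Measure.map_apply (aberHomeo u).measurable hA,
    withDensity_apply _ ((aberHomeo u).measurable hA)]
  obtain ⟨A', hA', rfl⟩ := hA
  have h1 := lintegral_aber u (g := A'.indicator (fun _ => 1)) (measurable_one.indicator hA')
  have h2 : ∫⁻ x : SS, A'.indicator (fun _ => (1 : ℝ≥0∞)) (x : E) ∂sph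
      = sph ((Subtype.val : SS → E) ⁻¹' A') := by
    have : ∀ x : SS, A'.indicator (fun _ => (1 : ℝ≥0∞)) (x : E)
        = ((Subtype.val : SS → E) ⁻¹' A').indicator 1 x := by
      intro x
      by_cases hx : (x : E) ∈ A'
      · have h : x ∈ (Subtype.val : SS → E) ⁻¹' A' := hx
        rw [indicator_of_mem hx, indicator_of_mem h]
        rfl
      · have h : x ∉ (Subtype.val : SS → E) ⁻¹' A' := hx
        rw [indicator_of_notMem hx, indicator_of_notMem h]
    rw [lintegral_congr this, lintegral_indicator_one (measurable_subtype_coe hA')]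
  have h3 : ∫⁻ x : SS, A'.indicator (fun _ => (1 : ℝ≥0∞)) (aber u x) *
      ENNReal.ofReal (((kap u x)⁻¹) ^ 2) ∂sph
      = ∫⁻ x in (aberHomeo u) ⁻¹' ((Subtype.val : SS → E) ⁻¹' A'),
        ENNReal.ofReal (((kap u x)⁻¹) ^ 2) ∂sph := by
    rw [← lintegral_indicator ((aberHomeo u).measurable (measurable_subtype_coe hA'))]
    refine lintegral_congr fun x => ?_
    by_cases hx : aber u x ∈ A'
    · have : x ∈ (aberHomeo u) ⁻¹' ((Subtype.val : SS → E) ⁻¹' A') := hx
      simp [indicator_of_mem this, hx]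
    · have : x ∉ (aberHomeo u) ⁻¹' ((Subtype.val : SS → E) ⁻¹' A') := hx
      simp [indicator_of_notMem this, hx]
  rw [← h3, h1, h2]

theorem BoostMeasure : BoostMeasure_Stmt := by
  intro u f
  have hm : Measurable (fun x : SS => ENNReal.ofReal (((kap u x)⁻¹) ^ 2)) := by
    have hmk : Measurable (kap u) := (contDiff_kap u).continuous.measurable
    exact ENNReal.measurable_ofReal.comp ((hmk.inv.pow_const 2).comp measurable_subtype_coe)
  have hlt : ∀ᵐ x : SS ∂sph, ENNReal.ofReal (((kap u (x : E))⁻¹) ^ 2) < ∞ :=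
    Filter.Eventually.of_forall fun x => ENNReal.ofReal_lt_top
  have hmp := measurePreserving_aber u
  have hto : ∀ x : SS, (ENNReal.ofReal (((kap u (x : E))⁻¹) ^ 2)).toReal • f (aber u x)
      = f (aber u x) * ((kap u x)⁻¹) ^ 2 := by
    intro x
    rw [ENNReal.toReal_ofReal (by positivity), smul_eq_mul, mul_comm]
  constructor
  · intro hf
    have h1 := (hmp.integrable_comp_emb (aberHomeo u).measurableEmbedding).mpr hf
    rw [integrable_withDensity_iff_integrable_smul' hm hlt] at h1
    refine h1.congr (Filter.Eventually.of_forall fun x => ?_)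
    exact hto x
  · have h1 := hmp.integral_comp (aberHomeo u).measurableEmbedding (fun x : SS => f x)
    rw [integral_withDensity_eq_integral_toReal_smul hm hlt] at h1
    rw [← h1]
    exact (integral_congr_ae (Filter.Eventually.of_forall hto)).symm

end Pool.Agent.NullShell
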