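import Pool.Agent.NullShell.BoostBasic

/-! # Transformation of surfaces, normals, area element and expansion under a boost (helper92) -/

open MeasureTheory
open scoped ContDiff

namespace Pool.Agent.NullShell

lemma bs_mink_smul_left (a : ℝ) (p q : Mink) : mink (a • p) q = a * mink p q := by
  simp only [mink, Prod.smul_fst, Prod.smul_snd, real_inner_smul_left, smul_eq_mul]
  ring

lemma bs_mink_smul_right (a : ℝ) (p q : Mink) : mink p (a • q) = a * mink p q := by
  simp only [mink, Prod.smul_fst, Prod.smul_snd, real_inner_smul_right, smul_eq_mul]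
  ring

lemma bs_mink_add_left (p p' q : Mink) : mink (p + p') q = mink p q + mink p' q := by
  simp only [mink, Prod.fst_add, Prod.snd_add, inner_add_left]
  ring

lemma bs_mink_add_right (p q q' : Mink) : mink p (q + q') = mink p q + mink p q' := by
  simp only [mink, Prod.fst_add, Prod.snd_add, inner_add_right]
  ring

lemma bs_mink_comm (p q : Mink) : mink p q = mink q p := by
  simp only [mink]
  rw [real_inner_comm]
  ring

/-- points of the sphere are of the form `aber u x` -/
lemma bs_exists (u : E) {y : E} (hy : y ∈ SS) : ∃ x ∈ SS, aber u x = y ∧ aber (-u) y = x := by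
  refine ⟨aber (-u) y, aber_mem hy, ?_, rfl⟩
  have := aber_aber (u := -u) hy
  rwa [neg_neg] at this

lemma bs_ingoing {u x : E} (hx : x ∈ SS) :
    ingoing (aber u x) = (kap u x)⁻¹ • boost u (ingoing x) := by
  rw [boost_ingoing hx, inv_smul_smul₀ (kap_pos u x).ne']

/-- the derivative of the inverse aberration map at `aber u x` -/
lemma bs_inv_tangent {u x w : E} (hx : x ∈ SS) (hw : inner ℝ w (aber u x) = 0) :
    inner ℝ (fderiv ℝ (aber (-u)) (aber u x) w) x = 0 := by
  have h := aber_tangent (u := -u) (aber_mem (u := u) hx) hw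
  rwa [aber_aber hx] at h

lemma bs_fderiv_inv {u x w : E} (hx : x ∈ SS) (hw : inner ℝ w (aber u x) = 0) :
    fderiv ℝ (aber u) x (fderiv ℝ (aber (-u)) (aber u x) w) = w := by
  have h := aber_fderiv_inv (u := -u) (aber_mem (u := u) hx) hw
  rwa [aber_aber hx, neg_neg] at h

lemma bs_fderiv_bX {u x w : E} {X : E → Mink} (hx : x ∈ SS) (hX : DifferentiableAt ℝ X x) :
    DifferentiableAt ℝ (bX u X) (aber u x) ∧
    fderiv ℝ (bX u X) (aber u x) w
      = boost u (fderiv ℝ X x (fderiv ℝ (aber (-u)) (aber u x) w)) := by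
  have ha : DifferentiableAt ℝ (aber (-u)) (aber u x) :=
    (contDiff_aber (-u)).differentiable (by simp) _
  have hX' : HasFDerivAt X (fderiv ℝ X x) (aber (-u) (aber u x)) := by
    rw [aber_aber hx]
    exact hX.hasFDerivAt
  have h1 : HasFDerivAt (bX u X)
      ((boost u).comp ((fderiv ℝ X x).comp (fderiv ℝ (aber (-u)) (aber u x)))) (aber u x) :=
    (boost u).hasFDerivAt.comp _ (hX'.comp _ ha.hasFDerivAt)
  refine ⟨h1.differentiableAt, ?_⟩
  rw [h1.fderiv]
  rfl

lemma bs_fderiv_ingoing (y w : E) :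
    DifferentiableAt ℝ (fun z : E => ingoing z) y ∧
    fderiv ℝ (fun z : E => ingoing z) y w = ((0 : ℝ), -w) := by
  have h1 : HasFDerivAt (fun z : E => ingoing z)
      ((0 : E →L[ℝ] ℝ).prod (-(ContinuousLinearMap.id ℝ E))) y := by
    unfold ingoing
    exact (hasFDerivAt_const (1 : ℝ) y).prodMk (hasFDerivAt_id y).neg
  refine ⟨h1.differentiableAt, ?_⟩
  rw [h1.fderiv]
  simp

lemma bs_fderiv_sub {X : E → Mink} {y : E} (hX : DifferentiableAt ℝ X y) (r : ℝ) (w : E) :
    fderiv ℝ (fun z => X z - r • ingoing z) y w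
      = fderiv ℝ X y w + (-r) • ((0 : ℝ), -w) := by
  have h1 := (bs_fderiv_ingoing y w)
  have h2 : fderiv ℝ (fun z => X z - r • ingoing z) y
      = fderiv ℝ X y - r • fderiv ℝ (fun z : E => ingoing z) y := by
    have h3 : HasFDerivAt (fun z => X z - r • ingoing z)
        (fderiv ℝ X y - r • fderiv ℝ (fun z : E => ingoing z) y) y :=
      hX.hasFDerivAt.sub (h1.1.hasFDerivAt.const_smul r)
    exact h3.fderiv
  rw [h2]
  show fderiv ℝ X y w - r • fderiv ℝ (fun z : E => ingoing z) y w = _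
  rw [h1.2, neg_smul, ← sub_eq_add_neg]

/-- the vector `(0, -G v)` in terms of the boost -/
lemma bs_zero_neg {u x v : E} (hx : x ∈ SS) (hv : inner ℝ v x = 0) :
    ((0 : ℝ), -(fderiv ℝ (aber u) x v))
      = (kap u x)⁻¹ • boost u ((0 : ℝ), -v)
        + ((kap u x)⁻¹ * (kap u x)⁻¹ * inner ℝ u v) • boost u (ingoing x) := by
  have hk := (kap_pos u x).ne'
  have h1 := kap_smul_fderiv_aber' (u := u) hv
  have h2 : fderiv ℝ (aber u) x v = (kap u x)⁻¹ • (v + (inner ℝ u v / (1 + gam u)) • u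
      + inner ℝ u v • aber u x) := by
    rw [← h1, inv_smul_smul₀ hk]
  rw [h2, boost_ingoing hx]
  ext1
  · simp only [Prod.fst_add, Prod.smul_fst, smul_eq_mul, boost_fst, ingoing, inner_neg_right]
    field_simp
    ring
  · simp only [Prod.snd_add, Prod.smul_snd, boost_snd, ingoing, inner_neg_right]
    rw [zero_add, smul_smul, ← smul_neg]
    have e1 : (kap u x)⁻¹ * (kap u x)⁻¹ * inner ℝ u v * kap u x = (kap u x)⁻¹ * inner ℝ u v := by
      field_simp
    rw [e1, mul_smul, ← smul_add]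
    congr 1
    rw [neg_div, neg_smul, smul_neg]
    abel

lemma bs_isSurface {u : E} {X : E → Mink} (hX : IsSurface X) : IsSurface (bX u X) := by
  refine ⟨?_, ?_, ?_⟩
  · intro y hy
    obtain ⟨x, hx, h1, h2⟩ := bs_exists u hy
    have h3 : ContDiffAt ℝ ∞ X (aber (-u) y) := by
      rw [h2]
      exact hX.smooth x hx
    exact (boost u).contDiff.contDiffAt.comp y
      (h3.comp y (contDiff_aber (-u)).contDiffAt)
  · intro y hy w hw
    obtain ⟨x, hx, h1, h2⟩ := bs_exists u hy
    subst h1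
    have hd := (hX.smooth x hx).differentiableAt (by simp)
    rw [(bs_fderiv_bX (u := u) (w := w) hx hd).2, bs_ingoing hx, bs_mink_smul_right, boost_mink,
      hX.normal x hx _ (bs_inv_tangent hx hw), mul_zero]
  · intro r hr y hy w hw hw0
    obtain ⟨x, hx, h1, h2⟩ := bs_exists u hy
    subst h1
    have hd := (hX.smooth x hx).differentiableAt (by simp)
    have hdb := bs_fderiv_bX (u := u) (w := w) hx hd
    rw [bs_fderiv_sub hdb.1, hdb.2]
    have hv := bs_inv_tangent hx hw
    have hGv := bs_fderiv_inv hx hw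
    set v := fderiv ℝ (aber (-u)) (aber u x) w with hvdef
    have hv0 : v ≠ 0 := by
      intro h0
      apply hw0
      rw [← hGv, h0, map_zero]
    have hk := kap_pos u x
    have h3 := bs_zero_neg (u := u) hx hv
    rw [hGv] at h3
    have h4 : boost u (fderiv ℝ X x v) + (-r) • ((0 : ℝ), -w)
        = boost u ((fderiv ℝ X x v + (-(r * (kap u x)⁻¹)) • ((0 : ℝ), -v))
          + (-(r * ((kap u x)⁻¹ * (kap u x)⁻¹ * inner ℝ u v))) • ingoing x) := by
      rw [h3, map_add, map_add, map_smul, map_smul, smul_add, smul_smul, smul_smul, add_assoc]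
      congr 1
      congr 1
      · congr 1
        ring
      · congr 1
        ring
    rw [h4, boost_mink]
    have h5 := hX.regular (r * (kap u x)⁻¹) (by positivity) x hx v hv hv0
    rw [bs_fderiv_sub hd] at h5
    have h6 : mink (fderiv ℝ X x v) (ingoing x) = 0 := hX.normal x hx v hv
    have h7 : mink ((0 : ℝ), -v) (ingoing x) = 0 := by
      simp [mink, ingoing, hv]
    have h8 : mink (ingoing x) (ingoing x) = 0 := by
      have : ‖x‖ = 1 := by simpa using hx
      rw [mink_ingoing_self, this]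
      norm_num
    have h9 : mink (fderiv ℝ X x v + (-(r * (kap u x)⁻¹)) • ((0 : ℝ), -v)) (ingoing x) = 0 := by
      rw [bs_mink_add_left, bs_mink_smul_left, h6, h7]
      ring
    have h10 : ∀ (A : Mink) (b : ℝ), mink A (ingoing x) = 0 →
        mink (A + b • ingoing x) (A + b • ingoing x) = mink A A := by
      intro A b h9
      rw [bs_mink_add_left, bs_mink_add_right, bs_mink_add_right, bs_mink_smul_right,
        bs_mink_smul_left, bs_mink_smul_left, bs_mink_smul_right, bs_mink_comm (ingoing x) A, h9,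
        h8]
      ring
    rw [h10 _ _ h9]
    exact h5

lemma bs_isOuterNormal {u : E} {X ℓ : E → Mink} (hX : IsSurface X) (hl : IsOuterNormal X ℓ) :
    IsOuterNormal (bX u X) (bl u ℓ) := by
  refine ⟨?_, ?_, ?_, ?_⟩
  · intro y hy
    obtain ⟨x, hx, h1, h2⟩ := bs_exists u hy
    have h3 : ContDiffAt ℝ ∞ ℓ (aber (-u) y) := by
      rw [h2]
      exact hl.smooth x hx
    have h4 : ContDiffAt ℝ ∞ (fun z : E => boost u (ℓ (aber (-u) z))) y :=
      (boost u).contDiff.contDiffAt.comp y (h3.comp y (contDiff_aber (-u)).contDiffAt)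
    have h5 : ContDiffAt ℝ ∞ (fun z : E => (kap (-u) z)⁻¹) y :=
      ((contDiff_kap (-u)).inv (fun z => (kap_pos (-u) z).ne')).contDiffAt
    exact h5.smul h4
  · intro y hy
    obtain ⟨x, hx, h1, h2⟩ := bs_exists u hy
    unfold bl
    rw [bs_mink_smul_left, bs_mink_smul_right, boost_mink, h2, hl.null x hx]
    ring
  · intro y hy
    obtain ⟨x, hx, h1, h2⟩ := bs_exists u hy
    subst h1
    unfold bl
    rw [bs_ingoing hx, bs_mink_smul_left, bs_mink_smul_right, boost_mink, h2,
      hl.normalized x hx, kap_inv hx]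
    have := (kap_pos u x).ne'
    field_simp
  · intro y hy w hw
    obtain ⟨x, hx, h1, h2⟩ := bs_exists u hy
    subst h1
    have hd := (hX.smooth x hx).differentiableAt (by simp)
    rw [(bs_fderiv_bX (u := u) (w := w) hx hd).2]
    unfold bl
    rw [bs_mink_smul_right, boost_mink, h2, hl.normal x hx _ (bs_inv_tangent hx hw), mul_zero]

lemma bs_be {u x : E} (e : E → E) (hx : x ∈ SS) :
    be u e (aber u x) = kap u x • fderiv ℝ (aber u) x (e x) := by
  unfold be
  rw [aber_aber hx]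

lemma bs_be_inner {u x : E} (e e' : E → E) (hx : x ∈ SS) (he : inner ℝ (e x) x = 0)
    (he' : inner ℝ (e' x) x = 0) :
    inner ℝ (be u e (aber u x)) (be u e' (aber u x)) = inner ℝ (e x) (e' x) := by
  rw [bs_be e hx, bs_be e' hx, real_inner_smul_left, real_inner_smul_right,
    aber_conformal hx he he']
  have := (kap_pos u x).ne'
  field_simp

lemma bs_isTangentFrame {u : E} {e₁ e₂ : E → E} (he : IsTangentFrame e₁ e₂) :
    IsTangentFrame (be u e₁) (be u e₂) := by
  have hn : ∀ e : E → E, (∀ x ∈ SS, ‖e x‖ = 1) → (∀ x ∈ SS, inner ℝ (e x) x = 0) →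
      ∀ y ∈ SS, ‖be u e y‖ = 1 := by
    intro e h1 h2 y hy
    obtain ⟨x, hx, h3, h4⟩ := bs_exists u hy
    subst h3
    have h5 := bs_be_inner (u := u) e e hx (h2 x hx) (h2 x hx)
    rw [real_inner_self_eq_norm_sq, real_inner_self_eq_norm_sq, h1 x hx] at h5
    have := norm_nonneg (be u e (aber u x))
    nlinarith
  have ht : ∀ e : E → E, (∀ x ∈ SS, inner ℝ (e x) x = 0) →
      ∀ y ∈ SS, inner ℝ (be u e y) y = 0 := by
    intro e h2 y hy
    obtain ⟨x, hx, h3, h4⟩ := bs_exists u hy
    subst h3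
    rw [bs_be e hx, real_inner_smul_left, aber_tangent hx (h2 x hx), mul_zero]
  refine ⟨hn e₁ he.norm₁ he.tan₁, hn e₂ he.norm₂ he.tan₂, ?_, ht e₁ he.tan₁, ht e₂ he.tan₂⟩
  intro y hy
  obtain ⟨x, hx, h3, h4⟩ := bs_exists u hy
  subst h3
  rw [bs_be_inner e₁ e₂ hx (he.tan₁ x hx) (he.tan₂ x hx), he.orth x hx]

lemma bs_fderiv_be {u x : E} {X : E → Mink} (e : E → E) (hx : x ∈ SS)
    (he : inner ℝ (e x) x = 0) (hX : DifferentiableAt ℝ X x) :
    fderiv ℝ (bX u X) (aber u x) (be u e (aber u x)) = kap u x • boost u (fderiv ℝ X x (e x)) := by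
  rw [(bs_fderiv_bX (u := u) hx hX).2, bs_be e hx, map_smul, aber_fderiv_inv hx he, map_smul,
    map_smul]

lemma bs_firstForm {u x : E} {X : E → Mink} (e e' : E → E) (hx : x ∈ SS)
    (he : inner ℝ (e x) x = 0) (he' : inner ℝ (e' x) x = 0) (hX : DifferentiableAt ℝ X x) :
    firstForm (bX u X) (aber u x) (be u e (aber u x)) (be u e' (aber u x))
      = kap u x ^ 2 * firstForm X x (e x) (e' x) := by
  unfold firstForm
  rw [bs_fderiv_be e hx he hX, bs_fderiv_be e' hx he' hX, bs_mink_smul_left, bs_mink_smul_right,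
    boost_mink]
  ring

lemma bs_secondForm {u x : E} {X ℓ : E → Mink} (e e' : E → E) (hx : x ∈ SS)
    (he : inner ℝ (e x) x = 0) (he' : inner ℝ (e' x) x = 0) (hX : IsSurface X)
    (hl : IsOuterNormal X ℓ) :
    secondForm (bX u X) (bl u ℓ) (aber u x) (be u e (aber u x)) (be u e' (aber u x))
      = kap u x ^ 3 * secondForm X ℓ x (e x) (e' x) := by
  have hd := (hX.smooth x hx).differentiableAt (by simp)
  have hdl := (hl.smooth x hx).differentiableAt (by simp)
  unfold secondForm
  rw [bs_fderiv_be e' hx he' hd]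
  have h1 := bs_fderiv_bX (u := u) (X := ℓ) (w := be u e (aber u x)) hx hdl
  have hk : DifferentiableAt ℝ (fun z : E => (kap (-u) z)⁻¹) (aber u x) :=
    ((contDiff_kap (-u)).inv (fun z => (kap_pos (-u) z).ne')).differentiable (by simp) _
  have h2 : fderiv ℝ (bl u ℓ) (aber u x) (be u e (aber u x))
      = (kap (-u) (aber u x))⁻¹ • fderiv ℝ (bX u ℓ) (aber u x) (be u e (aber u x))
        + (fderiv ℝ (fun z : E => (kap (-u) z)⁻¹) (aber u x) (be u e (aber u x))) •
          bX u ℓ (aber u x) := by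
    have h3 : fderiv ℝ (fun z : E => (kap (-u) z)⁻¹ • bX u ℓ z) (aber u x) = _ :=
      (hk.hasFDerivAt.smul h1.1.hasFDerivAt).fderiv
    have h4 : (bl u ℓ) = fun z : E => (kap (-u) z)⁻¹ • bX u ℓ z := rfl
    rw [h4, h3]
    simp
  rw [h2, bs_fderiv_be e hx he hdl, bs_mink_add_left, bs_mink_smul_left, bs_mink_smul_left,
    bs_mink_smul_left, bs_mink_smul_right, bs_mink_smul_right, boost_mink]
  have h5 : mink (bX u ℓ (aber u x)) (boost u (fderiv ℝ X x (e' x))) = 0 := by
    unfold bX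
    rw [boost_mink, aber_aber hx, bs_mink_comm]
    exact hl.normal x hx _ he'
  rw [h5, kap_inv hx, inv_inv]
  ring

theorem BoostSurface : BoostSurface_Stmt := by
  intro u X ℓ e₁ e₂ hX hl he
  refine ⟨bs_isSurface hX, bs_isOuterNormal hX hl, bs_isTangentFrame he, ?_⟩
  intro x hx
  have hd := (hX.smooth x hx).differentiableAt (by simp)
  have t1 := he.tan₁ x hx
  have t2 := he.tan₂ x hx
  have hk := kap_pos u x
  constructor
  · unfold areaElement
    rw [bs_firstForm e₁ e₁ hx t1 t1 hd, bs_firstForm e₂ e₂ hx t2 t2 hd,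
      bs_firstForm e₁ e₂ hx t1 t2 hd]
    have h1 : kap u x ^ 2 * firstForm X x (e₁ x) (e₁ x) * (kap u x ^ 2 * firstForm X x (e₂ x) (e₂ x))
        - (kap u x ^ 2 * firstForm X x (e₁ x) (e₂ x)) ^ 2
        = (kap u x ^ 2) ^ 2 * (firstForm X x (e₁ x) (e₁ x) * firstForm X x (e₂ x) (e₂ x)
          - firstForm X x (e₁ x) (e₂ x) ^ 2) := by
      ring
    rw [h1, Real.sqrt_mul (by positivity), Real.sqrt_sq (by positivity)]
  · unfold expansion
    rw [bs_firstForm e₁ e₁ hx t1 t1 hd, bs_firstForm e₂ e₂ hx t2 t2 hd,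
      bs_firstForm e₁ e₂ hx t1 t2 hd, bs_secondForm e₁ e₁ hx t1 t1 hX hl,
      bs_secondForm e₁ e₂ hx t1 t2 hX hl, bs_secondForm e₂ e₁ hx t2 t1 hX hl,
      bs_secondForm e₂ e₂ hx t2 t2 hX hl]
    set a := firstForm X x (e₁ x) (e₁ x)
    set b := firstForm X x (e₁ x) (e₂ x)
    set d := firstForm X x (e₂ x) (e₂ x)
    set p := secondForm X ℓ x (e₁ x) (e₁ x)
    set q := secondForm X ℓ x (e₁ x) (e₂ x)
    set q' := secondForm X ℓ x (e₂ x) (e₁ x)
    set s := secondForm X ℓ x (e₂ x) (e₂ x)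
    set k := kap u x
    have e1 : k ^ 3 * p * (k ^ 2 * d) - k ^ 3 * q * (k ^ 2 * b) - k ^ 3 * q' * (k ^ 2 * b)
        + k ^ 3 * s * (k ^ 2 * a) = k ^ 4 * (k * (p * d - q * b - q' * b + s * a)) := by
      ring
    have e2 : k ^ 2 * a * (k ^ 2 * d) - (k ^ 2 * b) ^ 2 = k ^ 4 * (a * d - b ^ 2) := by
      ring
    rw [e1, e2, mul_div_mul_left _ _ (by positivity : k ^ 4 ≠ 0), mul_div_assoc]

end Pool.Agent.NullShell
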