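import Pool.Agent.NullShell.Defs

/-!
# Calculus with the rotation fields on the unit sphere (definitions)

`Lop i f` is the derivative of `f` along the rotation field `x ↦ e_i × x`. All functions are
defined on all of `E`, are smooth at the points of the unit sphere (`Sm`), and only their values
at the points of the sphere matter.
-/

open MeasureTheory
open scoped ContDiff

namespace Pool.Agent.NullShell

/-- The rotation fields `e_i × x`. -/
noncomputable def rot (i : Fin 3) (x : E) : E :=
  match i with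
  | 0 => !₂[0, -x 2, x 1]
  | 1 => !₂[x 2, 0, -x 0]
  | 2 => !₂[-x 1, x 0, 0]

/-- Derivative along the rotation field. -/
noncomputable def Lop (i : Fin 3) (f : E → ℝ) (x : E) : ℝ := fderiv ℝ f x (rot i x)

/-- Smooth at every point of the unit sphere. -/
def Sm (f : E → ℝ) : Prop := ∀ x ∈ SS, ContDiffAt ℝ ∞ f x

/-- The integral over the unit sphere. -/
noncomputable def sint (f : E → ℝ) : ℝ := ∫ x : SS, f x ∂sph

/-- The gradient product `⟨∇f, ∇g⟩`. -/
noncomputable def gdot (f g : E → ℝ) (x : E) : ℝ := ∑ i, Lop i f x * Lop i g x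

/-- The Laplacian of the sphere. -/
noncomputable def lap (f : E → ℝ) (x : E) : ℝ := ∑ i, Lop i (Lop i f) x

/-- The component `i` of `x × L f`. -/
noncomputable def xcr (f : E → ℝ) (i : Fin 3) (x : E) : ℝ :=
  match i with
  | 0 => x 1 * Lop 2 f x - x 2 * Lop 1 f x
  | 1 => x 2 * Lop 0 f x - x 0 * Lop 2 f x
  | 2 => x 0 * Lop 1 f x - x 1 * Lop 0 f x

/-- The Hessian in the rotation frame: `H_ij = L_i L_j f + x_j (x × L f)_i`. It is symmetric,
`∑ j, H_ij x_j = 0`, and its trace is `lap f`. -/
noncomputable def hess (f : E → ℝ) (i j : Fin 3) (x : E) : ℝ :=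
  Lop i (Lop j f) x + x j * xcr f i x

/-- The Hessian product `⟨∇²f, ∇²g⟩`. -/
noncomputable def hdot (f g : E → ℝ) (x : E) : ℝ := ∑ i, ∑ j, hess f i j x * hess g i j x

/-- Polynomial functions on `E`. -/
def IsPoly (f : E → ℝ) : Prop :=
  f ∈ Algebra.adjoin ℝ (Set.range (fun (i : Fin 3) (x : E) => x i))

end Pool.Agent.NullShell
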