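import Pool.Agent.NullShell.BoostMeasure
import Pool.Agent.NullShell.Stmts

/-! # The covariant form of the inequality -/

open MeasureTheory
open scoped ContDiff

namespace Pool.Agent.NullShell

/-- The algebra: if `m ≤ γ E + ⟨u, P⟩` for all four-velocities `(γ, u)`, then `P` is timelike and
`m ≤ √(E² - |P|²)`. -/
lemma covariant_algebra {m En : ℝ} {P : E} (hm : 0 < m)
    (h : ∀ u : E, m ≤ gam u * En + inner ℝ u P) :
    ‖P‖ < En ∧ m ≤ Real.sqrt (En ^ 2 - ‖P‖ ^ 2) := by
  have hgam : ∀ a : ℝ, 0 < a → gam (-(a⁻¹ • P)) = Real.sqrt (a ^ 2 + ‖P‖ ^ 2) / a := by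
    intro a ha
    unfold gam
    rw [norm_neg, norm_smul, Real.norm_of_nonneg (inv_nonneg.mpr ha.le), mul_pow]
    have h1 : 1 + a⁻¹ ^ 2 * ‖P‖ ^ 2 = (a ^ 2 + ‖P‖ ^ 2) / a ^ 2 := by
      field_simp
    rw [h1, Real.sqrt_div (by positivity), Real.sqrt_sq ha.le]
  have hin : ∀ a : ℝ, inner ℝ (-(a⁻¹ • P)) P = -(‖P‖ ^ 2 / a) := by
    intro a
    rw [inner_neg_left, real_inner_smul_left, real_inner_self_eq_norm_sq]
    ring
  have key : ∀ a : ℝ, 0 < a → m * a ≤ Real.sqrt (a ^ 2 + ‖P‖ ^ 2) * En - ‖P‖ ^ 2 := by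
    intro a ha
    have h1 := h (-(a⁻¹ • P))
    rw [hgam a ha, hin a] at h1
    have h2 : Real.sqrt (a ^ 2 + ‖P‖ ^ 2) / a * En + -(‖P‖ ^ 2 / a)
        = (Real.sqrt (a ^ 2 + ‖P‖ ^ 2) * En - ‖P‖ ^ 2) / a := by
      field_simp
      ring
    rw [h2, le_div_iff₀ ha] at h1
    exact h1
  have hE : m ≤ En := by
    have h1 := h 0
    have h2 : gam (0 : E) = 1 := by simp [gam]
    rw [h2, inner_zero_left] at h1
    linarith
  have hp := norm_nonneg P
  have hlt : ‖P‖ < En := by
    by_contra hcon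
    rw [not_lt] at hcon
    have hp0 : 0 < ‖P‖ := by linarith
    have h1 := key m hm
    set q := Real.sqrt (m ^ 2 + ‖P‖ ^ 2) with hq
    have hq2 : q ^ 2 = m ^ 2 + ‖P‖ ^ 2 := Real.sq_sqrt (by positivity)
    have hq0 : 0 ≤ q := Real.sqrt_nonneg _
    have h2 : q * En ≤ q * ‖P‖ := mul_le_mul_of_nonneg_left hcon hq0
    have h3 : q * q ≤ q * ‖P‖ := by nlinarith
    have hq1 : 0 < q := by
      rw [hq]
      positivity
    have h4 : q ≤ ‖P‖ := le_of_mul_le_mul_left h3 hq1
    nlinarith
  refine ⟨hlt, ?_⟩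
  have hM0 : 0 < En ^ 2 - ‖P‖ ^ 2 := by nlinarith
  set M := Real.sqrt (En ^ 2 - ‖P‖ ^ 2) with hM
  have hM2 : M ^ 2 = En ^ 2 - ‖P‖ ^ 2 := Real.sq_sqrt hM0.le
  have hMpos : 0 < M := Real.sqrt_pos.mpr hM0
  have h1 := key M hMpos
  have h2 : Real.sqrt (M ^ 2 + ‖P‖ ^ 2) = En := by
    rw [hM2, sub_add_cancel]
    exact Real.sqrt_sq (by linarith)
  rw [h2] at h1
  have h3 : m * M ≤ M * M := by nlinarith
  exact le_of_mul_le_mul_right h3 hMpos

/-- The covariant form of the Penrose inequality for null dust shells. -/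
theorem Covariant (hF : Final_Stmt) (hU : GeomU_Stmt) (hA : GeomArea_Stmt)
    (hS : BoostSurface_Stmt) : Covariant_Stmt := by
  intro X ℓ e₁ e₂ hX hℓ he ε hε htrap
  -- positivity of the area
  have hsm : Sm (detU (sFun X) (FFun X)) := by
    obtain ⟨hs, hF', -, -⟩ := hU X hX
    have h1 : Sm (fun x => (lap (sFun X) x + 2 * FFun X x) ^ 2) :=
      (hs.lap.add (hF'.const_mul 2)).pow 2
    have h2 : ∀ i j, Sm (Umat (sFun X) (FFun X) i j) := by
      intro i j
      refine (hs.hess i j).add (hF'.mul ((sm_const _).sub ((sm_coord i).mul (sm_coord j))))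
    have h3 : Sm (fun x => ∑ i, ∑ j, Umat (sFun X) (FFun X) i j x ^ 2) :=
      Sm.sum fun i _ => Sm.sum fun j _ => (h2 i j).pow 2
    exact (h1.sub h3).const_mul (1 / 2)
  have harea : 0 < area X e₁ e₂ := by
    have h1 : area X e₁ e₂ = sint (detU (sFun X) (FFun X)) := by
      unfold area sint
      refine integral_congr_ae (Filter.Eventually.of_forall fun x => ?_)
      exact (hA X e₁ e₂ hX he x x.2).2.1
    rw [h1]
    exact sint_pos_of_pos hsm fun x hx => (hA X e₁ e₂ hX he x hx).1
  have hpi := Real.pi_pos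
  have hm : 0 < Real.sqrt (area X e₁ e₂ / (16 * Real.pi)) :=
    Real.sqrt_pos.mpr (div_pos harea (by positivity))
  refine covariant_algebra hm fun u => ?_
  -- the boosted surface
  obtain ⟨hX', hℓ', he', htr⟩ := hS u X ℓ e₁ e₂ hX hℓ he
  -- transformation at the points of the sphere
  have hback : ∀ y ∈ SS, aber u (aber (-u) y) = y := by
    intro y hy
    have := aber_aber (u := -u) hy
    rwa [neg_neg] at this
  have hkap : ∀ y ∈ SS, kap u (aber (-u) y) = (kap (-u) y)⁻¹ := by
    intro y hy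
    have := kap_inv (u := -u) hy
    rwa [neg_neg] at this
  have hA' : ∀ y ∈ SS, areaElement (bX u X) (be u e₁) (be u e₂) y
      = areaElement X e₁ e₂ (aber (-u) y) * ((kap (-u) y)⁻¹) ^ 2 := by
    intro y hy
    have h1 := (htr (aber (-u) y) (aber_mem hy)).1
    rw [hback y hy, hkap y hy] at h1
    rw [h1, mul_comm]
  have hE' : ∀ y ∈ SS, expansion (bX u X) (bl u ℓ) (be u e₁) (be u e₂) y
      = kap u (aber (-u) y) * expansion X ℓ e₁ e₂ (aber (-u) y) := by
    intro y hy
    have h1 := (htr (aber (-u) y) (aber_mem hy)).2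
    rwa [hback y hy] at h1
  set f : E → ℝ := fun x => kap u x * (ε x * areaElement X e₁ e₂ x) with hf
  set ε' : E → ℝ := fun y => kap u (aber (-u) y) * ε (aber (-u) y) with hε'
  have hprod : ∀ y ∈ SS, ε' y * areaElement (bX u X) (be u e₁) (be u e₂) y
      = f (aber (-u) y) * ((kap (-u) y)⁻¹) ^ 2 := by
    intro y hy
    rw [hA' y hy]
    simp only [hf, hε']
    ring
  have hfint : Integrable (fun x : SS => f x) sph := by
    have hc : Continuous (fun x : SS => kap u x) :=
      (contDiff_kap u).continuous.comp continuous_subtype_val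
    obtain ⟨C, hC⟩ := isCompact_univ.exists_bound_of_continuousOn hc.continuousOn
    exact hε.bdd_mul hc.aestronglyMeasurable
      (Filter.Eventually.of_forall fun x => hC x (Set.mem_univ x))
  obtain ⟨hi1, hi2⟩ := BoostMeasure (-u) f
  have hgoal := hF (bX u X) (bl u ℓ) (be u e₁) (be u e₂) hX' hℓ' he' ε'
    (by
      refine (hi1 hfint).congr (Filter.Eventually.of_forall fun y => ?_)
      exact (hprod y y.2).symm)
    (by
      intro y hy
      rw [hE' y hy]
      have h1 := htrap (aber (-u) y) (aber_mem hy)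
      have h2 := kap_pos u (aber (-u) y)
      have h3 : kap u (aber (-u) y) * expansion X ℓ e₁ e₂ (aber (-u) y)
          - 16 * Real.pi * ε' y = kap u (aber (-u) y) *
            (expansion X ℓ e₁ e₂ (aber (-u) y) - 16 * Real.pi * ε (aber (-u) y)) := by
        simp only [hε']
        ring
      rw [h3]
      exact mul_nonpos_of_nonneg_of_nonpos h2.le h1)
  have harea' : area (bX u X) (be u e₁) (be u e₂) = area X e₁ e₂ := by
    unfold area
    rw [← (BoostMeasure (-u) (areaElement X e₁ e₂)).2]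
    exact integral_congr_ae (Filter.Eventually.of_forall fun y => hA' y y.2)
  have henergy : shellEnergy (bX u X) (be u e₁) (be u e₂) ε'
      = gam u * shellEnergy X e₁ e₂ ε + inner ℝ u (shellMomentum X e₁ e₂ ε) := by
    unfold shellEnergy shellMomentum
    have h1 : ∫ y : SS, ε' y * areaElement (bX u X) (be u e₁) (be u e₂) y ∂sph
        = ∫ x : SS, f x ∂sph := by
      rw [← hi2]
      exact integral_congr_ae (Filter.Eventually.of_forall fun y => hprod y y.2)
    rw [h1]
    have hvec : Integrable (fun x : SS => (ε x * areaElement X e₁ e₂ x) • (-(x : E))) sph := by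
      refine Integrable.smul_bdd hε 1 ?_ ?_
      · exact continuous_subtype_val.neg.aestronglyMeasurable
      · refine Filter.Eventually.of_forall fun x => ?_
        rw [norm_neg]
        have : ‖(x : E)‖ = 1 := by simpa using x.2
        exact this.le
    rw [← integral_const_mul, ← integral_inner hvec, ← integral_add (hε.const_mul _)
      (hvec.const_inner u)]
    refine integral_congr_ae (Filter.Eventually.of_forall fun x => ?_)
    simp only [hf, kap_of_mem x.2, real_inner_smul_right, inner_neg_right]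
    ring
  rw [harea', henergy] at hgoal
  exact hgoal

end Pool.Agent.NullShell
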