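import Mathlib

/-!
# Null dust shells in Minkowski space

Spacelike surfaces in Minkowski space `ℝ^{1,3}` whose ingoing null normals, followed to the past,
generate a null hypersurface that is regular up to past null infinity; the area and the outer
null expansion of such a surface.

The surface is parametrised by the direction of its ingoing null normal: `X : E → Mink` is a
map that is smooth at the points of the unit sphere, of which only the restriction to the unit
sphere matters, and the ingoing future directed null normal of the surface at `X x` is `(1, -x)`.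
-/

open MeasureTheory
open scoped ContDiff

namespace Pool.Agent.NullShell

/-- Euclidean three-space. -/
abbrev E := EuclideanSpace ℝ (Fin 3)

/-- Minkowski space: pairs (time, position). -/
abbrev Mink := ℝ × E

/-- The unit sphere of Euclidean three-space. -/
abbrev SS : Set E := Metric.sphere (0 : E) 1

/-- The rotation invariant measure of total mass `4 π` on the unit sphere. -/
noncomputable abbrev sph : Measure SS := (volume : Measure E).toSphere

/-- The Minkowski product of signature `(-, +, +, +)`. -/
noncomputable def mink (p q : Mink) : ℝ := inner ℝ p.2 q.2 - p.1 * q.1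

/-- The future directed ingoing null vector `(1, -x)`. -/
def ingoing (x : E) : Mink := (1, -x)

/-- `X`, restricted to the unit sphere, is a closed smooth spacelike surface in Minkowski space,
with `ingoing x = (1, -x)` normal to it at `X x`, such that the null hypersurface swept out by the
rays `r ↦ X x - r • (1, -x)`, `r ≥ 0`, is regular: all its sections `X - r • ingoing`, `r ≥ 0`,
are immersed and spacelike. (For `r = 0` this says that `X` itself is spacelike and immersed.) -/
structure IsSurface (X : E → Mink) : Prop where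
  smooth : ∀ x ∈ SS, ContDiffAt ℝ ∞ X x
  normal : ∀ x ∈ SS, ∀ v : E, inner ℝ v x = 0 → mink (fderiv ℝ X x v) (ingoing x) = 0
  regular : ∀ r : ℝ, 0 ≤ r → ∀ x ∈ SS, ∀ v : E, inner ℝ v x = 0 → v ≠ 0 →
    0 < mink (fderiv ℝ (fun y => X y - r • ingoing y) x v)
      (fderiv ℝ (fun y => X y - r • ingoing y) x v)

/-- `ℓ` is the outgoing future directed null normal of the surface `X`, normalised by
`⟨ℓ, k⟩ = -2` with `k` the ingoing null normal. -/
structure IsOuterNormal (X ℓ : E → Mink) : Prop where
  smooth : ∀ x ∈ SS, ContDiffAt ℝ ∞ ℓ x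
  null : ∀ x ∈ SS, mink (ℓ x) (ℓ x) = 0
  normalized : ∀ x ∈ SS, mink (ℓ x) (ingoing x) = -2
  normal : ∀ x ∈ SS, ∀ v : E, inner ℝ v x = 0 → mink (fderiv ℝ X x v) (ℓ x) = 0

/-- `e₁ x, e₂ x` is an orthonormal basis of the tangent plane of the unit sphere at `x`
(no continuity is assumed; area element and expansion do not depend on the basis). -/
structure IsTangentFrame (e₁ e₂ : E → E) : Prop where
  norm₁ : ∀ x ∈ SS, ‖e₁ x‖ = 1
  norm₂ : ∀ x ∈ SS, ‖e₂ x‖ = 1
  orth : ∀ x ∈ SS, inner ℝ (e₁ x) (e₂ x) = 0
  tan₁ : ∀ x ∈ SS, inner ℝ (e₁ x) x = 0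
  tan₂ : ∀ x ∈ SS, inner ℝ (e₂ x) x = 0

/-- The first fundamental form of `X`, evaluated on the vectors `v`, `w` tangent to the sphere
at `x`. -/
noncomputable def firstForm (X : E → Mink) (x v w : E) : ℝ :=
  mink (fderiv ℝ X x v) (fderiv ℝ X x w)

/-- The second fundamental form `⟨D_v ℓ, D_w X⟩` of `X` with respect to the normal `ℓ`. -/
noncomputable def secondForm (X ℓ : E → Mink) (x v w : E) : ℝ :=
  mink (fderiv ℝ ℓ x v) (fderiv ℝ X x w)

/-- The area element of `X` relative to that of the unit sphere: the square root of the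
determinant of the first fundamental form in an orthonormal basis of the tangent plane. -/
noncomputable def areaElement (X : E → Mink) (e₁ e₂ : E → E) (x : E) : ℝ :=
  Real.sqrt (firstForm X x (e₁ x) (e₁ x) * firstForm X x (e₂ x) (e₂ x)
    - firstForm X x (e₁ x) (e₂ x) ^ 2)

/-- The outer null expansion `θ = γ^{ab} χ_{ab}`: the trace of the second fundamental form with
respect to `ℓ` relative to the first fundamental form. -/
noncomputable def expansion (X ℓ : E → Mink) (e₁ e₂ : E → E) (x : E) : ℝ :=
  (secondForm X ℓ x (e₁ x) (e₁ x) * firstForm X x (e₂ x) (e₂ x)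
    - secondForm X ℓ x (e₁ x) (e₂ x) * firstForm X x (e₁ x) (e₂ x)
    - secondForm X ℓ x (e₂ x) (e₁ x) * firstForm X x (e₁ x) (e₂ x)
    + secondForm X ℓ x (e₂ x) (e₂ x) * firstForm X x (e₁ x) (e₁ x)) /
  (firstForm X x (e₁ x) (e₁ x) * firstForm X x (e₂ x) (e₂ x)
    - firstForm X x (e₁ x) (e₂ x) ^ 2)

/-- The area of the surface `X`. -/
noncomputable def area (X : E → Mink) (e₁ e₂ : E → E) : ℝ :=
  ∫ x : SS, areaElement X e₁ e₂ x ∂sph

/-- The energy of a null dust shell crossing the surface `X` with energy density `ε`
(per unit area of the surface). -/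
noncomputable def shellEnergy (X : E → Mink) (e₁ e₂ : E → E) (ε : E → ℝ) : ℝ :=
  ∫ x : SS, ε x * areaElement X e₁ e₂ x ∂sph

/-- The momentum of a null dust shell crossing the surface `X` with energy density `ε`: a
particle crossing at `X x` moves in the direction `-x` with the speed of light. -/
noncomputable def shellMomentum (X : E → Mink) (e₁ e₂ : E → E) (ε : E → ℝ) : E :=
  ∫ x : SS, (ε x * areaElement X e₁ e₂ x) • (-(x : E)) ∂sph

/-- The mass `√(E² - |P|²)` of a null dust shell crossing the surface `X` with energy
density `ε`. -/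
noncomputable def shellMass (X : E → Mink) (e₁ e₂ : E → E) (ε : E → ℝ) : ℝ :=
  Real.sqrt (shellEnergy X e₁ e₂ ε ^ 2 - ‖shellMomentum X e₁ e₂ ε‖ ^ 2)

end Pool.Agent.NullShell
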