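import Pool.Agent.NullShell.Ineq

/-! # The Penrose inequality for null dust shells -/

open MeasureTheory Filter Topology
open scoped ContDiff

namespace Pool.Agent.NullShell

/-- The final theorem from the modules. -/
theorem Final (hI : Ineq_Stmt) (hU : GeomU_Stmt) (hZ : GeomZ_Stmt) (hA : GeomArea_Stmt)
    (hE : GeomExp_Stmt) : Final_Stmt := by
  intro X ℓ e₁ e₂ hX hℓ he ε hε htrap
  obtain ⟨hs, hF, -, hpos⟩ := hU X hX
  obtain ⟨hz, hzx, -, -, hUz⟩ := hZ X ℓ hX hℓ
  set s := sFun X with hsdef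
  set F := FFun X with hFdef
  set t : E → ℝ := fun x => lap s x + 2 * F x with htdef
  have ht : Sm t := hs.lap.add (hF.const_mul 2)
  have hτ : Sm fun y => s y - F y := hs.sub hF
  have hq : Sm fun x => ∑ i, zFun ℓ i x ^ 2 := Sm.sum fun i _ => (hz i).pow 2
  have htq : Sm fun x => t x * ∑ i, zFun ℓ i x ^ 2 := ht.mul hq
  have htpos : ∀ x ∈ SS, 0 < t x := fun x hx => Umat_trace_pos hs hpos hx
  have hmain := hI s F (zFun ℓ) hs hF hz hpos hzx hUz
  -- the area
  have harea : area X e₁ e₂ = sint (detU s F) := by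
    unfold area sint
    refine integral_congr_ae (Eventually.of_forall fun x => ?_)
    exact (hA X e₁ e₂ hX he x x.2).2.1
  -- the total expansion
  have hdiv : Sm fun x => ∑ i, Lop i (fun y => t y * zFun ℓ i y) x :=
    Sm.sum fun i _ => (ht.mul (hz i)).lop i
  have hexp : sint (fun x => (1 + ∑ i, zFun ℓ i x ^ 2) * t x
      + 2 * ((∑ i, Lop i (fun y => t y * zFun ℓ i y) x) - lap (fun y => s y - F y) x))
      = 2 * (sint F + (1 / 2) * sint (fun x => t x * ∑ i, zFun ℓ i x ^ 2)) := by
    rw [sint_add (((sm_const 1).add hq).mul ht) ((hdiv.sub hτ.lap).const_mul 2), sint_const_mul,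
      sint_sub hdiv hτ.lap, sint_lap hτ, sint_finset_sum fun i _ => (ht.mul (hz i)).lop i,
      Finset.sum_eq_zero fun i _ => sint_Lop (ht.mul (hz i)) i]
    have e1 : sint (fun x => (1 + ∑ i, zFun ℓ i x ^ 2) * t x)
        = sint (fun x => (lap s x + 2 * F x) + t x * ∑ i, zFun ℓ i x ^ 2) :=
      sint_congr fun x _ => by simp only [htdef]; ring
    rw [e1, sint_add ht htq, sint_add hs.lap (hF.const_mul 2), sint_lap hs, sint_const_mul]
    ring
  set Q := sint F + (1 / 2) * sint (fun x => t x * ∑ i, zFun ℓ i x ^ 2) with hQ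
  -- the energy
  have hpi := Real.pi_pos
  have henergy : 2 * Q ≤ 16 * Real.pi * shellEnergy X e₁ e₂ ε := by
    rw [← hexp]
    unfold shellEnergy sint
    rw [← integral_const_mul]
    refine integral_mono ?_ (hε.const_mul _) fun x => ?_
    · exact Sm.integrable ((((sm_const 1).add hq).mul ht).add ((hdiv.sub hτ.lap).const_mul 2))
    · have h1 := hE X ℓ e₁ e₂ hX hℓ he x x.2
      have h2 := htrap x x.2
      have h3 : 0 ≤ areaElement X e₁ e₂ x := Real.sqrt_nonneg _
      simp only
      rw [← hsdef, ← hFdef] at h1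
      rw [← h1]
      have h4 := mul_le_mul_of_nonneg_right (sub_nonpos.1 h2) h3
      linarith
  have hQ0 : 0 ≤ Q := by
    have h1 : 0 ≤ sint F := by
      have h2 : sint t = 2 * sint F := by
        simp only [htdef]
        rw [sint_add hs.lap (hF.const_mul 2), sint_lap hs, sint_const_mul]
        ring
      have h3 : 0 ≤ sint t := sint_nonneg fun x hx => (htpos x hx).le
      linarith
    have h2 : 0 ≤ sint (fun x => t x * ∑ i, zFun ℓ i x ^ 2) := sint_nonneg fun x hx =>
      mul_nonneg (htpos x hx).le (Finset.sum_nonneg fun i _ => sq_nonneg _)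
    positivity
  rw [harea]
  refine Real.sqrt_le_iff.2 ⟨?_, ?_⟩
  · have : 0 ≤ 16 * Real.pi * shellEnergy X e₁ e₂ ε := by linarith
    exact nonneg_of_mul_nonneg_right this (by positivity)
  · have h1 : Q / (8 * Real.pi) ≤ shellEnergy X e₁ e₂ ε := by
      rw [div_le_iff₀ (by positivity)]
      linarith
    have h2 : 0 ≤ Q / (8 * Real.pi) := by positivity
    have h3 : (Q / (8 * Real.pi)) ^ 2 ≤ shellEnergy X e₁ e₂ ε ^ 2 := pow_le_pow_left₀ h2 h1 2
    refine le_trans ?_ h3
    rw [div_pow, div_le_div_iff₀ (by positivity) (by positivity)]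
    nlinarith [mul_le_mul_of_nonneg_left hmain (by positivity : (0 : ℝ) ≤ 16 * Real.pi)]

end Pool.Agent.NullShell
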