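import Pool.Agent.NullShell.GeomU

/-! # Geometry of the surface: the area element -/

open MeasureTheory Filter Topology
open scoped ContDiff

namespace Pool.Agent.NullShell

section

variable {X : E → Mink} {x a b : E}

/-- Three orthonormal vectors satisfy the completeness relation. -/
theorem area_complete (haa : a 0 ^ 2 + a 1 ^ 2 + a 2 ^ 2 = 1)
    (hbb : b 0 ^ 2 + b 1 ^ 2 + b 2 ^ 2 = 1) (hxx : x 0 ^ 2 + x 1 ^ 2 + x 2 ^ 2 = 1)
    (hab : a 0 * b 0 + a 1 * b 1 + a 2 * b 2 = 0) (hax : a 0 * x 0 + a 1 * x 1 + a 2 * x 2 = 0)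
    (hbx : b 0 * x 0 + b 1 * x 1 + b 2 * x 2 = 0) (i j : Fin 3) :
    a i * a j + b i * b j + x i * x j = if i = j then 1 else 0 := by
  have h1 : (!![a 0, a 1, a 2; b 0, b 1, b 2; x 0, x 1, x 2] : Matrix (Fin 3) (Fin 3) ℝ)
      * !![a 0, b 0, x 0; a 1, b 1, x 1; a 2, b 2, x 2] = 1 := by
    rw [Matrix.one_fin_three]
    ext k l
    fin_cases k <;> fin_cases l <;> simp [Matrix.mul_apply, Fin.sum_univ_three] <;> linarith
  have h2 := mul_eq_one_comm.1 h1
  have h3 := congrFun (congrFun h2 i) j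
  rw [Matrix.one_apply] at h3
  rw [← h3]
  fin_cases i <;> fin_cases j <;> simp [Matrix.mul_apply, Fin.sum_univ_three]

/-- Expansion in an orthonormal basis. -/
theorem area_expand (haa : a 0 ^ 2 + a 1 ^ 2 + a 2 ^ 2 = 1)
    (hbb : b 0 ^ 2 + b 1 ^ 2 + b 2 ^ 2 = 1) (hxx : x 0 ^ 2 + x 1 ^ 2 + x 2 ^ 2 = 1)
    (hab : a 0 * b 0 + a 1 * b 1 + a 2 * b 2 = 0) (hax : a 0 * x 0 + a 1 * x 1 + a 2 * x 2 = 0)
    (hbx : b 0 * x 0 + b 1 * x 1 + b 2 * x 2 = 0) (p : E) :
    p = (inner ℝ p a : ℝ) • a + (inner ℝ p b : ℝ) • b + (inner ℝ p x : ℝ) • x := by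
  have hc := area_complete haa hbb hxx hab hax hbx
  ext k
  have h0 := hc 0 k
  have h1 := hc 1 k
  have h2 := hc 2 k
  simp only [PiLp.add_apply, PiLp.smul_apply, smul_eq_mul, inner_eq_sum3]
  fin_cases k
  · simp at h0 h1 h2 ⊢
    linear_combination (-(p 0)) * h0 - (p 1) * h1 - (p 2) * h2
  · simp at h0 h1 h2 ⊢
    linear_combination (-(p 0)) * h0 - (p 1) * h1 - (p 2) * h2
  · simp at h0 h1 h2 ⊢
    linear_combination (-(p 0)) * h0 - (p 1) * h1 - (p 2) * h2

theorem area_inner_rot (i : Fin 3) (x p : E) :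
    (inner ℝ (rot i x) p : ℝ) = - crs (fun k => p k) x i := by
  rw [inner_eq_sum3]
  fin_cases i
  · show _ = - crs (fun k => p k) x 0
    rw [crs_apply0]; simp; ring
  · show _ = - crs (fun k => p k) x 1
    rw [crs_apply1]; simp; ring
  · show _ = - crs (fun k => p k) x 2
    rw [crs_apply2]; simp; ring

theorem area_trace (hX : IsSurface X) (hx : x ∈ SS) :
    lap (sFun X) x + 2 * FFun X x = ∑ i, Umat (sFun X) (FFun X) i i x := by
  have h1 := sq_sum_eq_one hx
  have h2 := hess_trace (GeomU_smS hX) hx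
  unfold Umat
  rw [Finset.sum_add_distrib, h2, Fin.sum_univ_three]
  simp only [if_true]
  linear_combination (FFun X x) * h1

theorem GeomArea_key (hX : IsSurface X) (hx : x ∈ SS) (ha : ‖a‖ = 1) (hb : ‖b‖ = 1)
    (hab : (inner ℝ a b : ℝ) = 0) (hax : (inner ℝ a x : ℝ) = 0) (hbx : (inner ℝ b x : ℝ) = 0) :
    ∃ t m u : ℝ, 0 < t * u - m ^ 2 ∧ detU (sFun X) (FFun X) x = t * u - m ^ 2 ∧
      firstForm X x a a = t ^ 2 + m ^ 2 ∧ firstForm X x b b = m ^ 2 + u ^ 2 ∧
      firstForm X x a b = t * m + m * u := by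
  have hxx := sq_sum_eq_one hx
  have haa := sq_sum_eq_one (x := a) (mem_sphere_zero_iff_norm.2 ha)
  have hbb := sq_sum_eq_one (x := b) (mem_sphere_zero_iff_norm.2 hb)
  have hab' : a 0 * b 0 + a 1 * b 1 + a 2 * b 2 = 0 := by rw [← inner_eq_sum3]; exact hab
  have hax' : a 0 * x 0 + a 1 * x 1 + a 2 * x 2 = 0 := by rw [← inner_eq_sum3]; exact hax
  have hbx' : b 0 * x 0 + b 1 * x 1 + b 2 * x 2 = 0 := by rw [← inner_eq_sum3]; exact hbx
  have hexp := area_expand haa hbb hxx hab' hax' hbx'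
  have ha1 : (inner ℝ a a : ℝ) = 1 := by rw [inner_eq_sum3]; linarith
  have hb1 : (inner ℝ b b : ℝ) = 1 := by rw [inner_eq_sum3]; linarith
  have hx1 : (inner ℝ x x : ℝ) = 1 := by rw [inner_eq_sum3]; linarith
  have hba : (inner ℝ b a : ℝ) = 0 := by rw [real_inner_comm]; exact hab
  set T := fderiv ℝ (fun y => (X y).2) x with hT
  set v : Fin 3 → ℝ := fun k => a k with hv
  set w : Fin 3 → ℝ := fun k => b k with hw
  set σ : ℝ := inner ℝ (crs w x) a with hσ
  -- the two cross products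
  have hwb : (inner ℝ (crs w x) b : ℝ) = 0 := by
    rw [inner_eq_sum3, crs_apply0, crs_apply1, crs_apply2, hw]; ring
  have hva : (inner ℝ (crs v x) a : ℝ) = 0 := by
    rw [inner_eq_sum3, crs_apply0, crs_apply1, crs_apply2, hv]; ring
  have hvb : (inner ℝ (crs v x) b : ℝ) = -σ := by
    rw [hσ, inner_eq_sum3, inner_eq_sum3, crs_apply0, crs_apply1, crs_apply2, crs_apply0,
      crs_apply1, crs_apply2, hv, hw]; ring
  have hwe : crs w x = σ • a := by
    have h := hexp (crs w x)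
    rw [hwb, inner_crs_self] at h
    simpa using h
  have hve : crs v x = (-σ) • b := by
    have h := hexp (crs v x)
    rw [hva, hvb, inner_crs_self] at h
    simpa using h
  have hσ2 : σ ^ 2 = 1 := by
    have h1 : (inner ℝ (crs w x) (crs w x) : ℝ) = 1 := by
      rw [inner_eq_sum3, crs_apply0, crs_apply1, crs_apply2, hw]
      linear_combination (x 0 ^ 2 + x 1 ^ 2 + x 2 ^ 2) * hbb + hxx
        - (b 0 * x 0 + b 1 * x 1 + b 2 * x 2) * hbx'
    rw [hwe, inner_smul_left, inner_smul_right, ha1] at h1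
    simp only [conj_trivial, mul_one] at h1
    linarith
  set t : ℝ := inner ℝ (T a) a with ht
  set m : ℝ := inner ℝ (T a) b with hm
  set u : ℝ := inner ℝ (T b) b with hu
  have hsymm : (inner ℝ (T b) a : ℝ) = m := by
    have h := GeomU_symm hX hx v w
    rw [← hT, hve, hwe, map_smul, map_smul, inner_smul_left, inner_smul_left, inner_smul_right,
      inner_smul_right] at h
    simp only [conj_trivial] at h
    have h2 : σ ^ 2 * (inner ℝ (T b) a : ℝ) = σ ^ 2 * inner ℝ (T a) b := by linear_combination -h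
    rw [hσ2] at h2
    linarith
  -- the rotation frame in terms of `a`, `b`
  have hrot : ∀ i, rot i x = (σ * b i) • a + (-(σ * a i)) • b := by
    intro i
    have h := hexp (rot i x)
    rw [area_inner_rot i x a, area_inner_rot i x b, inner_rot_self] at h
    change rot i x = (-crs v x i) • a + (-crs w x i) • b + (0 : ℝ) • x at h
    rw [hve, hwe] at h
    rw [h]
    simp
  have hU : ∀ i j, Umat (sFun X) (FFun X) i j x
      = b i * b j * t - (b i * a j + a i * b j) * m + a i * a j * u := by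
    intro i j
    rw [GeomU_Umat hX hx, ← hT, hrot i, hrot j, map_add, map_smul, map_smul]
    simp only [inner_add_left, inner_add_right, inner_smul_left, inner_smul_right, conj_trivial]
    rw [hsymm, ← ht, ← hm, ← hu]
    linear_combination (b i * b j * t - (b i * a j + a i * b j) * m + a i * a j * u) * hσ2
  have htr : lap (sFun X) x + 2 * FFun X x = t + u := by
    rw [area_trace hX hx, Fin.sum_univ_three, hU, hU, hU]
    linear_combination t * hbb - 2 * m * hab' + u * haa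
  have hsq : ∑ i, ∑ j, Umat (sFun X) (FFun X) i j x ^ 2 = t ^ 2 + 2 * m ^ 2 + u ^ 2 := by
    have h1 : ∑ i, ∑ j, Umat (sFun X) (FFun X) i j x ^ 2
        = t ^ 2 * (b 0 ^ 2 + b 1 ^ 2 + b 2 ^ 2) ^ 2
          + 2 * m ^ 2 * ((a 0 ^ 2 + a 1 ^ 2 + a 2 ^ 2) * (b 0 ^ 2 + b 1 ^ 2 + b 2 ^ 2)
            + (a 0 * b 0 + a 1 * b 1 + a 2 * b 2) ^ 2)
          + u ^ 2 * (a 0 ^ 2 + a 1 ^ 2 + a 2 ^ 2) ^ 2
          - 4 * t * m * (b 0 ^ 2 + b 1 ^ 2 + b 2 ^ 2) * (a 0 * b 0 + a 1 * b 1 + a 2 * b 2)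
          - 4 * u * m * (a 0 ^ 2 + a 1 ^ 2 + a 2 ^ 2) * (a 0 * b 0 + a 1 * b 1 + a 2 * b 2)
          + 2 * t * u * (a 0 * b 0 + a 1 * b 1 + a 2 * b 2) ^ 2 := by
      simp only [hU, Fin.sum_univ_three]
      ring
    rw [h1, haa, hbb, hab']
    ring
  have hdet : detU (sFun X) (FFun X) x = t * u - m ^ 2 := by
    unfold detU
    rw [htr, hsq]
    ring
  -- positivity
  have hpos : ∀ α β : ℝ, (α ≠ 0 ∨ β ≠ 0) →
      0 < β ^ 2 * t - 2 * α * β * m + α ^ 2 * u := by
    intro α β hαβ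
    have h0 : ∑ i, (fun k => α * a k + β * b k : Fin 3 → ℝ) i * x i = 0 := by
      rw [Fin.sum_univ_three]
      linear_combination α * hax' + β * hbx'
    have h1 : (fun k => α * a k + β * b k : Fin 3 → ℝ) ≠ 0 := by
      intro h
      have e0 : α * a 0 + β * b 0 = 0 := congrFun h 0
      have e1 : α * a 1 + β * b 1 = 0 := congrFun h 1
      have e2 : α * a 2 + β * b 2 = 0 := congrFun h 2
      rcases hαβ with h | h
      · apply h
        linear_combination (a 0) * e0 + (a 1) * e1 + (a 2) * e2 - α * haa - β * hab'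
      · apply h
        linear_combination (b 0) * e0 + (b 1) * e1 + (b 2) * e2 - α * hab' - β * hbb
    have h2 := GeomU_pos hX hx h0 h1
    have h3 : ∑ i, ∑ j, Umat (sFun X) (FFun X) i j x * (fun k => α * a k + β * b k : Fin 3 → ℝ) i
        * (fun k => α * a k + β * b k : Fin 3 → ℝ) j
        = (α * (a 0 * b 0 + a 1 * b 1 + a 2 * b 2) + β * (b 0 ^ 2 + b 1 ^ 2 + b 2 ^ 2)) ^ 2 * t
          - 2 * (α * (a 0 * b 0 + a 1 * b 1 + a 2 * b 2) + β * (b 0 ^ 2 + b 1 ^ 2 + b 2 ^ 2))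
            * (α * (a 0 ^ 2 + a 1 ^ 2 + a 2 ^ 2) + β * (a 0 * b 0 + a 1 * b 1 + a 2 * b 2)) * m
          + (α * (a 0 ^ 2 + a 1 ^ 2 + a 2 ^ 2) + β * (a 0 * b 0 + a 1 * b 1 + a 2 * b 2)) ^ 2
            * u := by
      simp only [hU, Fin.sum_univ_three]
      ring
    rw [h3, haa, hbb, hab'] at h2
    linarith
  have htpos : 0 < t := by
    have h := hpos 0 1 (Or.inr one_ne_zero)
    linarith
  have hdpos : 0 < t * u - m ^ 2 := by
    have h := hpos t m (Or.inl htpos.ne')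
    have h2 : 0 < t * (t * u - m ^ 2) := by linarith
    exact (mul_pos_iff_of_pos_left htpos).1 h2
  -- the first fundamental form
  have hff : ∀ p q : E, (inner ℝ p x : ℝ) = 0 → (inner ℝ q x : ℝ) = 0 → firstForm X x p q
      = inner ℝ (T p) a * inner ℝ (T q) a + inner ℝ (T p) b * inner ℝ (T q) b := by
    intro p q hp hq
    unfold firstForm mink
    rw [GeomU_fderiv_fst hX hx, GeomU_fderiv_fst hX hx, GeomU_fderiv_snd hX hx,
      GeomU_fderiv_snd hX hx, ← hT]
    have h1 := GeomU_normal hX hx hp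
    have h2 := GeomU_normal hX hx hq
    rw [← hT] at h1 h2
    have h3 : (inner ℝ (T p) (T q) : ℝ) = inner ℝ (T p) a * inner ℝ (T q) a
        + inner ℝ (T p) b * inner ℝ (T q) b + inner ℝ (T p) x * inner ℝ (T q) x := by
      conv_lhs => rw [hexp (T q)]
      rw [inner_add_right, inner_add_right, inner_smul_right, inner_smul_right, inner_smul_right]
      ring
    rw [h3, h1, h2]
    ring
  refine ⟨t, m, u, hdpos, hdet, ?_, ?_, ?_⟩
  · rw [hff a a hax hax, ← ht, ← hm]; ring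
  · rw [hff b b hbx hbx, hsymm, ← hu]; ring
  · rw [hff a b hax hbx, hsymm, ← ht, ← hm, ← hu]

end

theorem GeomArea (_ : GeomU_Stmt) : GeomArea_Stmt := by
  intro X e₁ e₂ hX he x hx
  obtain ⟨t, m, u, h0, h1, h2, h3, h4⟩ := GeomArea_key hX hx (he.norm₁ x hx) (he.norm₂ x hx)
    (he.orth x hx) (he.tan₁ x hx) (he.tan₂ x hx)
  have h5 : firstForm X x (e₁ x) (e₁ x) * firstForm X x (e₂ x) (e₂ x)
      - firstForm X x (e₁ x) (e₂ x) ^ 2 = detU (sFun X) (FFun X) x ^ 2 := by
    rw [h1, h2, h3, h4]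
    ring
  rw [h1] at h5 ⊢
  refine ⟨h0, ?_, h5⟩
  unfold areaElement
  rw [h5, Real.sqrt_sq h0.le]

end Pool.Agent.NullShell
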