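import Pool.Agent.NullShell.Stmts

/-! # The expansion in terms of the functions on the sphere -/

open MeasureTheory Filter Topology
open scoped ContDiff

namespace Pool.Agent.NullShell

/-! ## Calculus part -/

theorem GeomExp_sm_Umat {s F : E → ℝ} (hs : Sm s) (hF : Sm F) (i j : Fin 3) :
    Sm (Umat s F i j) := by
  unfold Umat
  exact (hs.hess i j).add (hF.mul ((sm_const _).sub ((sm_coord i).mul (sm_coord j))))

/-- The divergence of `U`. -/
theorem GeomExp_divU {s F : E → ℝ} (hs : Sm s) (hF : Sm F) {x : E} (hx : x ∈ SS) :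
    ∃ κ : ℝ, ∀ j : Fin 3, ∑ i, Lop i (Umat s F i j) x
      = Lop j (lap s) x + Lop j s x + Lop j F x + κ * x j := by
  refine ⟨(∑ i, Lop i (xcr s i) x), fun j => ?_⟩
  have h1 : ∀ i : Fin 3, Lop i (Umat s F i j) x
      = Lop i (Lop i (Lop j s)) x + (x j * Lop i (xcr s i) x + xcr s i x * rot i x j)
        + (F x * (0 - (x i * rot i x j + x j * rot i x i))
          + ((if i = j then 1 else 0) - x i * x j) * Lop i F x) := by
    intro i
    have e1 : Umat s F i j = fun y => (Lop i (Lop j s) y + y j * xcr s i y)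
        + F y * ((if i = j then 1 else 0) - y i * y j) := rfl
    have hxc : Sm (xcr s i) := hs.xcr i
    have hLL : Sm (Lop i (Lop j s)) := (hs.lop j).lop i
    rw [e1, Lop_add (hLL.add ((sm_coord j).mul hxc))
      (hF.mul ((sm_const _).sub ((sm_coord i).mul (sm_coord j)))) hx,
      Lop_add hLL ((sm_coord j).mul hxc) hx, Lop_mul (sm_coord j) hxc hx,
      Lop_mul hF ((sm_const _).sub ((sm_coord i).mul (sm_coord j))) hx,
      Lop_sub (sm_const _) ((sm_coord i).mul (sm_coord j)) hx, Lop_const,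
      Lop_mul (sm_coord i) (sm_coord j) hx, Lop_coord, Lop_coord]
  rw [Finset.sum_congr rfl fun i _ => h1 i]
  have h2 : Lop j (lap s) x = ∑ i, Lop i (Lop i (Lop j s)) x := by
    rw [Lop_lap hs hx]; rfl
  have h3 := sum_coord_mul_Lop s x
  have h4 := sum_coord_mul_Lop F x
  have h5 := sq_sum_eq_one hx
  rw [h2]
  fin_cases j
  · simp [Fin.sum_univ_three, xcr]
    linear_combination (Lop 0 s x) * h5 - x 0 * h3 - x 0 * h4
  · simp [Fin.sum_univ_three, xcr]
    linear_combination (Lop 1 s x) * h5 - x 1 * h3 - x 1 * h4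
  · simp [Fin.sum_univ_three, xcr]
    linear_combination (Lop 2 s x) * h5 - x 2 * h3 - x 2 * h4

/-- The Laplacian of a function whose gradient is `U z`. -/
theorem GeomExp_lap {s F τ : E → ℝ} {z : Fin 3 → E → ℝ} (hs : Sm s) (hF : Sm F) (hτ : Sm τ)
    (hz : ∀ i, Sm (z i)) (hτe : ∀ x ∈ SS, τ x = s x - F x)
    (hzt : ∀ x ∈ SS, ∑ i, z i x * x i = 0)
    (hU : ∀ x ∈ SS, ∀ i, ∑ j, Umat s F i j x * z j x = Lop i τ x) {x : E} (hx : x ∈ SS) :
    lap τ x = (∑ i, ∑ j, Umat s F i j x * Lop i (z j) x)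
      + (∑ j, Lop j (fun y => lap s y + 2 * F y) x * z j x)
      + ∑ j, Lop j τ x * z j x := by
  obtain ⟨κ, hκ⟩ := GeomExp_divU hs hF hx
  have hUs : ∀ i j : Fin 3, Sm (Umat s F i j) := GeomExp_sm_Umat hs hF
  have h1 : ∀ i : Fin 3, Lop i (Lop i τ) x
      = ∑ j, (Umat s F i j x * Lop i (z j) x + z j x * Lop i (Umat s F i j) x) := by
    intro i
    have h2 : Lop i (Lop i τ) x = Lop i (fun y => ∑ j, Umat s F i j y * z j y) x :=
      Lop_congr (hτ.lop i) (Sm.sum fun j _ => (hUs i j).mul (hz j)) (fun y hy => (hU y hy i).symm) hx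
    rw [h2, Lop_sum (fun j _ => (hUs i j).mul (hz j)) hx]
    exact Finset.sum_congr rfl fun j _ => Lop_mul (hUs i j) (hz j) hx
  have h3 : lap τ x = ∑ i, Lop i (Lop i τ) x := rfl
  have h4 : ∀ j : Fin 3, Lop j (fun y => lap s y + 2 * F y) x = Lop j (lap s) x + 2 * Lop j F x := by
    intro j
    rw [Lop_add hs.lap (hF.const_mul 2) hx, Lop_const_mul 2 hF hx]
  have h5 : ∀ j : Fin 3, Lop j τ x = Lop j s x - Lop j F x := by
    intro j
    rw [← Lop_sub hs hF hx]
    exact Lop_congr hτ (hs.sub hF) hτe hx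
  have h6 := hzt x hx
  rw [h3, Finset.sum_congr rfl fun i _ => h1 i]
  have h70 := hκ 0
  have h71 := hκ 1
  have h72 := hκ 2
  simp only [h4, h5, Fin.sum_univ_three] at h70 h71 h72 h6 ⊢
  linear_combination z 0 x * h70 + z 1 x * h71 + z 2 x * h72 + κ * h6

/-! ## Frames -/

/-- The rotation field as a continuous linear map. -/
noncomputable def GeomExp_rotL (k : Fin 3) : E →L[ℝ] E :=
  LinearMap.toContinuousLinearMap
    { toFun := rot k
      map_add' := by
        intro v w
        ext j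
        fin_cases k <;> fin_cases j <;> simp [rot] <;> ring
      map_smul' := by
        intro c v
        ext j
        fin_cases k <;> fin_cases j <;> simp [rot] }

theorem GeomExp_fderiv_rot (k : Fin 3) (x v : E) : fderiv ℝ (rot k) x v = rot k v := by
  have h : rot k = fun y => GeomExp_rotL k y := rfl
  rw [h, (GeomExp_rotL k).fderiv]

theorem GeomExp_Lop_inner {V W : E → E} {x : E} (hV : DifferentiableAt ℝ V x)
    (hW : DifferentiableAt ℝ W x) (i : Fin 3) :
    Lop i (fun y => inner ℝ (V y) (W y)) x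
      = inner ℝ (V x) (fderiv ℝ W x (rot i x)) + inner ℝ (fderiv ℝ V x (rot i x)) (W x) := by
  unfold Lop
  exact fderiv_inner_apply ℝ hV hW _

theorem GeomExp_inner_rot_rot (v x : E) (i k : Fin 3) :
    inner ℝ v (rot k (rot i x)) = x k * v i - (if i = k then 1 else 0) * inner ℝ v x := by
  rw [inner_eq_sum3, inner_eq_sum3]
  fin_cases i <;> fin_cases k <;> simp <;> ring

/-- Expansion of tangent vectors in the rotation fields. -/
theorem GeomExp_expand (v : E) {x : E} (hx : x ∈ SS) (hv : inner ℝ v x = 0) :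
    v = inner ℝ (rot 0 x) v • rot 0 x + inner ℝ (rot 1 x) v • rot 1 x
      + inner ℝ (rot 2 x) v • rot 2 x := by
  have h5 := sq_sum_eq_one hx
  rw [inner_eq_sum3] at hv
  ext j
  simp only [PiLp.add_apply, PiLp.smul_apply, smul_eq_mul, inner_eq_sum3]
  fin_cases j
  · simp
    linear_combination (-v 0) * h5 + x 0 * hv
  · simp
    linear_combination (-v 1) * h5 + x 1 * hv
  · simp
    linear_combination (-v 2) * h5 + x 2 * hv

theorem GeomExp_parseval_rot (v w : E) {x : E} (hx : x ∈ SS) (hv : inner ℝ v x = 0) :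
    ∑ i, inner ℝ (rot i x) v * inner ℝ (rot i x) w = inner ℝ v w := by
  have h5 := sq_sum_eq_one hx
  simp only [Fin.sum_univ_three, inner_eq_sum3] at hv ⊢
  simp
  linear_combination (v 0 * w 0 + v 1 * w 1 + v 2 * w 2) * h5
    - (x 0 * w 0 + x 1 * w 1 + x 2 * w 2) * hv

/-- Completeness of an orthonormal frame. -/
theorem GeomExp_complete {u v x : E} (hx : x ∈ SS) (hu : ‖u‖ = 1) (hv : ‖v‖ = 1)
    (huv : inner ℝ u v = 0) (hux : inner ℝ u x = 0) (hvx : inner ℝ v x = 0) (k l : Fin 3) :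
    u k * u l + v k * v l + x k * x l = if k = l then 1 else 0 := by
  have h5 := sq_sum_eq_one hx
  have hu2 : u 0 * u 0 + u 1 * u 1 + u 2 * u 2 = 1 := by
    rw [← inner_eq_sum3, real_inner_self_eq_norm_sq, hu]; norm_num
  have hv2 : v 0 * v 0 + v 1 * v 1 + v 2 * v 2 = 1 := by
    rw [← inner_eq_sum3, real_inner_self_eq_norm_sq, hv]; norm_num
  rw [inner_eq_sum3] at huv hux hvx
  have hM : (!![u 0, u 1, u 2; v 0, v 1, v 2; x 0, x 1, x 2] : Matrix (Fin 3) (Fin 3) ℝ)
      * !![u 0, v 0, x 0; u 1, v 1, x 1; u 2, v 2, x 2] = 1 := by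
    ext a b
    fin_cases a <;> fin_cases b <;> simp [Matrix.mul_apply, Fin.sum_univ_three] <;> nlinarith
  have hM2 := mul_eq_one_comm.1 hM
  have h := congrFun (congrFun hM2 k) l
  fin_cases k <;> fin_cases l <;> simpa [Matrix.mul_apply, Fin.sum_univ_three] using h

theorem GeomExp_parseval {u v x : E} (hx : x ∈ SS) (hu : ‖u‖ = 1) (hv : ‖v‖ = 1)
    (huv : inner ℝ u v = 0) (hux : inner ℝ u x = 0) (hvx : inner ℝ v x = 0) (p q : E) :
    inner ℝ p q = inner ℝ p u * inner ℝ q u + inner ℝ p v * inner ℝ q v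
      + inner ℝ p x * inner ℝ q x := by
  have hc := GeomExp_complete hx hu hv huv hux hvx
  have h00 := hc 0 0
  have h01 := hc 0 1
  have h02 := hc 0 2
  have h11 := hc 1 1
  have h12 := hc 1 2
  have h22 := hc 2 2
  simp at h00 h01 h02 h11 h12 h22
  simp only [inner_eq_sum3]
  linear_combination -(p 0 * q 0) * h00 - (p 0 * q 1 + p 1 * q 0) * h01
    - (p 0 * q 2 + p 2 * q 0) * h02 - (p 1 * q 1) * h11 - (p 1 * q 2 + p 2 * q 1) * h12
    - (p 2 * q 2) * h22

theorem GeomExp_expand_frame {u v x : E} (hx : x ∈ SS) (hu : ‖u‖ = 1) (hv : ‖v‖ = 1)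
    (huv : inner ℝ u v = 0) (hux : inner ℝ u x = 0) (hvx : inner ℝ v x = 0) {p : E}
    (hp : inner ℝ p x = 0) : p = inner ℝ p u • u + inner ℝ p v • v := by
  have hc := GeomExp_complete hx hu hv huv hux hvx
  have h00 := hc 0 0
  have h01 := hc 0 1
  have h02 := hc 0 2
  have h11 := hc 1 1
  have h12 := hc 1 2
  have h22 := hc 2 2
  simp at h00 h01 h02 h11 h12 h22
  rw [inner_eq_sum3] at hp
  ext j
  simp only [PiLp.add_apply, PiLp.smul_apply, smul_eq_mul, inner_eq_sum3]
  fin_cases j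
  · simp
    linear_combination -(p 0) * h00 - p 1 * h01 - p 2 * h02 + x 0 * hp
  · simp
    linear_combination -(p 0) * h01 - p 1 * h11 - p 2 * h12 + x 1 * hp
  · simp
    linear_combination -(p 0) * h02 - p 1 * h12 - p 2 * h22 + x 2 * hp

theorem GeomExp_alg (c d : Fin 3 → ℝ) (U B : Fin 3 → Fin 3 → ℝ)
    (U11 U12 U21 U22 B11 B12 B21 B22 : ℝ)
    (hcc : ∑ i, c i * c i = 1) (hdd : ∑ i, d i * d i = 1) (hcd : ∑ i, c i * d i = 0)
    (hU : ∀ i j, U i j = c i * c j * U11 + c i * d j * U12 + d i * c j * U21 + d i * d j * U22)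
    (hB : ∀ i j, B i j = c i * c j * B11 + c i * d j * B12 + d i * c j * B21 + d i * d j * B22) :
    (∑ i, U i i) = U11 + U22 ∧ (∑ i, B i i) = B11 + B22 ∧
      (∑ i, ∑ j, B i j * U i j) = B11 * U11 + B12 * U12 + B21 * U21 + B22 * U22 := by
  simp only [Fin.sum_univ_three] at hcc hdd hcd ⊢
  simp only [hU, hB]
  have key : ∀ S11 S12 S22 : ℝ, c 0 * c 0 + c 1 * c 1 + c 2 * c 2 = S11 →
      c 0 * d 0 + c 1 * d 1 + c 2 * d 2 = S12 → d 0 * d 0 + d 1 * d 1 + d 2 * d 2 = S22 →
      (∑ i, ∑ j, (c i * c j * B11 + c i * d j * B12 + d i * c j * B21 + d i * d j * B22)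
        * (c i * c j * U11 + c i * d j * U12 + d i * c j * U21 + d i * d j * U22))
      = B11 * U11 * (S11 * S11) + B11 * U12 * (S11 * S12) + B11 * U21 * (S12 * S11)
        + B11 * U22 * (S12 * S12)
        + B12 * U11 * (S11 * S12) + B12 * U12 * (S11 * S22) + B12 * U21 * (S12 * S12)
        + B12 * U22 * (S12 * S22)
        + B21 * U11 * (S12 * S11) + B21 * U12 * (S12 * S12) + B21 * U21 * (S22 * S11)
        + B21 * U22 * (S22 * S12)
        + B22 * U11 * (S12 * S12) + B22 * U12 * (S12 * S22) + B22 * U21 * (S22 * S12)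
        + B22 * U22 * (S22 * S22) := by
    intro S11 S12 S22 h1 h2 h3
    subst h1 h2 h3
    simp only [Fin.sum_univ_three]
    ring
  refine ⟨?_, ?_, ?_⟩
  · linear_combination U11 * hcc + (U12 + U21) * hcd + U22 * hdd
  · linear_combination B11 * hcc + (B12 + B21) * hcd + B22 * hdd
  · have := key 1 0 1 hcc hcd hdd
    simp only [Fin.sum_univ_three] at this
    rw [this]
    ring

theorem GeomExp (hU : GeomU_Stmt) (hZ : GeomZ_Stmt) (hA : GeomArea_Stmt) : GeomExp_Stmt := by
  intro X ℓ e₁ e₂ hX hℓ hfr x hx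
  obtain ⟨hs, hF, hUm, -⟩ := hU X hX
  obtain ⟨hzs, hzt, hz0, hz1, hUz⟩ := hZ X ℓ hX hℓ
  obtain ⟨hdet, harea, hdet2⟩ := hA X e₁ e₂ hX hfr x hx
  rw [harea]
  unfold expansion
  rw [hdet2]
  have hu := hfr.norm₁ x hx
  have hv := hfr.norm₂ x hx
  have huv := hfr.orth x hx
  have hux := hfr.tan₁ x hx
  have hvx := hfr.tan₂ x hx
  generalize e₁ x = u at *
  generalize e₂ x = v at *
  -- differentials
  have dX : DifferentiableAt ℝ X x := (hX.smooth x hx).differentiableAt (by simp)
  have dℓ : DifferentiableAt ℝ ℓ x := (hℓ.smooth x hx).differentiableAt (by simp)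
  have hX1 : Sm (fun y => (X y).1) := fun y hy => (hX.smooth y hy).fst
  have hl2 : ∀ y ∈ SS, ContDiffAt ℝ ∞ (fun y => (ℓ y).2) y := fun y hy => (hℓ.smooth y hy).snd
  have hl1 : Sm (fun y => (ℓ y).1) := fun y hy => (hℓ.smooth y hy).fst
  set D := fderiv ℝ (fun y => (X y).2) x with hD
  set T := fderiv ℝ (fun y => (X y).1) x with hT
  set G := fderiv ℝ (fun y => (ℓ y).2) x with hG
  set g0 := fderiv ℝ (fun y => (ℓ y).1) x with hg0
  have hXd : ∀ w : E, fderiv ℝ X x w = (T w, D w) := by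
    intro w
    rw [hT, hD, dX.hasFDerivAt.fst.fderiv, dX.hasFDerivAt.snd.fderiv]
    rfl
  have hℓd : ∀ w : E, fderiv ℝ ℓ x w = (g0 w, G w) := by
    intro w
    rw [hg0, hG, dℓ.hasFDerivAt.fst.fderiv, dℓ.hasFDerivAt.snd.fderiv]
    rfl
  have dX2 : DifferentiableAt ℝ (fun y => (X y).2) x := dX.snd
  have dl2 : DifferentiableAt ℝ (fun y => (ℓ y).2) x := dℓ.snd
  have dl1 : DifferentiableAt ℝ (fun y => (ℓ y).1) x := dℓ.fst
  -- the function tau
  set τ : E → ℝ := fun y => sFun X y - FFun X y with hτ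
  have hτ1 : τ = fun y => (X y).1 := by
    funext y; simp only [hτ, sFun, FFun]; ring
  have hτs : Sm τ := by rw [hτ1]; exact hX1
  have hτL : ∀ i, Lop i τ x = T (rot i x) := by
    intro i; rw [hτ1]; rfl
  -- z
  set z : Fin 3 → ℝ := fun i => zFun ℓ i x with hz
  have hzl : ∀ i, inner ℝ (ℓ x).2 (rot i x) = 2 * z i := by
    intro i; simp only [hz, zFun]; ring
  -- F6
  have hF6 : ∀ i, inner ℝ (G (rot i x)) x + g0 (rot i x) = -2 * z i := by
    intro i
    have s1 : Sm (fun y => (ℓ y).1) := hl1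
    have s2 : Sm (fun y => inner ℝ (ℓ y).2 y) := fun y hy => (hl2 y hy).inner ℝ contDiffAt_id
    have h1 : Lop i (fun y => (ℓ y).1 + inner ℝ (ℓ y).2 y) x = Lop i (fun _ => (2 : ℝ)) x :=
      Lop_congr (s1.add s2) (sm_const 2) (fun y hy => by rw [hz0 y hy, hz1 y hy]; ring) hx
    rw [Lop_const, Lop_add s1 s2 hx,
      GeomExp_Lop_inner (W := fun y => y) dl2 differentiableAt_id i] at h1
    have h2 : Lop i (fun y => (ℓ y).1) x = g0 (rot i x) := rfl
    rw [h2] at h1
    have h3 : fderiv ℝ (fun y : E => y) x (rot i x) = rot i x := by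
      simp
    rw [h3, hzl i] at h1
    linarith
  -- F5
  have hF5 : ∀ i k, inner ℝ (G (rot i x)) (rot k x)
      = 2 * Lop i (zFun ℓ k) x - x k * (ℓ x).2 i
        + (if i = k then 1 else 0) * inner ℝ (ℓ x).2 x := by
    intro i k
    have s1 : Sm (fun y => inner ℝ (ℓ y).2 (rot k y)) :=
      fun y hy => (hl2 y hy).inner ℝ (contDiff_rot k).contDiffAt
    have h1 : zFun ℓ k = fun y => (1 / 2) * inner ℝ (ℓ y).2 (rot k y) := by
      funext y; simp only [zFun]; ring
    have h2 : Lop i (zFun ℓ k) x = (1 / 2) * Lop i (fun y => inner ℝ (ℓ y).2 (rot k y)) x := by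
      rw [h1, Lop_const_mul _ s1 hx]
    rw [GeomExp_Lop_inner dl2 ((contDiff_rot k).differentiable (by simp) x) i,
      GeomExp_fderiv_rot, GeomExp_inner_rot_rot] at h2
    rw [h2]
    ring
  -- frame coefficients
  set c : Fin 3 → ℝ := fun i => inner ℝ (rot i x) u with hc
  set d : Fin 3 → ℝ := fun i => inner ℝ (rot i x) v with hd
  have hcc : ∑ i, c i * c i = 1 := by
    rw [GeomExp_parseval_rot u u hx hux, real_inner_self_eq_norm_sq, hu]; norm_num
  have hdd : ∑ i, d i * d i = 1 := by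
    rw [GeomExp_parseval_rot v v hx hvx, real_inner_self_eq_norm_sq, hv]; norm_num
  have hcd : ∑ i, c i * d i = 0 := by
    rw [GeomExp_parseval_rot u v hx hux, huv]
  have hrot : ∀ i, rot i x = c i • u + d i • v := fun i =>
    GeomExp_expand_frame hx hu hv huv hux hvx (inner_rot_self i x)
  have hue : u = c 0 • rot 0 x + c 1 • rot 1 x + c 2 • rot 2 x := GeomExp_expand u hx hux
  have hve : v = d 0 • rot 0 x + d 1 • rot 1 x + d 2 • rot 2 x := GeomExp_expand v hx hvx
  -- matrices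
  set U11 := inner ℝ (D u) u with hU11
  set U12 := inner ℝ (D u) v with hU12
  set U21 := inner ℝ (D v) u with hU21
  set U22 := inner ℝ (D v) v with hU22
  set ζ1 := c 0 * z 0 + c 1 * z 1 + c 2 * z 2 with hζ1
  set ζ2 := d 0 * z 0 + d 1 * z 1 + d 2 * z 2 with hζ2
  set B11 := inner ℝ (G u) u + 2 * ζ1 * ζ1 with hB11
  set B12 := inner ℝ (G u) v + 2 * ζ1 * ζ2 with hB12
  set B21 := inner ℝ (G v) u + 2 * ζ2 * ζ1 with hB21
  set B22 := inner ℝ (G v) v + 2 * ζ2 * ζ2 with hB22
  have hUe : ∀ i j, Umat (sFun X) (FFun X) i j x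
      = c i * c j * U11 + c i * d j * U12 + d i * c j * U21 + d i * d j * U22 := by
    intro i j
    rw [hUm x hx i j]
    have : inner ℝ (D (rot i x)) (rot j x)
        = inner ℝ (D (c i • u + d i • v)) (c j • u + d j • v) := by
      rw [← hrot i, ← hrot j]
    rw [this]
    simp only [map_add, map_smul, inner_add_left, inner_add_right, real_inner_smul_left,
      real_inner_smul_right]
    ring
  -- components of z
  have hzt' : z 0 * x 0 + z 1 * x 1 + z 2 * x 2 = 0 := by
    have := hzt x hx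
    simpa only [Fin.sum_univ_three] using this
  have hcomp : ∀ i j, c i * c j + d i * d j = (if i = j then 1 else 0) - x i * x j := by
    intro i j
    have h1 := GeomExp_parseval hx hu hv huv hux hvx (rot i x) (rot j x)
    rw [inner_rot_self, zero_mul, add_zero] at h1
    have h2 : inner ℝ (rot i x) (rot j x) = (if i = j then 1 else 0) - x i * x j := by
      have h5 := sq_sum_eq_one hx
      rw [inner_eq_sum3]
      fin_cases i <;> fin_cases j <;> simp <;> linarith
    rw [← h2, h1]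
  have hzi : ∀ i, z i = c i * ζ1 + d i * ζ2 := by
    intro i
    have h0 := hcomp i 0
    have h1 := hcomp i 1
    have h2 := hcomp i 2
    rw [hζ1, hζ2]
    fin_cases i
    · simp at h0 h1 h2 ⊢
      linear_combination -(z 0) * h0 - z 1 * h1 - z 2 * h2 + x 0 * hzt'
    · simp at h0 h1 h2 ⊢
      linear_combination -(z 0) * h0 - z 1 * h1 - z 2 * h2 + x 1 * hzt'
    · simp at h0 h1 h2 ⊢
      linear_combination -(z 0) * h0 - z 1 * h1 - z 2 * h2 + x 2 * hzt'
  have hBe : ∀ i j, inner ℝ (G (rot i x)) (rot j x) + 2 * z i * z j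
      = c i * c j * B11 + c i * d j * B12 + d i * c j * B21 + d i * d j * B22 := by
    intro i j
    have : inner ℝ (G (rot i x)) (rot j x)
        = inner ℝ (G (c i • u + d i • v)) (c j • u + d j • v) := by
      rw [← hrot i, ← hrot j]
    rw [this, hzi i, hzi j]
    simp only [map_add, map_smul, inner_add_left, inner_add_right, real_inner_smul_left,
      real_inner_smul_right]
    rw [hB11, hB12, hB21, hB22]
    ring
  obtain ⟨ht1, ht2, ht3⟩ := GeomExp_alg c d (fun i j => Umat (sFun X) (FFun X) i j x)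
    (fun i j => inner ℝ (G (rot i x)) (rot j x) + 2 * z i * z j)
    U11 U12 U21 U22 B11 B12 B21 B22 hcc hdd hcd hUe hBe
  obtain ⟨-, -, ht4⟩ := GeomExp_alg c d (fun i j => Umat (sFun X) (FFun X) i j x)
    (fun i j => Umat (sFun X) (FFun X) i j x)
    U11 U12 U21 U22 U11 U12 U21 U22 hcc hdd hcd hUe hUe
  -- symmetry of U
  have hUs : ∀ i j, Umat (sFun X) (FFun X) i j x = Umat (sFun X) (FFun X) j i x := by
    intro i j
    unfold Umat
    rw [hess_symm hs hx i j]
    by_cases hij : i = j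
    · subst hij; ring
    · rw [if_neg hij, if_neg (Ne.symm hij)]; ring
  have hsym : U12 = U21 := by
    have h1 : ∀ i, ∑ j, Umat (sFun X) (FFun X) i j x * d j = c i * U12 + d i * U22 := by
      intro i
      simp only [hUe]
      simp only [Fin.sum_univ_three] at hcd hdd ⊢
      linear_combination (c i * U11 + d i * U21) * hcd + (c i * U12 + d i * U22) * hdd
    have h2 : ∀ i, ∑ j, Umat (sFun X) (FFun X) i j x * c j = c i * U11 + d i * U21 := by
      intro i
      simp only [hUe]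
      simp only [Fin.sum_univ_three] at hcd hcc ⊢
      linear_combination (c i * U11 + d i * U21) * hcc + (c i * U12 + d i * U22) * hcd
    have h3 : ∑ i, c i * ∑ j, Umat (sFun X) (FFun X) i j x * d j = U12 := by
      simp only [h1]
      simp only [Fin.sum_univ_three] at hcd hcc ⊢
      linear_combination U12 * hcc + U22 * hcd
    have h4 : ∑ i, d i * ∑ j, Umat (sFun X) (FFun X) i j x * c j = U21 := by
      simp only [h2]
      simp only [Fin.sum_univ_three] at hcd hdd ⊢
      linear_combination U11 * hcd + U21 * hdd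
    rw [← h3, ← h4]
    simp only [Fin.sum_univ_three]
    rw [hUs 1 0, hUs 2 0, hUs 2 1]
    ring
  -- the time components
  have hTx : ∀ w : E, inner ℝ w x = 0 → T w = - inner ℝ (D w) x := by
    intro w hw
    have h1 := hX.normal x hx w hw
    rw [hXd w] at h1
    simp only [mink, ingoing, inner_neg_right] at h1
    linarith
  have hTrot : ∀ i, T (rot i x) = ∑ j, Umat (sFun X) (FFun X) i j x * z j := by
    intro i
    rw [← hτL i, ← hUz x hx i]
  have hTu : T u = U11 * ζ1 + U12 * ζ2 := by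
    have h1 : T u = c 0 * T (rot 0 x) + c 1 * T (rot 1 x) + c 2 * T (rot 2 x) := by
      conv_lhs => rw [hue]
      simp only [map_add, map_smul, smul_eq_mul]
    rw [h1, hTrot, hTrot, hTrot]
    simp only [hUe, hζ1, hζ2]
    simp only [Fin.sum_univ_three] at hcd hcc ⊢
    linear_combination (U11 * (c 0 * z 0 + c 1 * z 1 + c 2 * z 2)
      + U12 * (d 0 * z 0 + d 1 * z 1 + d 2 * z 2)) * hcc
      + (U21 * (c 0 * z 0 + c 1 * z 1 + c 2 * z 2)
      + U22 * (d 0 * z 0 + d 1 * z 1 + d 2 * z 2)) * hcd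
  have hTv : T v = U21 * ζ1 + U22 * ζ2 := by
    have h1 : T v = d 0 * T (rot 0 x) + d 1 * T (rot 1 x) + d 2 * T (rot 2 x) := by
      conv_lhs => rw [hve]
      simp only [map_add, map_smul, smul_eq_mul]
    rw [h1, hTrot, hTrot, hTrot]
    simp only [hUe, hζ1, hζ2]
    simp only [Fin.sum_univ_three] at hcd hdd ⊢
    linear_combination (U11 * (c 0 * z 0 + c 1 * z 1 + c 2 * z 2)
      + U12 * (d 0 * z 0 + d 1 * z 1 + d 2 * z 2)) * hcd
      + (U21 * (c 0 * z 0 + c 1 * z 1 + c 2 * z 2)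
      + U22 * (d 0 * z 0 + d 1 * z 1 + d 2 * z 2)) * hdd
  have hGu : inner ℝ (G u) x + g0 u = -2 * ζ1 := by
    have h1 : inner ℝ (G u) x + g0 u = c 0 * (inner ℝ (G (rot 0 x)) x + g0 (rot 0 x))
        + c 1 * (inner ℝ (G (rot 1 x)) x + g0 (rot 1 x))
        + c 2 * (inner ℝ (G (rot 2 x)) x + g0 (rot 2 x)) := by
      conv_lhs => rw [hue]
      simp only [map_add, map_smul, smul_eq_mul, inner_add_left, real_inner_smul_left]
      ring
    rw [h1, hF6, hF6, hF6, hζ1]
    ring
  have hGv : inner ℝ (G v) x + g0 v = -2 * ζ2 := by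
    have h1 : inner ℝ (G v) x + g0 v = d 0 * (inner ℝ (G (rot 0 x)) x + g0 (rot 0 x))
        + d 1 * (inner ℝ (G (rot 1 x)) x + g0 (rot 1 x))
        + d 2 * (inner ℝ (G (rot 2 x)) x + g0 (rot 2 x)) := by
      conv_lhs => rw [hve]
      simp only [map_add, map_smul, smul_eq_mul, inner_add_left, real_inner_smul_left]
      ring
    rw [h1, hF6, hF6, hF6, hζ2]
    ring
  have hDu := hTx u hux
  have hDv := hTx v hvx
  -- fundamental forms
  have hP := GeomExp_parseval hx hu hv huv hux hvx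
  have f11 : firstForm X x u u = U11 * U11 + U12 * U12 := by
    simp only [firstForm, mink, hXd]
    rw [hP (D u) (D u), ← hU11, ← hU12, hDu]; ring
  have f12 : firstForm X x u v = U11 * U21 + U12 * U22 := by
    simp only [firstForm, mink, hXd]
    rw [hP (D u) (D v), ← hU11, ← hU12, ← hU21, ← hU22, hDu, hDv]; ring
  have f22 : firstForm X x v v = U21 * U21 + U22 * U22 := by
    simp only [firstForm, mink, hXd]
    rw [hP (D v) (D v), ← hU21, ← hU22, hDv]; ring
  have s11 : secondForm X ℓ x u u = B11 * U11 + B12 * U12 := by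
    simp only [secondForm, mink, hXd, hℓd]
    rw [hP (G u) (D u), ← hU11, ← hU12]
    have e1 : inner ℝ (D u) x = - T u := by rw [hDu]; ring
    rw [e1, hB11, hB12]
    linear_combination (-T u) * hGu + 2 * ζ1 * hTu
  have s12 : secondForm X ℓ x u v = B11 * U21 + B12 * U22 := by
    simp only [secondForm, mink, hXd, hℓd]
    rw [hP (G u) (D v), ← hU21, ← hU22]
    have e1 : inner ℝ (D v) x = - T v := by rw [hDv]; ring
    rw [e1, hB11, hB12]
    linear_combination (-T v) * hGu + 2 * ζ1 * hTv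
  have s21 : secondForm X ℓ x v u = B21 * U11 + B22 * U12 := by
    simp only [secondForm, mink, hXd, hℓd]
    rw [hP (G v) (D u), ← hU11, ← hU12]
    have e1 : inner ℝ (D u) x = - T u := by rw [hDu]; ring
    rw [e1, hB21, hB22]
    linear_combination (-T u) * hGv + 2 * ζ2 * hTu
  have s22 : secondForm X ℓ x v v = B21 * U21 + B22 * U22 := by
    simp only [secondForm, mink, hXd, hℓd]
    rw [hP (G v) (D v), ← hU21, ← hU22]
    have e1 : inner ℝ (D v) x = - T v := by rw [hDv]; ring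
    rw [e1, hB21, hB22]
    linear_combination (-T v) * hGv + 2 * ζ2 * hTv
  -- traces
  have h5 := sq_sum_eq_one hx
  have hx1 : ∑ i, x i * x i = 1 := by
    simp only [Fin.sum_univ_three]; linarith
  have htr : ∑ i, Umat (sFun X) (FFun X) i i x = lap (sFun X) x + 2 * FFun X x := by
    have h1 : ∀ i, Umat (sFun X) (FFun X) i i x
        = hess (sFun X) i i x + FFun X x * (1 - x i * x i) := fun i => by
      unfold Umat; rw [if_pos rfl]
    simp only [h1, Finset.sum_add_distrib]
    rw [hess_trace hs hx, ← Finset.mul_sum, Finset.sum_sub_distrib, hx1]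
    simp
    ring
  have hUx : ∀ i, ∑ j, Umat (sFun X) (FFun X) i j x * x j = 0 := by
    intro i
    have h1 := hess_mul_coord hs hx i
    have h2 : ∀ j, Umat (sFun X) (FFun X) i j x * x j
        = hess (sFun X) i j x * x j + FFun X x * (if i = j then x j else 0)
          - FFun X x * x i * (x j * x j) := by
      intro j
      unfold Umat
      by_cases hij : i = j
      · subst hij; simp; ring
      · simp [hij]; ring
    simp only [h2, Finset.sum_sub_distrib, Finset.sum_add_distrib]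
    rw [h1, ← Finset.mul_sum, ← Finset.mul_sum, hx1]
    simp
  have hdetU : detU (sFun X) (FFun X) x = U11 * U22 - U12 * U21 := by
    unfold detU
    have e1 : ∑ i, ∑ j, Umat (sFun X) (FFun X) i j x ^ 2
        = U11 * U11 + U12 * U12 + U21 * U21 + U22 * U22 := by
      rw [← ht4]
      exact Finset.sum_congr rfl fun i _ => Finset.sum_congr rfl fun j _ => by ring
    rw [e1, ← htr, ht1, hsym]
    ring
  have hlx : (ℓ x).2 0 * x 0 + (ℓ x).2 1 * x 1 + (ℓ x).2 2 * x 2 = inner ℝ (ℓ x).2 x :=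
    (inner_eq_sum3 _ _).symm
  have hm := hz1 x hx
  have hlap := GeomExp_lap hs hF hτs hzs (fun _ _ => rfl) hzt hUz hx
  have hLt : ∀ i, Lop i (fun y => (lap (sFun X) y + 2 * FFun X y) * zFun ℓ i y) x
      = (lap (sFun X) x + 2 * FFun X x) * Lop i (zFun ℓ i) x
        + z i * Lop i (fun y => lap (sFun X) y + 2 * FFun X y) x := by
    intro i
    exact Lop_mul (hs.lap.add (hF.const_mul 2)) (hzs i) hx
  have hτL' : ∀ j, Lop j τ x = ∑ k, Umat (sFun X) (FFun X) j k x * z k := fun j => by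
    rw [← hUz x hx j]
  rw [f11, f12, f22, s11, s12, s21, s22]
  have hdne : U11 * U22 - U12 * U21 ≠ 0 := by rw [← hdetU]; exact hdet.ne'
  have hL : ((B11 * U11 + B12 * U12) * (U21 * U21 + U22 * U22)
      - (B11 * U21 + B12 * U22) * (U11 * U21 + U12 * U22)
      - (B21 * U11 + B22 * U12) * (U11 * U21 + U12 * U22)
      + (B21 * U21 + B22 * U22) * (U11 * U11 + U12 * U12)) / detU (sFun X) (FFun X) x ^ 2
      * detU (sFun X) (FFun X) x
      = (U11 + U22) * (B11 + B22) - (B11 * U11 + B12 * U12 + B21 * U21 + B22 * U22) := by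
    rw [hdetU]
    rw [← hsym] at hdne ⊢
    rw [div_mul_eq_mul_div, div_eq_iff (pow_ne_zero 2 hdne)]
    ring
  rw [hL, hlap, Finset.sum_congr rfl fun i _ => hLt i, ← ht1, ← ht2, ← ht3, htr]
  simp only [hF5, hτL']
  have hU0 := hUx 0
  have hU1 := hUx 1
  have hU2 := hUx 2
  simp only [Fin.sum_univ_three] at htr hm hU0 hU1 hU2 ⊢
  have hzz : ∀ i, zFun ℓ i x = z i := fun _ => rfl
  simp only [hzz] at hm ⊢
  simp
  linear_combination (-(lap (sFun X) x + 2 * FFun X x)) * hlx + (ℓ x).2 0 * hU0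
    + (ℓ x).2 1 * hU1 + (ℓ x).2 2 * hU2 - inner ℝ (ℓ x).2 x * htr
    + (lap (sFun X) x + 2 * FFun X x) * hm

end Pool.Agent.NullShell
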