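import Pool.Agent.NullShell.Stmts

/-! # Geometry of the surface: the matrix `U` -/

open MeasureTheory Filter Topology
open scoped ContDiff

namespace Pool.Agent.NullShell

theorem fderiv_rot (j : Fin 3) (x v : E) : fderiv ℝ (rot j) x v = rot j v := by
  have h : rot j = (rotL j : E → E) := rfl
  rw [h, ContinuousLinearMap.fderiv]

theorem differentiableAt_rot (j : Fin 3) (x : E) : DifferentiableAt ℝ (rot j) x :=
  (rotL j).differentiableAt

section

variable {X : E → Mink}

theorem GeomU_fst (hX : IsSurface X) {x : E} (hx : x ∈ SS) :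
    ContDiffAt ℝ ∞ (fun y => (X y).1) x := (hX.smooth x hx).fst
theorem GeomU_snd (hX : IsSurface X) {x : E} (hx : x ∈ SS) :
    ContDiffAt ℝ ∞ (fun y => (X y).2) x := (hX.smooth x hx).snd

theorem GeomU_diff_fst (hX : IsSurface X) {x : E} (hx : x ∈ SS) :
    DifferentiableAt ℝ (fun y => (X y).1) x := (GeomU_fst hX hx).differentiableAt (by simp)
theorem GeomU_diff_snd (hX : IsSurface X) {x : E} (hx : x ∈ SS) :
    DifferentiableAt ℝ (fun y => (X y).2) x := (GeomU_snd hX hx).differentiableAt (by simp)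
theorem GeomU_diff (hX : IsSurface X) {x : E} (hx : x ∈ SS) : DifferentiableAt ℝ X x :=
  (hX.smooth x hx).differentiableAt (by simp)

theorem GeomU_fderiv_fst (hX : IsSurface X) {x : E} (hx : x ∈ SS) (v : E) :
    (fderiv ℝ X x v).1 = fderiv ℝ (fun y => (X y).1) x v := by
  rw [(GeomU_diff hX hx).hasFDerivAt.fst.fderiv]
  rfl
theorem GeomU_fderiv_snd (hX : IsSurface X) {x : E} (hx : x ∈ SS) (v : E) :
    (fderiv ℝ X x v).2 = fderiv ℝ (fun y => (X y).2) x v := by
  rw [(GeomU_diff hX hx).hasFDerivAt.snd.fderiv]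
  rfl

/-- The normal condition: `⟨DY v, x⟩ = - Dτ v`. -/
theorem GeomU_normal (hX : IsSurface X) {x : E} (hx : x ∈ SS) {v : E} (hv : inner ℝ v x = 0) :
    inner ℝ (fderiv ℝ (fun y => (X y).2) x v) x = - fderiv ℝ (fun y => (X y).1) x v := by
  have h := hX.normal x hx v hv
  unfold mink ingoing at h
  rw [GeomU_fderiv_fst hX hx, GeomU_fderiv_snd hX hx] at h
  simp only [inner_neg_right, mul_one] at h
  linarith

theorem GeomU_smF (hX : IsSurface X) : Sm (FFun X) :=
  fun _ hx => (GeomU_snd hX hx).inner ℝ contDiffAt_id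

theorem GeomU_smS (hX : IsSurface X) : Sm (sFun X) :=
  fun _ hx => (GeomU_fst hX hx).add ((GeomU_snd hX hx).inner ℝ contDiffAt_id)

/-- `L_i s = ⟨Y, e_i × x⟩`. -/
theorem GeomU_Lop_s (hX : IsSurface X) {x : E} (hx : x ∈ SS) (i : Fin 3) :
    Lop i (sFun X) x = inner ℝ (X x).2 (rot i x) := by
  have h1 := GeomU_normal hX hx (inner_rot_self i x)
  have h2 : fderiv ℝ (sFun X) x (rot i x) = fderiv ℝ (fun y => (X y).1) x (rot i x)
      + (inner ℝ (X x).2 (rot i x) + inner ℝ (fderiv ℝ (fun y => (X y).2) x (rot i x)) x) := by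
    have h3 : sFun X = fun y => (X y).1 + inner ℝ (X y).2 y := rfl
    rw [h3, fderiv_fun_add (GeomU_diff_fst hX hx)
      ((GeomU_diff_snd hX hx).inner ℝ differentiableAt_fun_id)]
    rw [add_apply, fderiv_inner_apply ℝ (GeomU_diff_snd hX hx)
      differentiableAt_fun_id]
    simp
  unfold Lop
  rw [h2, h1]
  ring

/-- `L_i L_j s = ⟨DY (e_i × x), e_j × x⟩ + ⟨Y, e_j × (e_i × x)⟩`. -/
theorem GeomU_Lop_Lop_s (hX : IsSurface X) {x : E} (hx : x ∈ SS) (i j : Fin 3) :
    Lop i (Lop j (sFun X)) x = inner ℝ (fderiv ℝ (fun y => (X y).2) x (rot i x)) (rot j x)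
      + inner ℝ (X x).2 (rot j (rot i x)) := by
  have h1 : Sm (fun y => inner ℝ (X y).2 (rot j y)) :=
    fun y hy => (GeomU_snd hX hy).inner ℝ (contDiff_rot j).contDiffAt
  rw [Lop_congr ((GeomU_smS hX).lop j) h1 (fun y hy => GeomU_Lop_s hX hy j) hx]
  unfold Lop
  rw [fderiv_inner_apply ℝ (GeomU_diff_snd hX hx) (differentiableAt_rot j x), fderiv_rot]
  ring

theorem GeomU_Umat (hX : IsSurface X) {x : E} (hx : x ∈ SS) (i j : Fin 3) :
    Umat (sFun X) (FFun X) i j x
      = inner ℝ (fderiv ℝ (fun y => (X y).2) x (rot i x)) (rot j x) := by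
  have h1 := sq_sum_eq_one hx
  unfold Umat hess
  rw [GeomU_Lop_Lop_s hX hx]
  have h2 : x j * xcr (sFun X) i x + inner ℝ (X x).2 (rot j (rot i x))
      + FFun X x * ((if i = j then 1 else 0) - x i * x j) = 0 := by
    unfold FFun
    set Y := (X x).2 with hY
    have h3 : ∀ k, Lop k (sFun X) x = inner ℝ Y (rot k x) := fun k => GeomU_Lop_s hX hx k
    fin_cases i <;> fin_cases j <;> simp [xcr, h3, inner_eq_sum3]
    · linear_combination (-(x 0 * Y 0)) * h1
    · linear_combination (-(x 1 * Y 0)) * h1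
    · linear_combination (-(x 2 * Y 0)) * h1
    · linear_combination (-(x 0 * Y 1)) * h1
    · linear_combination (-(x 1 * Y 1)) * h1
    · linear_combination (-(x 2 * Y 1)) * h1
    · linear_combination (-(x 0 * Y 2)) * h1
    · linear_combination (-(x 1 * Y 2)) * h1
    · linear_combination (-(x 2 * Y 2)) * h1
  linear_combination h2

/-! ## Positivity -/

/-- Gram identity in three dimensions. -/
theorem GeomU_gram (p x w : E) :
    inner ℝ p (∑ i, x i • rot i w) ^ 2
      = inner ℝ p p * (inner ℝ x x * inner ℝ w w - inner ℝ x w ^ 2)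
        - inner ℝ p x ^ 2 * inner ℝ w w - inner ℝ p w ^ 2 * inner ℝ x x
        + 2 * inner ℝ p x * inner ℝ p w * inner ℝ x w := by
  simp only [inner_eq_sum3, Fin.sum_univ_three]
  simp
  ring

theorem GeomU_fderiv_ingoing (x v : E) : fderiv ℝ ingoing x v = (0, -v) := by
  have h : HasFDerivAt ingoing (((0 : E →L[ℝ] ℝ)).prod (-(ContinuousLinearMap.id ℝ E))) x :=
    (hasFDerivAt_const (1 : ℝ) x).prodMk (hasFDerivAt_id x).neg
  rw [h.fderiv]
  rfl

theorem GeomU_diff_ingoing (x : E) : DifferentiableAt ℝ ingoing x :=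
  ((hasFDerivAt_const (1 : ℝ) x).prodMk (hasFDerivAt_id x).neg).differentiableAt

/-- The regularity condition in terms of `p = DY z + r z`. -/
theorem GeomU_regular (hX : IsSurface X) {x : E} (hx : x ∈ SS) {r : ℝ} (hr : 0 ≤ r) {z : E}
    (hz : inner ℝ z x = 0) (hz0 : z ≠ 0) :
    0 < inner ℝ (fderiv ℝ (fun y => (X y).2) x z + r • z)
        (fderiv ℝ (fun y => (X y).2) x z + r • z)
      - inner ℝ (fderiv ℝ (fun y => (X y).2) x z + r • z) x ^ 2 := by
  have h := hX.regular r hr x hx z hz hz0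
  have h1 : fderiv ℝ (fun y => X y - r • ingoing y) x z
      = (fderiv ℝ (fun y => (X y).1) x z, fderiv ℝ (fun y => (X y).2) x z + r • z) := by
    have hd : DifferentiableAt ℝ (fun y => r • ingoing y) x := (GeomU_diff_ingoing x).const_smul r
    rw [fderiv_fun_sub (GeomU_diff hX hx) hd, fderiv_fun_const_smul (GeomU_diff_ingoing x)]
    ext1
    · simp [GeomU_fderiv_fst hX hx, GeomU_fderiv_ingoing]
    · simp [GeomU_fderiv_snd hX hx, GeomU_fderiv_ingoing]
  rw [h1] at h
  unfold mink at h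
  simp only at h
  have h2 := GeomU_normal hX hx hz
  have h3 : inner ℝ (fderiv ℝ (fun y => (X y).2) x z + r • z) x
      = - fderiv ℝ (fun y => (X y).1) x z := by
    rw [inner_add_left, inner_smul_left, hz, h2]
    simp
  rw [h3]
  nlinarith [h]

/-- `∑ v_i (e_i × x)`. -/
noncomputable def crs (v : Fin 3 → ℝ) (x : E) : E := ∑ i, v i • rot i x

theorem crs_apply0 (v : Fin 3 → ℝ) (x : E) : crs v x 0 = v 1 * x 2 - v 2 * x 1 := by
  simp [crs, Fin.sum_univ_three]; ring
theorem crs_apply1 (v : Fin 3 → ℝ) (x : E) : crs v x 1 = v 2 * x 0 - v 0 * x 2 := by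
  simp [crs, Fin.sum_univ_three]; ring
theorem crs_apply2 (v : Fin 3 → ℝ) (x : E) : crs v x 2 = v 0 * x 1 - v 1 * x 0 := by
  simp [crs, Fin.sum_univ_three]; ring

theorem inner_crs_self (v : Fin 3 → ℝ) (x : E) : inner ℝ (crs v x) x = 0 := by
  rw [inner_eq_sum3, crs_apply0, crs_apply1, crs_apply2]
  ring

theorem GeomU_bilin (hX : IsSurface X) {x : E} (hx : x ∈ SS) (v w : Fin 3 → ℝ) :
    inner ℝ (fderiv ℝ (fun y => (X y).2) x (crs v x)) (crs w x)
      = ∑ i, ∑ j, Umat (sFun X) (FFun X) i j x * v i * w j := by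
  unfold crs
  rw [map_sum, sum_inner]
  refine Finset.sum_congr rfl fun i _ => ?_
  rw [inner_sum]
  refine Finset.sum_congr rfl fun j _ => ?_
  rw [GeomU_Umat hX hx, map_smul, inner_smul_left, inner_smul_right]
  simp only [conj_trivial]
  ring

theorem GeomU_Umat_symm (hX : IsSurface X) {x : E} (hx : x ∈ SS) (i j : Fin 3) :
    Umat (sFun X) (FFun X) i j x = Umat (sFun X) (FFun X) j i x := by
  unfold Umat
  rw [hess_symm (GeomU_smS hX) hx i j]
  have h : (if i = j then (1 : ℝ) else 0) = if j = i then 1 else 0 := by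
    simp only [eq_comm]
  rw [h]
  ring

theorem GeomU_symm (hX : IsSurface X) {x : E} (hx : x ∈ SS) (v w : Fin 3 → ℝ) :
    inner ℝ (fderiv ℝ (fun y => (X y).2) x (crs v x)) (crs w x)
      = inner ℝ (fderiv ℝ (fun y => (X y).2) x (crs w x)) (crs v x) := by
  rw [GeomU_bilin hX hx, GeomU_bilin hX hx, Finset.sum_comm]
  refine Finset.sum_congr rfl fun i _ => Finset.sum_congr rfl fun j _ => ?_
  rw [GeomU_Umat_symm hX hx]
  ring

theorem GeomU_pos (hX : IsSurface X) {x : E} (hx : x ∈ SS) {v : Fin 3 → ℝ}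
    (hv : ∑ i, v i * x i = 0) (hv0 : v ≠ 0) :
    0 < ∑ i, ∑ j, Umat (sFun X) (FFun X) i j x * v i * v j := by
  rw [← GeomU_bilin hX hx]
  have hxx := sq_sum_eq_one hx
  rw [Fin.sum_univ_three] at hv
  set T := fderiv ℝ (fun y => (X y).2) x with hT
  -- the second vector of the frame
  set v' : Fin 3 → ℝ := ![x 1 * v 2 - x 2 * v 1, x 2 * v 0 - x 0 * v 2, x 0 * v 1 - x 1 * v 0]
    with hv'
  set w : E := crs v x with hw
  set u : E := crs v' x with hu
  have hu0 : u 0 = v 0 := by
    rw [hu, crs_apply0]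
    simp [hv']
    linear_combination (v 0) * hxx - (x 0) * hv
  have hu1 : u 1 = v 1 := by
    rw [hu, crs_apply1]
    simp [hv']
    linear_combination (v 1) * hxx - (x 1) * hv
  have hu2 : u 2 = v 2 := by
    rw [hu, crs_apply2]
    simp [hv']
    linear_combination (v 2) * hxx - (x 2) * hv
  have hwx : inner ℝ w x = 0 := inner_crs_self v x
  have hux : inner ℝ u x = 0 := inner_crs_self v' x
  have hwu : inner ℝ w u = 0 := by
    rw [inner_eq_sum3, hw, crs_apply0, crs_apply1, crs_apply2, hu0, hu1, hu2]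
    ring
  set l : ℝ := v 0 ^ 2 + v 1 ^ 2 + v 2 ^ 2 with hl
  have huu : inner ℝ u u = l := by
    rw [inner_eq_sum3, hu0, hu1, hu2, hl]
    ring
  have hww : inner ℝ w w = l := by
    rw [inner_eq_sum3, hw, crs_apply0, crs_apply1, crs_apply2, hl]
    linear_combination (v 0 ^ 2 + v 1 ^ 2 + v 2 ^ 2) * hxx
      - (v 0 * x 0 + v 1 * x 1 + v 2 * x 2) * hv
  have hlpos : 0 < l := by
    rcases Function.ne_iff.1 hv0 with ⟨k, hk⟩
    have hk' : 0 < v k ^ 2 := by
      have : v k ≠ 0 := hk
      positivity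
    fin_cases k <;> simp at hk' <;> rw [hl] <;>
      nlinarith [sq_nonneg (v 0), sq_nonneg (v 1), sq_nonneg (v 2)]
  have hxx' : inner ℝ x x = 1 := by
    rw [inner_eq_sum3]
    linarith
  have hcross : ∑ i, x i • rot i w = u := by
    have h : ∑ i, x i • rot i w = crs (fun i => x i) w := rfl
    rw [h]
    ext k
    fin_cases k
    · show crs (fun i => x i) w 0 = u 0
      rw [crs_apply0, hw, crs_apply1, crs_apply2, hu0]
      linear_combination (v 0) * hxx - (x 0) * hv
    · show crs (fun i => x i) w 1 = u 1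
      rw [crs_apply1, hw, crs_apply0, crs_apply2, hu1]
      linear_combination (v 1) * hxx - (x 1) * hv
    · show crs (fun i => x i) w 2 = u 2
      rw [crs_apply2, hw, crs_apply0, crs_apply1, hu2]
      linear_combination (v 2) * hxx - (x 2) * hv
  have key : ∀ r : ℝ, 0 ≤ r → ∀ z : E, inner ℝ z x = 0 → z ≠ 0 →
      0 < inner ℝ (T z + r • z) u ^ 2 + inner ℝ (T z + r • z) w ^ 2 := by
    intro r hr z hz hz0
    have h1 := GeomU_regular hX hx hr hz hz0
    rw [← hT] at h1
    have h2 := GeomU_gram (T z + r • z) x w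
    have hxw : inner ℝ x w = 0 := by rw [real_inner_comm]; exact hwx
    rw [hcross, hxx', hww, hxw] at h2
    have h3 : inner ℝ (T z + r • z) u ^ 2 + inner ℝ (T z + r • z) w ^ 2
        = l * (inner ℝ (T z + r • z) (T z + r • z) - inner ℝ (T z + r • z) x ^ 2) := by
      linear_combination h2
    rw [h3]
    exact mul_pos hlpos h1
  have hsymm : inner ℝ (T u) w = inner ℝ (T w) u := GeomU_symm hX hx v' v
  set a : ℝ := inner ℝ (T w) w with ha
  set b : ℝ := inner ℝ (T w) u with hb
  set c : ℝ := inner ℝ (T u) u with hc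
  by_contra hneg
  have hneg' : a ≤ 0 := not_lt.1 hneg
  set s : ℝ := Real.sqrt ((a - c) ^ 2 + 4 * b ^ 2) with hs
  have hs2 : s ^ 2 = (a - c) ^ 2 + 4 * b ^ 2 := Real.sq_sqrt (by positivity)
  have hs0 : 0 ≤ s := Real.sqrt_nonneg _
  have hsa : c - a ≤ s := by
    refine Real.le_sqrt_of_sq_le ?_
    nlinarith [sq_nonneg b]
  have hprod : (a + (s - (a + c)) / 2) * (c + (s - (a + c)) / 2) = b ^ 2 := by
    linear_combination hs2 / 4
  set ρ : ℝ := (s - (a + c)) / 2 with hρ
  have hρ0 : 0 ≤ ρ := by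
    rw [hρ]
    linarith
  have hrl : ρ / l * l = ρ := div_mul_cancel₀ _ hlpos.ne'
  have hr0 : 0 ≤ ρ / l := div_nonneg hρ0 hlpos.le
  by_cases hcase : b = 0 ∧ a + ρ = 0
  · have hw0 : w ≠ 0 := by
      intro h0
      rw [h0, inner_zero_left] at hww
      exact hlpos.ne hww
    have h1 := key (ρ / l) hr0 w hwx hw0
    rw [inner_add_left, inner_add_left, inner_smul_left, inner_smul_left, hwu, hww, ← ha, ← hb]
      at h1
    simp only [conj_trivial, mul_zero, add_zero] at h1
    rw [hrl, hcase.1, hcase.2] at h1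
    simp at h1
  · set z : E := b • w + (-(a + ρ)) • u with hz
    have hzx : inner ℝ z x = 0 := by
      rw [hz, inner_add_left, inner_smul_left, inner_smul_left, hwx, hux]
      simp
    have huw : inner ℝ u w = 0 := by rw [real_inner_comm]; exact hwu
    have hzw : inner ℝ z w = b * l := by
      rw [hz, inner_add_left, inner_smul_left, inner_smul_left, hww, huw]
      simp
    have hzu : inner ℝ z u = -(a + ρ) * l := by
      rw [hz, inner_add_left, inner_smul_left, inner_smul_left, hwu, huu]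
      simp
    have hz0 : z ≠ 0 := by
      intro h0
      rw [h0, inner_zero_left] at hzw hzu
      refine hcase ⟨?_, ?_⟩
      · rcases mul_eq_zero.1 hzw.symm with h | h
        · exact h
        · exact absurd h hlpos.ne'
      · rcases mul_eq_zero.1 hzu.symm with h | h
        · linarith
        · exact absurd h hlpos.ne'
    have h1 := key (ρ / l) hr0 z hzx hz0
    have hTz : T z = b • T w + (-(a + ρ)) • T u := by
      rw [hz, map_add, map_smul, map_smul]
    have e1 : inner ℝ (T z + (ρ / l) • z) u = 0 := by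
      rw [inner_add_left, inner_smul_left, hzu, hTz, inner_add_left, inner_smul_left,
        inner_smul_left, ← hb, ← hc]
      simp only [conj_trivial]
      linear_combination (-(a + ρ)) * hrl - hprod
    have e2 : inner ℝ (T z + (ρ / l) • z) w = 0 := by
      rw [inner_add_left, inner_smul_left, hzw, hTz, inner_add_left, inner_smul_left,
        inner_smul_left, ← ha, hsymm]
      simp only [conj_trivial]
      linear_combination b * hrl
    rw [e1, e2] at h1
    simp at h1

theorem GeomU : GeomU_Stmt := fun _ hX =>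
  ⟨GeomU_smS hX, GeomU_smF hX, fun _ hx i j => GeomU_Umat hX hx i j,
    fun _ hx _ hv hv0 => GeomU_pos hX hx hv hv0⟩

end

end Pool.Agent.NullShell
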