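import Pool.Agent.NullShell.Stmts

/-! # The outgoing null normal in terms of `z` -/

open MeasureTheory Filter Topology
open scoped ContDiff

namespace Pool.Agent.NullShell

/-- `∑ ⟨a, e_j × x⟩ ⟨b, e_j × x⟩ = |x|² ⟨a, b⟩ - ⟨a, x⟩ ⟨b, x⟩`. -/
theorem GeomZ_sum_rot (a b x : E) :
    ∑ j, inner ℝ a (rot j x) * inner ℝ b (rot j x)
      = (x 0 ^ 2 + x 1 ^ 2 + x 2 ^ 2) * inner ℝ a b - inner ℝ a x * inner ℝ b x := by
  simp only [Fin.sum_univ_three, inner_eq_sum3]
  simp
  ring

theorem GeomZ_fderiv_snd {X : E → Mink} {x : E} (hX : ContDiffAt ℝ ∞ X x) (v : E) :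
    fderiv ℝ (fun y => (X y).2) x v = (fderiv ℝ X x v).2 := by
  have hd : HasFDerivAt X (fderiv ℝ X x) x := (hX.differentiableAt (by simp)).hasFDerivAt
  rw [hd.snd.fderiv]
  rfl

theorem GeomZ_fderiv_fst {X : E → Mink} {x : E} (hX : ContDiffAt ℝ ∞ X x) (v : E) :
    fderiv ℝ (fun y => (X y).1) x v = (fderiv ℝ X x v).1 := by
  have hd : HasFDerivAt X (fderiv ℝ X x) x := (hX.differentiableAt (by simp)).hasFDerivAt
  rw [hd.fst.fderiv]
  rfl

theorem GeomZ (hU : GeomU_Stmt) : GeomZ_Stmt := by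
  intro X ℓ hX hl
  have hn : ∀ x ∈ SS, inner ℝ (ℓ x).2 x + (ℓ x).1 = 2 := by
    intro x hx
    have h := hl.normalized x hx
    simp only [mink, ingoing, inner_neg_right, mul_one] at h
    linarith
  have hsq : ∀ x ∈ SS, ∑ i, zFun ℓ i x ^ 2 = (ℓ x).1 - 1 := by
    intro x hx
    have h1 := GeomZ_sum_rot (ℓ x).2 (ℓ x).2 x
    rw [sq_sum_eq_one hx, one_mul] at h1
    have h2 := hl.null x hx
    simp only [mink] at h2
    have h3 := hn x hx
    have h4 : ∑ i, zFun ℓ i x ^ 2
        = (∑ j, inner ℝ (ℓ x).2 (rot j x) * inner ℝ (ℓ x).2 (rot j x)) / 4 := by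
      rw [Finset.sum_div]
      refine Finset.sum_congr rfl fun i _ => ?_
      simp only [zFun]
      ring
    rw [h4, h1]
    have h5 : inner ℝ (ℓ x).2 x = 2 - (ℓ x).1 := by linarith
    rw [h5]
    linear_combination h2 / 4
  refine ⟨?_, ?_, ?_, ?_, ?_⟩
  · intro i x hx
    have h1 : ContDiffAt ℝ ∞ (fun y => (ℓ y).2) x := (hl.smooth x hx).snd
    exact (h1.inner ℝ (contDiff_rot i).contDiffAt).div_const 2
  · intro x hx
    simp only [Fin.sum_univ_three, zFun, inner_eq_sum3]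
    simp
    ring
  · intro x hx
    rw [hsq x hx]
    ring
  · intro x hx
    rw [hsq x hx]
    linarith [hn x hx]
  · intro x hx i
    have hXx := hX.smooth x hx
    have hUx := (hU X hX).2.2.1 x hx
    have e1 : Lop i (fun y => sFun X y - FFun X y) x = (fderiv ℝ X x (rot i x)).1 := by
      have h0 : (fun y => sFun X y - FFun X y) = fun y => (X y).1 := by
        funext y
        simp only [sFun, FFun]
        ring
      rw [h0]
      exact GeomZ_fderiv_fst hXx _
    rw [e1]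
    set w := fderiv ℝ X x (rot i x) with hw
    have h1 : mink w (ingoing x) = 0 := hX.normal x hx _ (inner_rot_self i x)
    have h2 : mink w (ℓ x) = 0 := hl.normal x hx _ (inner_rot_self i x)
    simp only [mink, ingoing, inner_neg_right, mul_one] at h1 h2
    have h3 := GeomZ_sum_rot w.2 (ℓ x).2 x
    rw [sq_sum_eq_one hx, one_mul] at h3
    have h4 : ∑ j, Umat (sFun X) (FFun X) i j x * zFun ℓ j x
        = (∑ j, inner ℝ w.2 (rot j x) * inner ℝ (ℓ x).2 (rot j x)) / 2 := by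
      rw [Finset.sum_div]
      refine Finset.sum_congr rfl fun j _ => ?_
      rw [hUx i j, GeomZ_fderiv_snd hXx]
      simp only [zFun]
      ring
    rw [h4, h3]
    have h5 : inner ℝ w.2 x = - w.1 := by linarith
    have h6 : inner ℝ w.2 (ℓ x).2 = w.1 * (ℓ x).1 := by linarith
    have h7 : inner ℝ (ℓ x).2 x = 2 - (ℓ x).1 := by linarith [hn x hx]
    rw [h5, h6, h7]
    ring

end Pool.Agent.NullShell
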