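import Pool.Agent.NullShell.Final
import Pool.Agent.NullShell.Master
import Pool.Agent.NullShell.Bochner
import Pool.Agent.NullShell.Approx
import Pool.Agent.NullShell.GeomU
import Pool.Agent.NullShell.GeomZ
import Pool.Agent.NullShell.GeomArea
import Pool.Agent.NullShell.GeomExp
import Pool.Agent.NullShell.Covariant
import Pool.Agent.NullShell.BoostSurface

/-! # The flux vector of the outer expansion: the inequality without a shell -/

open MeasureTheory
open scoped ContDiff

namespace Pool.Agent.NullShell

/-- The covariant inequality for shells. -/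
theorem covariantShell : Covariant_Stmt :=
  have hFinal : Final_Stmt :=
    Final (Ineq (Core (Master Bochner HessContract)) Approx Bochner) GeomU (GeomZ GeomU)
      (GeomArea GeomU) (GeomExp GeomU (GeomZ GeomU) (GeomArea GeomU))
  Covariant hFinal GeomU (GeomArea GeomU) BoostSurface

/-- The density `θ √γ` is integrable. -/
theorem expansion_integrable (X ℓ : E → Mink) (hX : IsSurface X) (hℓ : IsOuterNormal X ℓ)
    (e₁ e₂ : E → E) (he : IsTangentFrame e₁ e₂) :
    Integrable (fun x : SS => expansion X ℓ e₁ e₂ x * areaElement X e₁ e₂ x) sph := by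
  obtain ⟨hs, hF, -, -⟩ := GeomU X hX
  obtain ⟨hz, -, -, -, -⟩ := GeomZ GeomU X ℓ hX hℓ
  have ht : Sm (fun x => lap (sFun X) x + 2 * FFun X x) := hs.lap.add (hF.const_mul 2)
  have hτ : Sm fun y => sFun X y - FFun X y := hs.sub hF
  have hq : Sm fun x => ∑ i, zFun ℓ i x ^ 2 := Sm.sum fun i _ => (hz i).pow 2
  have hdiv : Sm fun x => ∑ i, Lop i (fun y => (lap (sFun X) y + 2 * FFun X y) * zFun ℓ i y) x :=
    Sm.sum fun i _ => (ht.mul (hz i)).lop i
  have h := Sm.integrable ((((sm_const 1).add hq).mul ht).add ((hdiv.sub hτ.lap).const_mul 2))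
  refine h.congr (Filter.Eventually.of_forall fun x => ?_)
  exact (GeomExp GeomU (GeomZ GeomU) (GeomArea GeomU) X ℓ e₁ e₂ hX hℓ he x x.2).symm

end Pool.Agent.NullShell
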