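import Pool.Agent.NullShell.Core

/-! # The main inequality for functions on the sphere -/

open MeasureTheory Filter Topology
open scoped ContDiff

namespace Pool.Agent.NullShell

theorem detU_eq {s F : E → ℝ} (hs : Sm s) {x : E} (hx : x ∈ SS) :
    detU s F x = (1 / 2) * (lap s x * lap s x - hdot s s x) + F x * lap s x + F x ^ 2 := by
  have h1 := sq_sum_eq_one hx
  have h2 := hess_trace hs hx
  have h3 := hess_mul_coord hs hx
  have h30 := h3 0
  have h31 := h3 1
  have h32 := h3 2
  unfold detU Umat hdot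
  simp only [Fin.sum_univ_three, if_true, zero_ne_one, one_ne_zero, if_false,
    Fin.reduceEq] at h2 h30 h31 h32 ⊢
  have e : (x 0 ^ 2 + x 1 ^ 2 + x 2 ^ 2) ^ 2 = 1 := by rw [h1]; norm_num
  linear_combination (-F x) * h2 + F x * (x 0 * h30 + x 1 * h31 + x 2 * h32)
    + F x ^ 2 * h1 - (1 / 2) * F x ^ 2 * e

theorem sint_detU (hB : Bochner_Stmt) {s F : E → ℝ} (hs : Sm s) (hF : Sm F) :
    sint (detU s F) = sint (fun x => F x ^ 2 - (1 / 2) * gdot F F x
      + (1 / 2) * gdot (fun y => s y - F y) (fun y => s y - F y) x) := by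
  have hll : Sm fun x => lap s x * lap s x := hs.lap.mul hs.lap
  have hFl : Sm fun x => F x * lap s x := hF.mul hs.lap
  have h1 : sint (detU s F) = (1 / 2) * (sint (fun x => lap s x * lap s x) - sint (hdot s s))
      + sint (fun x => F x * lap s x) + sint (fun x => F x ^ 2) := by
    rw [sint_congr (g := fun x => (1 / 2) * (lap s x * lap s x - hdot s s x) + F x * lap s x
      + F x ^ 2) fun x hx => detU_eq hs hx,
      sint_add (((hll.sub (hs.hdot hs)).const_mul _).add hFl) (hF.pow 2),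
      sint_add ((hll.sub (hs.hdot hs)).const_mul _) hFl, sint_const_mul,
      sint_sub hll (hs.hdot hs)]
  have h2 : sint (fun x => F x ^ 2 - (1 / 2) * gdot F F x
      + (1 / 2) * gdot (fun y => s y - F y) (fun y => s y - F y) x)
      = sint (fun x => F x ^ 2) + (1 / 2) * sint (gdot s s) - sint (gdot F s) := by
    rw [sint_congr (g := fun x => (F x ^ 2 + (1 / 2) * gdot s s x) - gdot F s x),
      sint_sub ((hF.pow 2).add ((hs.gdot hs).const_mul _)) (hF.gdot hs),
      sint_add (hF.pow 2) ((hs.gdot hs).const_mul _), sint_const_mul]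
    intro x hx
    unfold gdot
    simp only [Lop_sub hs hF hx, Fin.sum_univ_three]
    ring
  rw [h1, h2, hB s s hs hs, sint_green hF hs]
  ring

/-- The trace of `U` is positive. -/
theorem Umat_trace_pos {s F : E → ℝ} (hs : Sm s)
    (hpos : ∀ x ∈ SS, ∀ v : Fin 3 → ℝ, ∑ i, v i * x i = 0 → v ≠ 0 →
      0 < ∑ i, ∑ j, Umat s F i j x * v i * v j) {x : E} (hx : x ∈ SS) :
    0 < lap s x + 2 * F x := by
  have h1 := sq_sum_eq_one hx
  have hM := fun i => Umat_mul_coord (F := F) hs hx i
  -- some rotation vector is nonzero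
  obtain ⟨v, hv, hv0⟩ : ∃ v : Fin 3 → ℝ, ∑ i, v i * x i = 0 ∧ v ≠ 0 := by
    by_cases h : x 1 = 0 ∧ x 2 = 0
    · refine ⟨![x 2, 0, - x 0], ?_, ?_⟩
      · simp [Fin.sum_univ_three]; ring
      · intro h0
        have h2 := congrFun h0 2
        simp at h2
        rw [h.1, h.2, h2] at h1
        norm_num at h1
    · refine ⟨![0, - x 2, x 1], ?_, ?_⟩
      · simp [Fin.sum_univ_three]; ring
      · intro h0
        have h2 := congrFun h0 2
        have h3 := congrFun h0 1
        simp at h2 h3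
        exact h ⟨h2, h3⟩
  have h2 := hpos x hx v hv hv0
  have hpos' : ∀ v : Fin 3 → ℝ, ∑ i, v i * x i = 0 →
      0 ≤ ∑ i, ∑ j, Umat s F i j x * v i * v j := by
    intro v hv
    by_cases hv0 : v = 0
    · subst hv0; simp
    · exact (hpos x hx v hv hv0).le
  have h3 := core_algebra (fun i j => Umat s F i j x) (fun i => x i) v h1
    (fun i j => Umat_symm hs hx i j) hM (by simpa only [Fin.sum_univ_three] using hv)
    (fun i => ![x 1 * v 2 - x 2 * v 1, x 2 * v 0 - x 0 * v 2, x 0 * v 1 - x 1 * v 0] i)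
    rfl rfl rfl
  have h4 := hpos' (fun i => ![x 1 * v 2 - x 2 * v 1, x 2 * v 0 - x 0 * v 2,
    x 0 * v 1 - x 1 * v 0] i) (by
      simp only [Fin.sum_univ_three, Matrix.cons_val_zero, Matrix.cons_val_one, Matrix.cons_val]
      ring)
  rw [Umat_trace hs hx] at h3
  have h5 : 0 < (lap s x + 2 * F x) * ∑ i, v i ^ 2 := by linarith
  exact pos_of_mul_pos_left h5 (Finset.sum_nonneg fun i _ => sq_nonneg _)

/-- The main inequality. -/
theorem Ineq (hC : Core_Stmt) (hA : Approx_Stmt) (hB : Bochner_Stmt) : Ineq_Stmt := by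
  intro s F z hs hF hz hpos hzx hUz
  rw [sint_detU hB hs hF]
  have htpos : ∀ x ∈ SS, 0 < lap s x + 2 * F x := fun x hx => Umat_trace_pos hs hpos hx
  refine le_of_forall_pos_le_add fun δ hδ => ?_
  have hpi := Real.pi_pos
  obtain ⟨η, R, hη, h0, hR, hle⟩ := hA (fun x => lap s x + 2 * F x)
    (hs.lap.add (hF.const_mul 2)) htpos (δ / (4 * Real.pi)) (by positivity)
  refine (hC s F η z R hs hF hη hz hR h0 hpos hzx hUz).trans ?_
  have h1 := mul_le_mul_of_nonneg_left hle (by positivity : (0 : ℝ) ≤ 4 * Real.pi)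
  have h2 : 4 * Real.pi * (δ / (4 * Real.pi)) = δ := by field_simp
  rw [h2] at h1
  linarith

end Pool.Agent.NullShell
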